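import Pool.Agent.Lib.MP_adc574_ag_CC.P2

/-!
# Leaf P6: the Hasse-Witt matrix and `Inj`
-/

set_option autoImplicit false

namespace MPadcCC

open Polynomial

variable {K : Type*} [Field K] {p : ℕ} [Fact p.Prime] [CharP K p]

private theorem P6_poly {n : ℕ} (v : Fin n → K) :
    ∃ f : K[X], f.degree < (n : WithBot ℕ) ∧ ∀ β : Fin n, f.coeff β.1 = v β := by
  refine ⟨((degreeLTEquiv K n).symm v : K[X]), mem_degreeLT.1 ((degreeLTEquiv K n).symm v).2, fun β => ?_⟩
  have h := congrFun ((degreeLTEquiv K n).apply_symm_apply v) β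
  exact h

/-- The key formula. PROOF. `f * G = ∑_b C f_b X ^ b G` (`coeff_mul` or `as_sum_range' f (m - 1)`), `coeff (X ^ b * G) n = G.coeff (n - b)` if `b ≤ n`;
here `n = p (α + 1) - 1 ≥ p - 1 ≥ b` because `b + 1 ≤ m - 1 < p`. -/
theorem coeff_eq_mulVec {m : ℕ} (hm : m ≤ p) (G f : K[X])
    (hf : f.degree < ((m - 1 : ℕ) : WithBot ℕ)) (α : Fin (m - 1)) :
    (f * G).coeff (p * (α.1 + 1) - 1) =
      (hw p m G).mulVec (fun β : Fin (m - 1) => f.coeff β.1) α := by
  have hp : 0 < p := (Fact.out : p.Prime).pos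
  have hle : p ≤ p * (α.1 + 1) := Nat.le_mul_of_pos_right p (Nat.succ_pos _)
  rw [coeff_mul, Finset.Nat.sum_antidiagonal_eq_sum_range_succ_mk]
  have h1 : ∑ k ∈ Finset.range (p * (α.1 + 1) - 1).succ, f.coeff k * G.coeff (p * (α.1 + 1) - 1 - k) =
      ∑ k ∈ Finset.range (m - 1), f.coeff k * G.coeff (p * (α.1 + 1) - 1 - k) := by
    symm
    refine Finset.sum_subset ?_ ?_
    · intro k hk
      rw [Finset.mem_range] at hk ⊢
      omega
    · intro k _ hk
      rw [Finset.mem_range, not_lt] at hk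
      have h2 : f.coeff k = 0 := by
        refine coeff_eq_zero_of_degree_lt (lt_of_lt_of_le hf ?_)
        exact_mod_cast hk
      rw [h2, zero_mul]
  rw [h1, Finset.sum_range]
  change _ = ∑ β : Fin (m - 1), hw p m G α β * f.coeff β.1
  refine Finset.sum_congr rfl fun β _ => ?_
  unfold hw
  rw [mul_comm, Nat.sub_sub, Nat.add_comm 1 β.1]

/-- The other coefficients are zero. PROOF. `natDegree (f * G) ≤ (m - 2) + m (p - 1) < p (k + 1) - 1` for `k + 1 ≥ m` (`m ≥ 2` unless `f = 0`). -/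
theorem coeff_eq_zero {m : ℕ} (G : K[X]) (hG : G.natDegree ≤ m * (p - 1)) (f : K[X])
    (hf : f.degree < ((m - 1 : ℕ) : WithBot ℕ)) (k : ℕ) (hk : m ≤ k + 1) :
    (f * G).coeff (p * (k + 1) - 1) = 0 := by
  by_cases h0 : f = 0
  · rw [h0, zero_mul, coeff_zero]
  · have hp : 0 < p := (Fact.out : p.Prime).pos
    have h1 : f.natDegree < m - 1 := (natDegree_lt_iff_degree_lt h0).2 hf
    refine coeff_eq_zero_of_natDegree_lt (lt_of_le_of_lt natDegree_mul_le ?_)
    have h2 : m * (p - 1) + m = p * m := by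
      have h3 : p - 1 + 1 = p := by omega
      calc m * (p - 1) + m = m * (p - 1 + 1) := by ring
        _ = p * m := by rw [h3, mul_comm]
    have h4 : p * m ≤ p * (k + 1) := Nat.mul_le_mul_left p hk
    omega

/-- PROOF. If the determinant is zero there is a vector `v ≠ 0` with `mulVec v = 0` (`Matrix.exists_mulVec_eq_zero_iff`). Put `f = ∑_b C (v b) X ^ b`; by `coeff_eq_mulVec`,
`coeff_eq_zero` and `exists_deriv_iff` (`p k + (p - 1) = p (k + 1) - 1`) `f * G` is a derivative, so `f = 0`, `v = 0`. -/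
theorem det_ne_zero_of_inj {m : ℕ} (hm : m ≤ p) (G : K[X]) (hG : G.natDegree ≤ m * (p - 1))
    (h : Inj m G) : (hw p m G).det ≠ 0 := by
  intro hdet
  obtain ⟨v, hv, hv0⟩ := Matrix.exists_mulVec_eq_zero_iff.2 hdet
  obtain ⟨f, hf, hfv⟩ := P6_poly v
  apply hv
  have hfv' : (fun β : Fin (m - 1) => f.coeff β.1) = v := funext hfv
  have hz : f = 0 := by
    refine h f hf ((exists_deriv_iff (p := p) (f * G)).2 fun k => ?_)
    have hp : 0 < p := (Fact.out : p.Prime).pos
    have hk : p * k + (p - 1) = p * (k + 1) - 1 := by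
      rw [mul_add, mul_one]
      omega
    rw [hk]
    by_cases hkm : k < m - 1
    · have h1 := coeff_eq_mulVec hm G f hf ⟨k, hkm⟩
      rw [hfv', hv0] at h1
      exact h1
    · exact coeff_eq_zero (p := p) G hG f hf k (by omega)
  funext β
  rw [← hfv β, hz, coeff_zero]
  rfl

/-- PROOF. If `f * G` is a derivative, its coefficients of degree `p (k + 1) - 1` are zero (`exists_deriv_iff`), so `mulVec` of the coefficients of `f` is zero, so they
are zero (`Matrix.eq_zero_of_mulVec_eq_zero`). -/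
theorem inj_of_det {m : ℕ} (hm : m ≤ p) (G : K[X]) (h : (hw p m G).det ≠ 0) : Inj m G := by
  intro f hf hH
  have h1 : (hw p m G).mulVec (fun β : Fin (m - 1) => f.coeff β.1) = 0 := by
    funext α
    rw [← coeff_eq_mulVec hm G f hf α]
    have h2 := (exists_deriv_iff (p := p) (f * G)).1 hH α.1
    have hp : 0 < p := (Fact.out : p.Prime).pos
    have hk : p * α.1 + (p - 1) = p * (α.1 + 1) - 1 := by
      rw [mul_add, mul_one]
      omega
    rw [hk] at h2
    exact h2
  have h3 := Matrix.eq_zero_of_mulVec_eq_zero h h1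
  ext n
  rw [coeff_zero]
  by_cases hn : n < m - 1
  · exact congrFun h3 ⟨n, hn⟩
  · refine coeff_eq_zero_of_degree_lt (lt_of_lt_of_le hf ?_)
    exact_mod_cast not_lt.1 hn

/-- PROOF. Solve `mulVec v = Pi.single α 1` (`Matrix.nonsing_inv`), `f = ∑_b C (v b) X ^ b`; `coeff_eq_mulVec` for `k < m - 1`, `coeff_eq_zero` for the others. -/
theorem exists_pick {m : ℕ} (hm : m ≤ p) (G : K[X]) (hG : G.natDegree ≤ m * (p - 1))
    (h : (hw p m G).det ≠ 0) (α : ℕ) (hα : α < m - 1) :
    ∃ f : K[X], f.degree < ((m - 1 : ℕ) : WithBot ℕ) ∧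
      ∀ k, (f * G).coeff (p * (k + 1) - 1) = if k = α then 1 else 0 := by
  have hu : IsUnit (hw p m G).det := isUnit_iff_ne_zero.2 h
  obtain ⟨f, hf, hfv⟩ := P6_poly ((hw p m G)⁻¹.mulVec (Pi.single (⟨α, hα⟩ : Fin (m - 1)) (1 : K)))
  refine ⟨f, hf, fun k => ?_⟩
  by_cases hkm : k < m - 1
  · rw [coeff_eq_mulVec hm G f hf ⟨k, hkm⟩]
    have h1 : (fun β : Fin (m - 1) => f.coeff β.1) =
        (hw p m G)⁻¹.mulVec (Pi.single (⟨α, hα⟩ : Fin (m - 1)) (1 : K)) := funext hfv
    rw [h1, Matrix.mulVec_mulVec, Matrix.mul_nonsing_inv _ hu, Matrix.one_mulVec]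
    by_cases hk : k = α
    · subst hk
      rw [if_pos rfl, Pi.single_eq_same]
    · rw [if_neg hk]
      exact Pi.single_eq_of_ne (fun e => hk (congrArg Fin.val e)) 1
  · rw [coeff_eq_zero (p := p) G hG f hf k (by omega), if_neg (by omega)]

end MPadcCC
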