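import Pool.Agent.Lib.MP_adc574_ag_CC.PDefs

/-!
# Leaf P1: the derivation `dc δ` of the polynomials, and base change of `gg`, `hw`
-/

set_option autoImplicit false

namespace MPadcCC

open Polynomial

variable {K : Type*} [CommRing K] (δ : Derivation ℤ K K)

/-- PROOF. `Polynomial.finset_sum_coeff`, `coeff_monomial`; if `i` is not in the support both sides are zero. -/
theorem coeff_dc (P : K[X]) (i : ℕ) : (dc δ P).coeff i = δ (P.coeff i) := by
  unfold dc
  rw [Polynomial.finsetSum_coeff]
  simp only [coeff_monomial]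
  rw [Finset.sum_ite_eq' P.support i (fun j => δ (P.coeff j))]
  split_ifs with h
  · rfl
  · rw [Polynomial.notMem_support_iff] at h
    rw [h, map_zero]

/-- PROOF. Compare coefficients (`coeff_dc`, `map_add`). -/
theorem dc_add (P Q : K[X]) : dc δ (P + Q) = dc δ P + dc δ Q := by
  ext i
  rw [coeff_dc, coeff_add, coeff_add, coeff_dc, coeff_dc, map_add]

/-- PROOF. Compare coefficients (`coeff_dc`). -/
theorem dc_C (c : K) : dc δ (C c) = C (δ c) := by
  ext i
  rw [coeff_dc, coeff_C, coeff_C]
  split_ifs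
  · rfl
  · exact map_zero δ

/-- PROOF. Compare coefficients (`δ 1 = 0`: `Derivation.map_one_eq_zero`). -/
theorem dc_X : dc δ (X : K[X]) = 0 := by
  ext i
  rw [coeff_dc, coeff_X, coeff_zero]
  split_ifs
  · exact Derivation.map_one_eq_zero δ
  · exact map_zero δ

/-- PROOF. Compare coefficients: `coeff_mul`, `map_sum`, `Derivation.leibniz` (`smul_eq_mul`). -/
theorem dc_mul (P Q : K[X]) : dc δ (P * Q) = dc δ P * Q + P * dc δ Q := by
  ext i
  rw [coeff_dc, coeff_add, coeff_mul, coeff_mul, coeff_mul, map_sum, ← Finset.sum_add_distrib]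
  refine Finset.sum_congr rfl fun x _ => ?_
  rw [coeff_dc, coeff_dc, Derivation.leibniz, smul_eq_mul, smul_eq_mul]
  ring

/-- PROOF. Compare coefficients: `coeff_derivative`; `δ (c * (n + 1)) = δ c * (n + 1)` (`Derivation.leibniz`, `δ` of a natural number is zero:
`Derivation.map_natCast`). -/
theorem dc_derivative (P : K[X]) : dc δ (derivative P) = derivative (dc δ P) := by
  ext i
  rw [coeff_dc, coeff_derivative, coeff_derivative, coeff_dc, Derivation.leibniz, smul_eq_mul, smul_eq_mul]
  have h : δ ((i : K) + 1) = 0 := by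
    have h1 := Derivation.map_natCast δ (i + 1)
    rwa [Nat.cast_add, Nat.cast_one] at h1
  rw [h, mul_zero, zero_add, mul_comm]

/-- PROOF. `degree_le_iff_coeff_zero`, `coeff_dc`, `map_zero`. -/
theorem degree_dc_le (P : K[X]) : (dc δ P).degree ≤ P.degree := by
  rw [degree_le_iff_coeff_zero]
  intro m hm
  rw [coeff_dc, coeff_eq_zero_of_degree_lt hm, map_zero]

/-- PROOF. As `degree_dc_le` (`natDegree_le_natDegree`). -/
theorem natDegree_dc_le (P : K[X]) : (dc δ P).natDegree ≤ P.natDegree :=
  natDegree_le_natDegree (degree_dc_le δ P)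

/-- PROOF. Induction on `n` with `dc_mul`, `dc_X`, `dc_C` (`dc` of a difference: `dc_add` with `C (-a)`); or `n = 0` separately. -/
theorem dc_pow (a : K) (n : ℕ) :
    dc δ ((X - C a) ^ n) = -(C ((n : K) * δ a) * (X - C a) ^ (n - 1)) := by
  have h1 : dc δ (X - C a) = -C (δ a) := by
    rw [sub_eq_add_neg, ← C_neg, dc_add, dc_X, dc_C, map_neg, zero_add, C_neg]
  induction n with
  | zero =>
    rw [pow_zero, Nat.cast_zero, zero_mul, C_0, zero_mul, neg_zero, ← C_1, dc_C,
      Derivation.map_one_eq_zero, C_0]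
  | succ n ih =>
    rw [pow_succ, dc_mul, ih, h1, Nat.add_sub_cancel]
    rcases Nat.eq_zero_or_pos n with h | h
    · subst h
      simp
    · obtain ⟨m, rfl⟩ : ∃ m, n = m + 1 := ⟨n - 1, by omega⟩
      rw [Nat.add_sub_cancel]
      simp only [Nat.cast_add, Nat.cast_one, C_mul, C_add, C_1]
      ring

/-- PROOF. `Polynomial.map_prod`, `Polynomial.map_pow`. -/
theorem gg_map {ι B : Type*} [Fintype ι] [CommRing B] (φ : K →+* B) (a : ι → K) (μ : ι → ℕ) :
    (gg a μ).map φ = gg (fun i => φ (a i)) μ := by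
  unfold gg
  rw [Polynomial.map_prod]
  refine Finset.prod_congr rfl fun i _ => ?_
  rw [Polynomial.map_pow, Polynomial.map_sub, map_X, map_C]

/-- PROOF. `RingHom.map_det`, `coeff_map`. -/
theorem det_hw_map {B : Type*} [CommRing B] (φ : K →+* B) (p m : ℕ) (G : K[X]) :
    (hw p m (G.map φ)).det = φ (hw p m G).det := by
  rw [RingHom.map_det]
  refine congrArg Matrix.det ?_
  ext α β
  simp only [hw, RingHom.mapMatrix_apply, Matrix.map_apply, coeff_map]

/-- PROOF. `Finset.prod_subtype`, the factors with exponent zero are one. -/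
theorem gg_subtype {ι : Type*} [Fintype ι] (a : ι → K) (μ : ι → ℕ) :
    gg (fun i : {i // 0 < μ i} => a i.1) (fun i => μ i.1) = gg a μ := by
  unfold gg
  refine (Finset.prod_subtype (p := fun i => 0 < μ i) (Finset.univ.filter fun i => 0 < μ i)
    (fun x => by simp) (fun i => (X - C (a i)) ^ μ i)).symm.trans ?_
  refine Finset.prod_subset (Finset.filter_subset _ _) fun i _ hi => ?_
  have : μ i = 0 := by
    by_contra h0
    exact hi (Finset.mem_filter.2 ⟨Finset.mem_univ _, Nat.pos_of_ne_zero h0⟩)
  rw [this, pow_zero]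

end MPadcCC
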