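import Pool.Agent.Lib.MP_adc574_ag_CC.FDefs
import Pool.Agent.Lib.MP_adc574_ag_CC.P1

/-!
# Leaf F0: combinatorics of the exponents
-/

set_option autoImplicit false

namespace MPadcCC

open Polynomial

universe u

variable {A : Type u}

/-- PROOF. `e ∣ ∑ j r_i = j ∑ r_i` and `j r_i ≡ j r_i mod e`. -/
theorem sum_mod (c : Cover A) (hc : c.Ok) (j : ℕ) : ∑ i, j * c.r i % c.e = c.e * mm c j := by
  have he : 0 < c.e := lt_of_lt_of_le (by norm_num) hc.two
  have h : c.e ∣ ∑ i, j * c.r i % c.e := by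
    apply Nat.dvd_of_mod_eq_zero
    rw [← Finset.sum_nat_mod, ← Finset.mul_sum]
    exact Nat.mod_eq_zero_of_dvd (hc.dvd.mul_left j)
  exact (Nat.mul_div_cancel' h).symm

/-- PROOF. `natDegree_prod_of_monic`, `natDegree_X_sub_C`, `natDegree_pow`. -/
theorem natDegree_gg {K ι : Type*} [CommRing K] [Nontrivial K] [Fintype ι] (a : ι → K)
    (μ : ι → ℕ) : (gg a μ).natDegree = ∑ i, μ i := by
  rw [gg, natDegree_prod_of_monic _ _ fun i _ => (monic_X_sub_C (a i)).pow (μ i)]
  refine Finset.sum_congr rfl fun i _ => ?_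
  rw [(monic_X_sub_C (a i)).natDegree_pow, natDegree_X_sub_C, mul_one]

/-- PROOF. `monic_prod_of_monic`. -/
theorem monic_gg {K ι : Type*} [CommRing K] [Fintype ι] (a : ι → K) (μ : ι → ℕ) :
    (gg a μ).Monic :=
  monic_prod_of_monic _ _ fun i _ => (monic_X_sub_C (a i)).pow (μ i)

/-- PROOF. `gg a μ * gg a ν = gg a (μ + ν)`. -/
theorem gg_mul {K ι : Type*} [CommRing K] [Fintype ι] (a : ι → K) (μ ν : ι → ℕ) :
    gg a μ * gg a ν = gg a fun i => μ i + ν i := by
  rw [gg, gg, gg, ← Finset.prod_mul_distrib]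
  exact Finset.prod_congr rfl fun i _ => (pow_add _ _ _).symm

/-- PROOF. `Finset.prod_pow`. -/
theorem gg_pow {K ι : Type*} [CommRing K] [Fintype ι] (a : ι → K) (μ : ι → ℕ) (n : ℕ) :
    gg a μ ^ n = gg a fun i => n * μ i := by
  rw [gg, gg, ← Finset.prod_pow]
  refine Finset.prod_congr rfl fun i _ => ?_
  rw [← pow_mul, mul_comm]

theorem natDegree_Fx [CommRing A] [Nontrivial A] (c : Cover A) (hc : c.Ok) (j : ℕ) :
    (Fx c j).natDegree = c.e * mm c j := by
  rw [Fx, natDegree_gg, sum_mod c hc j]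

/-- PROOF. For `j ≤ e` and `r = r_i`: `(e - j) r mod e` is `e - (j r mod e)` if `j r mod e ≠ 0`, and `0` otherwise. -/
theorem mod_compl (e r j : ℕ) (he : 0 < e) (hj : j ≤ e) :
    (e - j) * r % e + j * r % e = if j * r % e = 0 then 0 else e := by
  have h1 : (e - j) * r + j * r = e * r := by
    rw [← Nat.add_mul, Nat.sub_add_cancel hj]
  have ha : (e - j) * r % e < e := Nat.mod_lt _ he
  have hb : j * r % e < e := Nat.mod_lt _ he
  have h2 : ((e - j) * r % e + j * r % e) % e = 0 := by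
    rw [← Nat.add_mod, h1, Nat.mul_mod_right]
  obtain ⟨k, hk⟩ := Nat.dvd_of_mod_eq_zero h2
  have hk2 : k < 2 := by
    by_contra hcon
    have h3 : e * 2 ≤ e * k := Nat.mul_le_mul_left e (by omega)
    omega
  by_cases h0 : j * r % e = 0
  · rw [if_pos h0]
    have hk0 : k = 0 := by
      by_contra hcon
      have hk1 : k = 1 := by omega
      rw [hk1] at hk
      omega
    rw [hk, hk0, mul_zero]
  · rw [if_neg h0]
    have hk1 : k = 1 := by
      by_contra hcon
      have hk0 : k = 0 := by omega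
      rw [hk0] at hk
      omega
    rw [hk, hk1, mul_one]

/-- PROOF. `mod_compl`. The condition is symmetric. -/
theorem Rx_compl [CommRing A] (c : Cover A) (hc : c.Ok) (j : ℕ) (hj : j ≤ c.e) :
    Rx c (c.e - j) = Rx c j := by
  have he : 0 < c.e := lt_of_lt_of_le (by norm_num) hc.two
  have h : (fun i => if (c.e - j) * c.r i % c.e = 0 then 0 else 1) =
      fun i => if j * c.r i % c.e = 0 then 0 else 1 := by
    funext i
    have h1 := mod_compl c.e (c.r i) j he hj
    have h2 := Nat.mod_lt (j * c.r i) he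
    have h3 := Nat.mod_lt ((c.e - j) * c.r i) he
    by_cases h0 : j * c.r i % c.e = 0
    · rw [if_pos h0] at h1
      rw [if_pos h0, if_pos (by omega)]
    · rw [if_neg h0] at h1
      rw [if_neg h0, if_neg (by omega)]
  rw [Rx, Rx, h]

/-- PROOF. Sum of `mod_compl` over `i` divided by `e`: `e (m_j + m_(e-j)) = e #{i : j r_i mod e ≠ 0}`. -/
theorem natDegree_Rx [CommRing A] [Nontrivial A] (c : Cover A) (hc : c.Ok) (j : ℕ)
    (hj : j ≤ c.e) : (Rx c j).natDegree = mm c j + mm c (c.e - j) := by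
  have he : 0 < c.e := lt_of_lt_of_le (by norm_num) hc.two
  rw [Rx, natDegree_gg]
  apply Nat.eq_of_mul_eq_mul_left he
  rw [Nat.mul_add, ← sum_mod c hc j, ← sum_mod c hc (c.e - j), Finset.mul_sum,
    ← Finset.sum_add_distrib]
  refine Finset.sum_congr rfl fun i _ => ?_
  have h1 := mod_compl c.e (c.r i) j he hj
  by_cases h0 : j * c.r i % c.e = 0
  · rw [if_pos h0] at h1
    rw [if_pos h0]
    omega
  · rw [if_neg h0] at h1
    rw [if_neg h0]
    omega

/-- PROOF. `gg_mul`, `gg_pow`, `mod_compl`. -/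
theorem Fx_mul_Fx [CommRing A] (c : Cover A) (hc : c.Ok) (j : ℕ) (hj : j ≤ c.e) :
    Fx c j * Fx c (c.e - j) = Rx c j ^ c.e := by
  have he : 0 < c.e := lt_of_lt_of_le (by norm_num) hc.two
  rw [Fx, Fx, Rx, gg_mul, gg_pow]
  have h : (fun i => j * c.r i % c.e + (c.e - j) * c.r i % c.e) =
      fun i => c.e * if j * c.r i % c.e = 0 then 0 else 1 := by
    funext i
    have h1 := mod_compl c.e (c.r i) j he hj
    by_cases h0 : j * c.r i % c.e = 0
    · rw [if_pos h0] at h1
      rw [if_pos h0]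
      omega
    · rw [if_neg h0] at h1
      rw [if_neg h0]
      omega
  rw [h]

/-- PROOF. `j r = e (j r / e) + (j r mod e)`. -/
theorem Qx_pow_mul_Fx [CommRing A] (c : Cover A) (j : ℕ) :
    Qx c j ^ c.e * Fx c j = c.poly ^ j := by
  have h : c.poly = gg c.a c.r := rfl
  rw [h, Qx, Fx, gg_pow, gg_pow, gg_mul]
  have h1 : (fun i => c.e * (j * c.r i / c.e) + j * c.r i % c.e) = fun i => j * c.r i := by
    funext i
    exact Nat.div_add_mod _ _
  rw [h1]

/-- PROOF. `r = j r / e + (e - j) r / e + (0 or 1)`. -/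
theorem Qx_mul_Qx [CommRing A] (c : Cover A) (hc : c.Ok) (j : ℕ) (hj : j ≤ c.e) :
    Qx c j * Qx c (c.e - j) * Rx c j = c.poly := by
  have he : 0 < c.e := lt_of_lt_of_le (by norm_num) hc.two
  have h : c.poly = gg c.a c.r := rfl
  rw [h, Qx, Qx, Rx, gg_mul, gg_mul]
  have h1 : (fun i => j * c.r i / c.e + (c.e - j) * c.r i / c.e +
      if j * c.r i % c.e = 0 then 0 else 1) = c.r := by
    funext i
    have h2 := mod_compl c.e (c.r i) j he hj
    have h3 := Nat.div_add_mod (j * c.r i) c.e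
    have h4 := Nat.div_add_mod ((c.e - j) * c.r i) c.e
    have h5 : (c.e - j) * c.r i + j * c.r i = c.e * c.r i := by
      rw [← Nat.add_mul, Nat.sub_add_cancel hj]
    apply Nat.eq_of_mul_eq_mul_left he
    rw [Nat.mul_add, Nat.mul_add]
    by_cases h0 : j * c.r i % c.e = 0
    · rw [if_pos h0] at h2
      rw [if_pos h0]
      omega
    · rw [if_neg h0] at h2
      rw [if_neg h0]
      omega
  rw [h1]

theorem Fx_zero [CommRing A] (c : Cover A) : Fx c 0 = 1 := by
  rw [Fx, gg]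
  exact Finset.prod_eq_one fun i _ => by rw [Nat.zero_mul, Nat.zero_mod, pow_zero]

theorem Fx_e [CommRing A] (c : Cover A) : Fx c c.e = 1 := by
  rw [Fx, gg]
  exact Finset.prod_eq_one fun i _ => by rw [Nat.mul_mod_right, pow_zero]

theorem Rx_zero [CommRing A] (c : Cover A) : Rx c 0 = 1 := by
  rw [Rx, gg]
  exact Finset.prod_eq_one fun i _ => by rw [Nat.zero_mul, Nat.zero_mod, if_pos rfl, pow_zero]

theorem Qx_zero [CommRing A] (c : Cover A) : Qx c 0 = 1 := by
  rw [Qx, gg]
  exact Finset.prod_eq_one fun i _ => by rw [Nat.zero_mul, Nat.zero_div, pow_zero]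

theorem mm_zero (c : Cover A) : mm c 0 = 0 := by
  rw [mm, Finset.sum_eq_zero fun i _ => by rw [Nat.zero_mul, Nat.zero_mod], Nat.zero_div]

theorem mm_e (c : Cover A) : mm c c.e = 0 := by
  rw [mm, Finset.sum_eq_zero fun i _ => by rw [Nat.mul_mod_right], Nat.zero_div]

end MPadcCC
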