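import Pool.Agent.Lib.MP_adc574_ag_CC.PDefs

/-!
# Leaf P2 (Mathlib only): derivatives in characteristic p
-/

set_option autoImplicit false

namespace MPadcCC

open Polynomial

variable {K : Type*} [Field K] {p : ℕ} [Fact p.Prime] [CharP K p]

private theorem P2_aux (N : K[X]) (h : ∀ k, N.coeff (p * k + (p - 1)) = 0) :
    ∃ H : K[X], derivative H = N ∧ H.natDegree ≤ N.natDegree + 1 := by
  have hp : 0 < p := (Fact.out : p.Prime).pos
  refine ⟨∑ n ∈ N.support, monomial (n + 1) (N.coeff n * ((n + 1 : ℕ) : K)⁻¹), ?_, ?_⟩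
  · rw [derivative_sum]
    conv_rhs => rw [N.as_sum_support]
    refine Finset.sum_congr rfl fun n hn => ?_
    rw [derivative_monomial, Nat.add_sub_cancel]
    have h0 : ((n + 1 : ℕ) : K) ≠ 0 := by
      intro h1
      rw [CharP.cast_eq_zero_iff K p] at h1
      obtain ⟨k, hk⟩ := h1
      have hk0 : k ≠ 0 := by
        rintro rfl
        rw [Nat.mul_zero] at hk
        omega
      obtain ⟨j, rfl⟩ := Nat.exists_eq_succ_of_ne_zero hk0
      have h2 : n = p * j + (p - 1) := by
        rw [Nat.mul_succ] at hk
        omega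
      have h3 := h j
      rw [← h2] at h3
      exact (mem_support_iff.1 hn) h3
    rw [mul_assoc, inv_mul_cancel₀ h0, mul_one]
  · refine natDegree_sum_le_of_forall_le _ _ fun n hn => ?_
    exact (natDegree_monomial_le _).trans (Nat.succ_le_succ (le_natDegree_of_mem_supp n hn))

private theorem P2_coeff (H : K[X]) (n : ℕ) (hn : p ∣ n + 1) : (derivative H).coeff n = 0 := by
  rw [coeff_derivative]
  have h1 : ((n : K) + 1) = 0 := by
    have h2 : ((n + 1 : ℕ) : K) = 0 := (CharP.cast_eq_zero_iff K p _).2 hn
    rwa [Nat.cast_add, Nat.cast_one] at h2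
  rw [h1, mul_zero]

private theorem P2_all (N : K[X]) (h : ∃ H : K[X], derivative H = N) (k : ℕ) : N.coeff (p * k + (p - 1)) = 0 := by
  obtain ⟨H, rfl⟩ := h
  have hp : 0 < p := (Fact.out : p.Prime).pos
  refine P2_coeff (p := p) H _ ⟨k + 1, ?_⟩
  rw [Nat.mul_succ]
  omega

/-- PROOF. `coeff_derivative`: `coeff (derivative H) n = coeff H (n + 1) * (n + 1)`. For `n = p k + p - 1` the factor `n + 1 = p (k + 1)` is zero.
Conversely `H = ∑ n ∈ N.support, monomial (n + 1) (N.coeff n * ((n + 1 : ℕ) : K)⁻¹)`; if `(n + 1 : K) = 0` then `p ∣ n + 1` (`CharP.cast_eq_zero_iff`), so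
`n = p k + (p - 1)` and the coefficient is zero. -/
theorem exists_deriv_iff (N : K[X]) :
    (∃ H : K[X], derivative H = N) ↔ ∀ k, N.coeff (p * k + (p - 1)) = 0 := by
  refine ⟨fun h k => P2_all (p := p) N h k, fun h => ?_⟩
  obtain ⟨H, hH, _⟩ := P2_aux N h
  exact ⟨H, hH⟩

/-- PROOF. The polynomial `H` of the previous proof has degree at most `N.natDegree + 1` (take the restriction of any antiderivative to the degrees
`≤ N.natDegree + 1`, or the explicit sum). -/
theorem exists_deriv_natDegree (N : K[X]) (h : ∃ H : K[X], derivative H = N) :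
    ∃ H : K[X], derivative H = N ∧ H.natDegree ≤ N.natDegree + 1 := by
  obtain ⟨H, hH⟩ := h
  have hc : ∀ m, (∑ n ∈ Finset.range (N.natDegree + 2), monomial n (H.coeff n)).coeff m =
      if m ∈ Finset.range (N.natDegree + 2) then H.coeff m else 0 := by
    intro m
    rw [finsetSum_coeff]
    simp only [coeff_monomial]
    rw [Finset.sum_ite_eq' (Finset.range (N.natDegree + 2)) m fun n => H.coeff n]
  refine ⟨∑ n ∈ Finset.range (N.natDegree + 2), monomial n (H.coeff n), ?_, ?_⟩
  · ext m
    rw [coeff_derivative, hc]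
    by_cases hm : m ≤ N.natDegree
    · rw [if_pos (Finset.mem_range.2 (by omega)), ← hH, coeff_derivative]
    · rw [if_neg (fun h => hm (by have := Finset.mem_range.1 h; omega)), zero_mul,
        coeff_eq_zero_of_natDegree_lt (by omega)]
  · refine natDegree_sum_le_of_forall_le _ _ fun n hn => ?_
    exact (natDegree_monomial_le _).trans (by have := Finset.mem_range.1 hn; omega)

/-- PROOF. `coeff_derivative` and the coefficient of `expand` (`coeff_expand`), or `derivative_expand`: `derivative (expand K p f) =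
expand K p (derivative f) * (p * X ^ (p - 1))` and `(p : K) = 0`. -/
theorem derivative_expand_eq_zero (γ : K[X]) : derivative (expand K p γ) = 0 := by
  rw [derivative_expand, CharP.cast_eq_zero K[X] p, zero_mul, mul_zero]

/-- A polynomial of degree at most `p T` has a derivative of degree at most `p T - 2`.
PROOF. `coeff_derivative`: the coefficient of degree `n` is `coeff H (n + 1) * (n + 1)`, zero if `n + 1 > p T`, and if `n + 1 = p T`. -/
theorem degree_derivative_lt (H : K[X]) (T : ℕ) (h : H.natDegree ≤ p * T) :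
    (derivative H).degree < ((p * T - 1 : ℕ) : WithBot ℕ) := by
  rw [degree_lt_iff_coeff_zero]
  intro m hm
  by_cases h1 : m + 1 = p * T
  · exact P2_coeff (p := p) H m ⟨T, h1⟩
  · rw [coeff_derivative, coeff_eq_zero_of_natDegree_lt (by omega), zero_mul]

end MPadcCC
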