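import Pool.Agent.Lib.MP_adc574_ag_CC.P1
import Pool.Agent.Lib.MP_adc574_ag_CC.P2

/-!
# Leaf P8: if all the forms vanish at the moving point they are zero
-/

set_option autoImplicit false

namespace MPadcCC

open Polynomial

variable {K : Type*} [Field K] {p : ℕ} [Fact p.Prime] [CharP K p]

/-- `dc` of a product over the indices different from `o` is zero. -/
private theorem P8_dc_prod {ι : Type*} [Fintype ι] [DecidableEq ι] (δ : Derivation ℤ K K) (o : ι)
    (a : ι → K) (h1 : ∀ i, i ≠ o → δ (a i) = 0) (μ : ι → ℕ) :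
    dc δ (∏ i ∈ Finset.univ.erase o, (X - C (a i)) ^ μ i) = 0 := by
  refine Finset.prod_induction (fun i => (X - C (a i)) ^ μ i) (fun P => dc δ P = 0) ?_ ?_ ?_
  · intro P Q hP hQ
    rw [dc_mul, hP, hQ, zero_mul, mul_zero, add_zero]
  · have h : dc δ (C (1 : K)) = C (δ 1) := dc_C δ 1
    rw [Derivation.map_one_eq_zero, C_0, C_1] at h
    exact h
  · intro i hi
    rw [dc_pow, h1 i (Finset.ne_of_mem_erase hi), mul_zero, C_0, zero_mul, neg_zero]

/-- The logarithmic derivative of `gg a μ` with respect to the moving point. -/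
private theorem P8_dc_gg {ι : Type*} [Fintype ι] [DecidableEq ι] (δ : Derivation ℤ K K) (o : ι)
    (a : ι → K) (h0 : δ (a o) = 1) (h1 : ∀ i, i ≠ o → δ (a i) = 0) (μ : ι → ℕ) (hμ : 0 < μ o) :
    (X - C (a o)) * dc δ (gg a μ) = -(C ((μ o : ℕ) : K) * gg a μ) := by
  have hg : gg a μ = (X - C (a o)) ^ μ o * ∏ i ∈ Finset.univ.erase o, (X - C (a i)) ^ μ i := by
    unfold gg
    exact (Finset.mul_prod_erase Finset.univ (fun i => (X - C (a i)) ^ μ i)
      (Finset.mem_univ o)).symm
  have hp : (X - C (a o)) ^ μ o = (X - C (a o)) * (X - C (a o)) ^ (μ o - 1) := by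
    rw [← pow_succ', Nat.sub_add_cancel hμ]
  rw [hg, dc_mul, P8_dc_prod δ o a h1 μ, mul_zero, add_zero, dc_pow, h0, mul_one, hp]
  ring

/-- The operator `D f = ∂ f / ∂ t - μ f / (x - t)` preserves the exact forms. PROOF. `f = (X - C (a o)) * f₁`. Apply `dc δ` to `derivative H = f * gg a μ`: `derivative (dc δ H) = dc δ f * gg a μ + f * dc δ (gg a μ)`
(`dc_derivative`, `dc_mul`), and `(X - C (a o)) * dc δ (gg a μ) = - C (μ o) * gg a μ` (`dc_pow`, the other factors have `dc = 0`). -/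
theorem exact_D {ι : Type*} [Fintype ι] [DecidableEq ι] (δ : Derivation ℤ K K) (o : ι)
    (a : ι → K) (h0 : δ (a o) = 1) (h1 : ∀ i, i ≠ o → δ (a i) = 0) (μ : ι → ℕ) (hμ : 0 < μ o)
    (f₁ H : K[X]) (hH : derivative H = (X - C (a o)) * f₁ * gg a μ) :
    derivative (dc δ H) = (dc δ ((X - C (a o)) * f₁) - C ((μ o : ℕ) : K) * f₁) * gg a μ := by
  have hg := P8_dc_gg δ o a h0 h1 μ hμ
  rw [← dc_derivative, hH, dc_mul δ ((X - C (a o)) * f₁)]
  have h2 : (X - C (a o)) * f₁ * dc δ (gg a μ) = f₁ * ((X - C (a o)) * dc δ (gg a μ)) := by ring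
  rw [h2, hg]
  ring

/-- PROOF. Show by induction on `s ≥ 1`: every `f` of degree `< m - 1` such that `f * gg a μ` is a derivative is divisible by `(X - C (a o)) ^ s`; for `s = m - 1` this gives `f = 0`
(if `m - 1 = 0` the degree condition gives `f = 0`). `s = 1`: `hv` (`dvd_iff_isRoot`). Step `s → s + 1` for `s + 1 ≤ m - 1`: `f = (X - C (a o)) ^ s * h = (X - C (a o)) * f₁`,
`f₁ = (X - C (a o)) ^ (s - 1) * h`. By `exact_D` `D f = dc δ f - μ o f₁` is exact, its degree is `< m - 1` (`degree_dc_le`), so it is divisible by `(X - C (a o)) ^ s`. But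
`D f = (X - C (a o)) ^ s * dc δ h - (s + μ o) (X - C (a o)) ^ (s - 1) * h` (`dc_pow`), so `(X - C (a o)) ^ s` divides `(s + μ o) (X - C (a o)) ^ (s - 1) * h`, and `(s + μ o : K) ≠ 0` because
`0 < s + μ o ≤ m - 2 + μ o < p`; so `X - C (a o)` divides `h`. -/
theorem inj_of_vanish {ι : Type*} [Fintype ι] [DecidableEq ι] (δ : Derivation ℤ K K) (o : ι)
    (a : ι → K) (h0 : δ (a o) = 1) (h1 : ∀ i, i ≠ o → δ (a i) = 0) (μ : ι → ℕ) (hμ : 0 < μ o)
    (m : ℕ) (hb : μ o + m ≤ p)
    (hv : ∀ f H : K[X], f.degree < ((m - 1 : ℕ) : WithBot ℕ) → derivative H = f * gg a μ →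
      f.eval (a o) = 0) : Inj m (gg a μ) := by
  have key : ∀ s : ℕ, s + 1 ≤ m - 1 → ∀ f H : K[X], f.degree < ((m - 1 : ℕ) : WithBot ℕ) →
      derivative H = f * gg a μ → (X - C (a o)) ^ (s + 1) ∣ f := by
    intro s
    induction s with
    | zero =>
      intro _ f H hf hH
      rw [zero_add, pow_one]
      exact dvd_iff_isRoot.mpr (hv f H hf hH)
    | succ s ih =>
      intro hs f H hf hH
      obtain ⟨h, hfh⟩ := ih (by omega) f H hf hH
      have hf1 : f = (X - C (a o)) * ((X - C (a o)) ^ s * h) := by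
        rw [hfh, pow_succ']
        ring
      have hD := exact_D δ o a h0 h1 μ hμ ((X - C (a o)) ^ s * h) H (by rw [← hf1]; exact hH)
      rw [← hf1] at hD
      have hdeg1 : ((X - C (a o)) ^ s * h).degree ≤ f.degree := by
        rw [hf1, degree_mul (p := X - C (a o)), degree_X_sub_C]
        exact le_add_of_nonneg_left zero_le_one
      have hdeg : (dc δ f - C ((μ o : ℕ) : K) * ((X - C (a o)) ^ s * h)).degree
          < ((m - 1 : ℕ) : WithBot ℕ) := by
        refine lt_of_le_of_lt (degree_sub_le _ _) (max_lt ?_ ?_)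
        · exact lt_of_le_of_lt (degree_dc_le δ f) hf
        · refine lt_of_le_of_lt ?_ (lt_of_le_of_lt hdeg1 hf)
          rw [← smul_eq_C_mul]
          exact degree_smul_le _ _
      have hdvd := ih (by omega) _ _ hdeg hD
      have hcomp : dc δ f - C ((μ o : ℕ) : K) * ((X - C (a o)) ^ s * h)
          = (X - C (a o)) ^ (s + 1) * dc δ h
            - (X - C (a o)) ^ s * (C (((s + 1 + μ o : ℕ)) : K) * h) := by
        rw [hfh, dc_mul, dc_pow, h0, mul_one, Nat.add_sub_cancel]
        push_cast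
        simp only [C_add, C_1]
        ring
      rw [hcomp] at hdvd
      have hdvd2 : (X - C (a o)) ^ (s + 1) ∣
          (X - C (a o)) ^ s * (C (((s + 1 + μ o : ℕ)) : K) * h) :=
        (dvd_sub_right (dvd_mul_right _ _)).mp hdvd
      rw [pow_succ] at hdvd2
      have hX : (X - C (a o)) ^ s ≠ 0 := pow_ne_zero _ (X_sub_C_ne_zero (a o))
      have hdvd3 : (X - C (a o)) ∣ C (((s + 1 + μ o : ℕ)) : K) * h :=
        (mul_dvd_mul_iff_left hX).mp hdvd2
      have hne : ((s + 1 + μ o : ℕ) : K) ≠ 0 := by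
        intro h00
        have hd : p ∣ s + 1 + μ o := (CharP.cast_eq_zero_iff K p _).mp h00
        have := Nat.le_of_dvd (by omega) hd
        omega
      have hu : IsUnit (C ((s + 1 + μ o : ℕ) : K)) := isUnit_C.mpr (isUnit_iff_ne_zero.mpr hne)
      have hdvd4 : (X - C (a o)) ∣ h := (hu.dvd_mul_left).mp hdvd3
      rw [hfh, pow_succ (X - C (a o)) (s + 1)]
      exact mul_dvd_mul_left _ hdvd4
  intro f hf hex
  obtain ⟨H, hH⟩ := hex
  rcases Nat.eq_zero_or_pos (m - 1) with hm | hm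
  · rw [hm] at hf
    by_contra hne
    have h2 : (0 : WithBot ℕ) ≤ f.degree := zero_le_degree_iff.mpr hne
    exact absurd hf (not_lt.mpr h2)
  · have hk := key (m - 1 - 1) (by omega) f H hf hH
    rw [Nat.sub_add_cancel hm] at hk
    refine eq_zero_of_dvd_of_degree_lt hk ?_
    rw [degree_pow, degree_X_sub_C, nsmul_one]
    exact hf

end MPadcCC
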