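import Pool.Agent.Lib.MP_adc574_ag_CC.P2

/-!
# Leaf P4: the order of vanishing, and interpolation by a polynomial in `X ^ p`
-/

set_option autoImplicit false

namespace MPadcCC

open Polynomial

variable {K : Type*} [Field K] {p : ℕ} [Fact p.Prime] [CharP K p]

/-- PROOF. If `H = C (H.eval a)` clear. Otherwise `H - C (H.eval a) = (X - C a) ^ k * U` with `U.eval a ≠ 0` and `1 ≤ k` (`exists_eq_pow_rootMultiplicity_mul_and_not_dvd`,
`k = rootMultiplicity`). If `k ≤ s`: `derivative H = (X - C a) ^ (k - 1) * (k * U + (X - C a) * derivative U)` is divisible by `(X - C a) ^ s`, `s ≥ k`, so (cancel)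
`X - C a` divides `k * U + (X - C a) * derivative U`, so `(k : K) * U.eval a = 0`, so `p ∣ k`, but `1 ≤ k ≤ s < p`. So `k ≥ s + 1`. -/
theorem vanish_order (H : K[X]) (a : K) (s : ℕ) (hs : s + 1 ≤ p)
    (h : (X - C a) ^ s ∣ derivative H) : (X - C a) ^ (s + 1) ∣ H - C (H.eval a) := by
  by_cases hG : H - C (H.eval a) = 0
  · rw [hG]
    exact dvd_zero _
  have h1 : derivative (H - C (H.eval a)) = derivative H := by
    rw [derivative_sub, derivative_C, sub_zero]
  have hroot : (H - C (H.eval a)).IsRoot a := by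
    show (H - C (H.eval a)).eval a = 0
    rw [eval_sub, eval_C, sub_self]
  rw [← h1] at h
  generalize H - C (H.eval a) = G at hG h hroot ⊢
  obtain ⟨U, hU, hnd⟩ := exists_eq_pow_rootMultiplicity_mul_and_not_dvd G hG a
  have hk : 0 < rootMultiplicity a G := (rootMultiplicity_pos hG).2 hroot
  generalize rootMultiplicity a G = k at hU hk
  by_cases hks : s + 1 ≤ k
  · exact (pow_dvd_pow _ hks).trans ⟨U, hU⟩
  exfalso
  obtain ⟨j, rfl⟩ : ∃ j, k = j + 1 := ⟨k - 1, by omega⟩
  have h2 : derivative G = (X - C a) ^ j * (C ((j + 1 : ℕ) : K) * U + (X - C a) * derivative U) := by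
    rw [hU, derivative_mul, derivative_X_sub_C_pow, Nat.add_sub_cancel]
    ring
  have h3 : (X - C a) ^ (j + 1) ∣ (X - C a) ^ j * (C ((j + 1 : ℕ) : K) * U + (X - C a) * derivative U) := by
    rw [← h2]
    exact (pow_dvd_pow _ (by omega)).trans h
  rw [pow_succ] at h3
  have h4 := (mul_dvd_mul_iff_left (pow_ne_zero j (X_sub_C_ne_zero a))).1 h3
  have h5 : (C ((j + 1 : ℕ) : K) * U + (X - C a) * derivative U).eval a = 0 := dvd_iff_isRoot.1 h4
  rw [eval_add, eval_mul, eval_C, eval_mul, eval_sub, eval_X, eval_C, sub_self, zero_mul, add_zero] at h5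
  have h6 : U.eval a ≠ 0 := fun h7 => hnd (dvd_iff_isRoot.2 h7)
  have h8 : p ∣ j + 1 := (CharP.cast_eq_zero_iff K p (j + 1)).1 ((mul_eq_zero.1 h5).resolve_right h6)
  have h9 := Nat.le_of_dvd (by omega) h8
  omega

/-- PROOF. `γ` = the Lagrange interpolation polynomial (`Lagrange.interpolate Finset.univ (fun i => a i ^ p) (fun i => H.eval (a i))`; the nodes are different:
`frobenius_inj`; `Lagrange.degree_interpolate_lt`, `Lagrange.eval_interpolate_at_node`). For each `i`: `X - C (a i ^ p)` divides `γ - C (γ.eval (a i ^ p))`, apply the ring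
homomorphism `expand K p`: `X ^ p - C (a i ^ p) = (X - C (a i)) ^ p` (`sub_pow_char`) divides `expand K p γ - C (H.eval (a i))`; with `vanish_order` `(X - C (a i)) ^ (s i + 1)` divides
`H - expand K p γ`. The factors for different `i` are coprime (`Finset.prod_dvd_of_coprime`, `pairwise_coprime_X_sub_C`, `IsCoprime.pow`). -/
theorem exists_interp {ι : Type*} [Fintype ι] [DecidableEq ι] (a : ι → K)
    (ha : Function.Injective a) (s : ι → ℕ) (hs : ∀ i, s i + 1 ≤ p) (H : K[X])
    (h : ∀ i, (X - C (a i)) ^ s i ∣ derivative H) :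
    ∃ γ : K[X], γ.degree < ((Fintype.card ι : ℕ) : WithBot ℕ) ∧
      (∏ i, (X - C (a i)) ^ (s i + 1)) ∣ H - expand K p γ := by
  have hinj : Function.Injective fun i => a i ^ p := by
    intro i j hij
    exact ha (frobenius_inj K p hij)
  have hinj' : Set.InjOn (fun i => a i ^ p) ((Finset.univ : Finset ι) : Set ι) := hinj.injOn
  obtain ⟨γ, hγ1, hγ2⟩ : ∃ γ : K[X], γ.degree < ((Fintype.card ι : ℕ) : WithBot ℕ) ∧
      ∀ i, γ.eval (a i ^ p) = H.eval (a i) := by
    have h1 := Lagrange.degree_interpolate_lt (fun i => H.eval (a i)) hinj'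
    rw [Finset.card_univ] at h1
    exact ⟨_, h1, fun i => Lagrange.eval_interpolate_at_node (fun i => H.eval (a i)) hinj' (Finset.mem_univ i)⟩
  have hco : ((Finset.univ : Finset ι) : Set ι).Pairwise
      (Function.onFun IsCoprime fun i => (X - C (a i)) ^ (s i + 1)) := by
    intro i _ j _ hij
    exact IsCoprime.pow (pairwise_coprime_X_sub_C ha hij)
  have hdv : ∀ i ∈ (Finset.univ : Finset ι), (X - C (a i)) ^ (s i + 1) ∣ H - expand K p γ := by
    intro i _
    have h1 := vanish_order H (a i) (s i) (hs i) (h i)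
    have h3 : X - C (a i ^ p) ∣ γ - C (γ.eval (a i ^ p)) := X_sub_C_dvd_sub_C_eval
    have h4 : expand K p (X - C (a i ^ p)) ∣ expand K p (γ - C (γ.eval (a i ^ p))) := by
      obtain ⟨w, hw⟩ := h3
      exact ⟨expand K p w, by rw [hw, map_mul]⟩
    rw [map_sub, expand_X, expand_C, map_sub, expand_C, hγ2 i, C_pow, ← sub_pow_char] at h4
    have h5 := (pow_dvd_pow (X - C (a i)) (hs i)).trans h4
    have h6 := dvd_sub h1 h5
    rwa [sub_sub_sub_cancel_right] at h6
  exact ⟨γ, hγ1, Finset.prod_dvd_of_coprime hco hdv⟩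

end MPadcCC
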