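import Pool.Agent.Lib.MP_adc574_ag_CC.P3
import Pool.Agent.Lib.MP_adc574_ag_CC.P4
import Pool.Agent.Lib.MP_adc574_ag_CC.P6

/-!
# Leaf P9: duality
-/

set_option autoImplicit false

namespace MPadcCC

open Polynomial

variable {K : Type*} [Field K] {p : ℕ} [Fact p.Prime] [CharP K p]

private theorem P9_prod_monic {ι K : Type*} [Fintype ι] [Field K] (a : ι → K) (e : ι → ℕ) :
    (∏ i, (X - C (a i)) ^ e i).Monic :=
  monic_prod_of_monic _ _ fun i _ => (monic_X_sub_C (a i)).pow (e i)

private theorem P9_prod_natDegree {ι K : Type*} [Fintype ι] [Field K] (a : ι → K) (e : ι → ℕ) :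
    (∏ i, (X - C (a i)) ^ e i).natDegree = ∑ i, e i := by
  rw [natDegree_prod_of_monic _ _ fun i _ => (monic_X_sub_C (a i)).pow (e i)]
  refine Finset.sum_congr rfl fun i _ => ?_
  rw [natDegree_pow, natDegree_X_sub_C, mul_one]

/-- PROOF. Let `N = card ι = m + m'`; `m ≥ 1` (`∑ μ i > 0`, the index set is not empty because `∑ ν i = m' (p - 1)`; if `ι` is empty then `m = m' = 0` and the degree condition gives `g = 0`).
Let `g.degree < m' - 1`, `derivative J = g * gg a ν`, `J.natDegree ≤ m' p - 1` (`exists_deriv_natDegree`; `g ≠ 0` so `m' ≥ 2`). `Q = (∏ i (X - C (a i))) ^ p`, monic of degree `p N`, `derivative Q = 0`.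
(1) `exists_interp` for `J`, `s = ν`: `J = expand K p γ + (∏ i (X - C (a i)) ^ (ν i + 1)) * S`, `γ.degree < N`.
(2) For every `h` with `h.degree < m - 1`: `lam Q (expand K p γ * (h * gg a μ)) = 0`: it is `lam Q (J * (h * gg a μ)) - lam Q (Q * (S * h))` as `ν i + 1 + μ i = p`, and the degree of `J * h * gg a μ` is at most
`m' p - 1 + m - 2 + m (p - 1) = N p - 3` (`lam_of_lt`, `lam_mul`).
(3) `γ.natDegree ≤ m'`: otherwise `γ.natDegree + α = N` with `1 ≤ α ≤ m - 1`; take `h` of `exists_pick` (from `det_ne_zero_of_inj`) for `α - 1`: `h * gg a μ = X ^ (p * α - 1) + T` where all the coefficients of `T` of degrees `p k + (p - 1)`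
are zero. `expand K p γ * T` is a derivative (`T = derivative T'` by `exists_deriv_iff`, `expand K p γ * T = derivative (expand K p γ * T')`), so `lam Q` of it is zero (`lam_derivative`), so
`0 = lam Q (expand K p γ * X ^ (p * α - 1)) = γ.leadingCoeff` (`lam_expand`), `γ = 0`, contradiction to `γ.natDegree > m'`.
(4) So `J - expand K p γ` has degree at most `m' p`, but it is divisible by `∏ i (X - C (a i)) ^ (ν i + 1)`, monic of degree `m' (p - 1) + N = m' p + m > m' p`. So it is zero and `g * gg a ν = derivative (expand K p γ) = 0`, `g = 0`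
(`gg a ν` is monic). -/
theorem inj_dual {ι : Type*} [Fintype ι] [DecidableEq ι] (a : ι → K)
    (ha : Function.Injective a) (μ ν : ι → ℕ) (hμν : ∀ i, μ i + ν i = p - 1)
    (hμ : ∀ i, 0 < μ i) (m m' : ℕ) (hm : ∑ i, μ i = m * (p - 1))
    (hm' : ∑ i, ν i = m' * (p - 1)) (hmp : m ≤ p) (h : Inj m (gg a μ)) : Inj m' (gg a ν) := by
  classical
  intro g hg hex
  by_contra hg0
  have hp : 2 ≤ p := (Fact.out : p.Prime).two_le
  -- degrees
  have hgn : g.natDegree < m' - 1 := by
    have := (natDegree_lt_iff_degree_lt hg0).2 hg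
    exact this
  have hm'2 : 2 ≤ m' := by omega
  have hN : Fintype.card ι = m + m' := by
    have h1 : ∑ i, (μ i + ν i) = Fintype.card ι * (p - 1) := by
      rw [Finset.sum_congr rfl fun i _ => hμν i]
      simp
    rw [Finset.sum_add_distrib, hm, hm', ← add_mul] at h1
    exact (Nat.eq_of_mul_eq_mul_right (by omega) h1).symm
  have hm1 : 1 ≤ m := by
    rcases Nat.eq_zero_or_pos m with h0 | h0
    · exfalso
      rw [h0, zero_mul] at hm
      have hcard : 0 < Fintype.card ι := by omega
      obtain ⟨i⟩ := Fintype.card_pos_iff.1 hcard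
      have := (Finset.sum_eq_zero_iff.1 hm) i (Finset.mem_univ i)
      have := hμ i
      omega
    · exact h0
  have hggν : (gg a ν).Monic := P9_prod_monic a ν
  have hggμ : (gg a μ).Monic := P9_prod_monic a μ
  have hdν : (gg a ν).natDegree = m' * (p - 1) := (P9_prod_natDegree a ν).trans hm'
  have hdμ : (gg a μ).natDegree = m * (p - 1) := (P9_prod_natDegree a μ).trans hm
  obtain ⟨J, hJ, hJn⟩ := exists_deriv_natDegree (g * gg a ν) hex
  have hJd : J.natDegree + 1 ≤ m' * p := by
    have h1 : (g * gg a ν).natDegree ≤ g.natDegree + m' * (p - 1) :=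
      natDegree_mul_le.trans (by rw [hdν])
    have h2 : m' * p = m' * (p - 1) + m' := by
      obtain ⟨q, rfl⟩ : ∃ q, p = q + 1 := ⟨p - 1, by omega⟩
      simp; ring
    omega
  obtain ⟨γ, hγ, S, hS⟩ := exists_interp (p := p) a ha ν (fun i => by have := hμν i; omega) J
    (fun i => by
      rw [hJ]
      exact Dvd.dvd.mul_left (Finset.dvd_prod_of_mem (fun i => (X - C (a i)) ^ ν i)
        (Finset.mem_univ i)) g)
  -- the polynomials P and Q
  have hPm : (∏ i, (X - C (a i)) ^ (ν i + 1)).Monic := P9_prod_monic a fun i => ν i + 1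
  have hPd : (∏ i, (X - C (a i)) ^ (ν i + 1)).natDegree = m' * p + m := by
    rw [P9_prod_natDegree a fun i => ν i + 1, Finset.sum_add_distrib, hm']
    have h2 : m' * p = m' * (p - 1) + m' := by
      obtain ⟨q, rfl⟩ : ∃ q, p = q + 1 := ⟨p - 1, by omega⟩
      simp; ring
    simp only [Finset.sum_const, Finset.card_univ, smul_eq_mul, mul_one]
    omega
  set P : K[X] := ∏ i, (X - C (a i)) ^ (ν i + 1) with hPdef
  obtain ⟨Q, hQdef⟩ : ∃ Q : K[X], Q = (∏ i, (X - C (a i))) ^ p := ⟨_, rfl⟩
  have hQm : Q.Monic := by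
    rw [hQdef]
    exact (monic_prod_of_monic _ _ fun i _ => monic_X_sub_C (a i)).pow p
  have hQd : Q.natDegree = p * (m + m') := by
    rw [hQdef, natDegree_pow, natDegree_prod_of_monic _ _ fun i _ => monic_X_sub_C (a i)]
    simp [hN]
  have hQ' : derivative Q = 0 := by
    rw [hQdef, derivative_pow]
    simp
  have hPQ : P * gg a μ = Q := by
    rw [hPdef, gg, ← Finset.prod_mul_distrib, hQdef, ← Finset.prod_pow]
    refine Finset.prod_congr rfl fun i _ => ?_
    rw [← pow_add]
    congr 1
    have := hμν i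
    omega
  have hJS : expand K p γ = J - P * S := by rw [← hS]; ring
  -- (2)
  have key : ∀ f : K[X], f.degree < ((m - 1 : ℕ) : WithBot ℕ) →
      lam Q (expand K p γ * (f * gg a μ)) = 0 := by
    intro f hf
    have h1 : expand K p γ * (f * gg a μ) = J * (f * gg a μ) + Q * (-(S * f)) := by
      rw [hJS, ← hPQ]; ring
    rw [h1, lam_add, lam_mul hQm, add_zero]
    apply lam_of_lt hQm
    rw [hQd]
    rcases eq_or_ne f 0 with rfl | hf0
    · simp only [zero_mul, mul_zero, natDegree_zero]
      nlinarith
    · have hfn : f.natDegree < m - 1 := (natDegree_lt_iff_degree_lt hf0).2 hf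
      have h2 : (J * (f * gg a μ)).natDegree ≤ J.natDegree + (f.natDegree + m * (p - 1)) :=
        natDegree_mul_le.trans (Nat.add_le_add_left (natDegree_mul_le.trans (by rw [hdμ])) _)
      have h3 : p * (m + m') = m * (p - 1) + m + m' * p := by
        obtain ⟨q, rfl⟩ : ∃ q, p = q + 1 := ⟨p - 1, by omega⟩
        simp; ring
      omega
  -- (3)
  have hγn : γ.natDegree ≤ m' := by
    by_contra hcon
    push Not at hcon
    have hγ0 : γ ≠ 0 := by
      rintro rfl
      simp at hcon
    have hγN : γ.natDegree < m + m' := by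
      have := (natDegree_lt_iff_degree_lt hγ0).2 hγ
      omega
    obtain ⟨α, hα⟩ : ∃ α, γ.natDegree + α = m + m' := ⟨m + m' - γ.natDegree, by omega⟩
    obtain ⟨f, hf, hfc⟩ := exists_pick hmp (gg a μ) hdμ.le
      (det_ne_zero_of_inj hmp (gg a μ) hdμ.le h) (α - 1) (by omega)
    have hT : ∃ T' : K[X], derivative T' = f * gg a μ - X ^ (p * α - 1) := by
      refine (exists_deriv_iff (p := p) _).2 fun k => ?_
      have e1 : p * k + (p - 1) = p * (k + 1) - 1 := by
        rw [mul_add, mul_one]; omega
      rw [e1, coeff_sub, hfc k, coeff_X_pow]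
      have e2 : (p * (k + 1) - 1 = p * α - 1) ↔ k = α - 1 := by
        constructor
        · intro he
          have h4 : 1 ≤ p * (k + 1) := by nlinarith
          have h5 : 1 ≤ p * α := by nlinarith
          have h6 : p * (k + 1) = p * α := by omega
          have := Nat.eq_of_mul_eq_mul_left (by omega : 0 < p) h6
          omega
        · intro he
          have : k + 1 = α := by omega
          rw [this]
      by_cases hk : k = α - 1
      · rw [if_pos hk, if_pos (e2.2 hk), sub_self]
      · rw [if_neg hk, if_neg (fun hh => hk (e2.1 hh)), sub_self]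
    obtain ⟨T', hT'⟩ := hT
    have h7 : expand K p γ * (f * gg a μ) =
        expand K p γ * X ^ (p * α - 1) + derivative (expand K p γ * T') := by
      rw [derivative_mul, derivative_expand_eq_zero (p := p) γ, hT']
      ring
    have h8 := key f hf
    rw [h7, lam_add, lam_derivative hQm hQ', add_zero,
      lam_expand (p := p) (N := m + m') (by omega) hQm hQd γ (by omega) hα] at h8
    exact hγ0 (leadingCoeff_eq_zero.1 h8)
  -- (4)
  have hS0 : S = 0 := by
    by_contra hS0
    have h9 : (J - expand K p γ).natDegree = m' * p + m + S.natDegree := by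
      rw [hS, hPm.natDegree_mul' hS0, hPd]
    have h10 : (J - expand K p γ).natDegree ≤ m' * p := by
      refine (natDegree_sub_le _ _).trans (max_le (by omega) ?_)
      rw [natDegree_expand]
      exact Nat.mul_le_mul_right p hγn
    omega
  have hJe : J = expand K p γ := by
    rw [hS0, mul_zero, sub_eq_zero] at hS
    exact hS
  rw [hJe, derivative_expand_eq_zero (p := p) γ] at hJ
  rcases mul_eq_zero.1 hJ.symm with h11 | h11
  · exact hg0 h11
  · exact hggν.ne_zero h11

end MPadcCC
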