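import Pool.Agent.Lib.MP_adc574_ag_CC.P7
import Pool.Agent.Lib.MP_adc574_ag_CC.P8
import Pool.Agent.Lib.MP_adc574_ag_CC.P9

/-!
# Leaf P10: the Hasse-Witt matrices of the generic member are invertible
-/

set_option autoImplicit false

namespace MPadcCC

open Polynomial

/-- PROOF. `ν i = p - 1 - μ i`, `m' = card ι - m` (`∑ ν i = (card ι - m) (p - 1)`; `m ≤ card ι` because `μ i ≤ p - 1`). If all exact `f` of degree `< m - 1` vanish at `a o`: `inj_of_vanish`
(`μ o + m ≤ μ o + card ι ≤ p`). Otherwise there is one, `f`, with `f(a o) ≠ 0`, so by `ks` all exact `g` of degree `< m' - 1` for `ν` vanish at `a o`, `Inj m' (gg a ν)` by `inj_of_vanish`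
(`ν o + m' ≤ p - 1 - μ o + card ι ≤ p` because `card ι ≤ μ o`) and `inj_dual` (from `ν` to `μ`) gives the claim. -/
theorem inj_main {K : Type*} [Field K] {p : ℕ} [Fact p.Prime] [CharP K p] {ι : Type*}
    [Fintype ι] [DecidableEq ι] (δ : Derivation ℤ K K) (o : ι) (a : ι → K)
    (ha : Function.Injective a) (h0 : δ (a o) = 1) (h1 : ∀ i, i ≠ o → δ (a i) = 0)
    (μ : ι → ℕ) (hμ : ∀ i, 0 < μ i) (hμp : ∀ i, μ i + 1 < p) (m : ℕ)
    (hm : ∑ i, μ i = m * (p - 1)) (hb : Fintype.card ι ≤ μ o) (hb' : μ o + Fintype.card ι ≤ p) :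
    Inj m (gg a μ) := by
  classical
  have hp1 : 0 < p - 1 := by
    have := hμp o
    omega
  set N : ℕ := Fintype.card ι with hN
  set ν : ι → ℕ := fun i => p - 1 - μ i with hν
  have hμν : ∀ i, μ i + ν i = p - 1 := by
    intro i
    have := hμp i
    simp only [hν]
    omega
  have hν0 : ∀ i, 0 < ν i := by
    intro i
    have := hμp i
    simp only [hν]
    omega
  have hmN : m ≤ N := by
    have h2 : ∑ i, μ i ≤ ∑ _i : ι, (p - 1) := Finset.sum_le_sum fun i _ => by
      have := hμp i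
      omega
    rw [hm, Finset.sum_const, Finset.card_univ, smul_eq_mul] at h2
    exact Nat.le_of_mul_le_mul_right h2 hp1
  have hm' : ∑ i, ν i = (N - m) * (p - 1) := by
    have h2 : ∑ i, μ i + ∑ i, ν i = N * (p - 1) := by
      rw [← Finset.sum_add_distrib, Finset.sum_congr rfl (fun i _ => hμν i), Finset.sum_const, Finset.card_univ,
        smul_eq_mul]
    rw [hm] at h2
    rw [Nat.sub_mul]
    omega
  by_cases hv : ∀ f H : K[X], f.degree < ((m - 1 : ℕ) : WithBot ℕ) → derivative H = f * gg a μ → f.eval (a o) = 0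
  · exact inj_of_vanish δ o a h0 h1 μ (hμ o) m (by omega) hv
  · push Not at hv
    obtain ⟨f, H, hf, hH, hne⟩ := hv
    have hdual : Inj (N - m) (gg a ν) := by
      refine inj_of_vanish δ o a h0 h1 ν (hν0 o) (N - m) ?_ ?_
      · have := hμν o
        omega
      · intro g J hg hJ
        have h3 := ks δ o a ha h0 h1 μ ν hμν hμ hν0 m (N - m) hm hm' f g H J hf hg hH hJ
        exact (mul_eq_zero.1 h3).resolve_left hne
    refine inj_dual a ha ν μ (fun i => ?_) hν0 (N - m) m hm' hm (by omega) hdual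
    rw [add_comm]
    exact hμν i

end MPadcCC
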