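import Pool.Agent.Lib.MP_adc574_ag_LP.Primes
import Pool.Agent.Lib.MP_adc574_ag_CC.P1
import Pool.Agent.Lib.MP_adc574_ag_CC.P6
import Pool.Agent.Lib.MP_adc574_ag_CC.P10

/-!
# Leaf P11: the determinant over `E[t]`
-/

set_option autoImplicit false

namespace MPadcCC

open Polynomial

/-- PROOF. `K = FractionRing E[X]`, `CharP K p` (`charP_of_injective_algebraMap`). The derivation `derivative` of `E[X]` (`Polynomial.derivative'`, restricted to `ℤ`: `Derivation.restrictScalars`, or `Derivation.mk'`) extends to a derivation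
`δ` of `K` (`MPadcLP.exists_derivation_fraction`). The points `a i = algebraMap (if i = o then X else C (b i))` are different; `δ (a o) = 1`, `δ (a i) = 0` for `i ≠ o`. `inj_main` and `det_ne_zero_of_inj`
(`m ≤ card ι ≤ p`: `∑ μ i ≤ card ι * (p - 1)`; `natDegree (gg a μ) = ∑ μ i`) give `det ≠ 0` over `K`; `gg_map`, `det_hw_map` for `algebraMap E[X] K`. -/
theorem det_ne_zero {E : Type*} [Field E] {p : ℕ} [Fact p.Prime] [CharP E p] {ι : Type*}
    [Fintype ι] [DecidableEq ι] (o : ι) (b : ι → E)
    (hb : ∀ i j, i ≠ o → j ≠ o → b i = b j → i = j) (μ : ι → ℕ) (hμ : ∀ i, 0 < μ i)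
    (hμp : ∀ i, μ i + 1 < p) (m : ℕ) (hm : ∑ i, μ i = m * (p - 1))
    (hb1 : Fintype.card ι ≤ μ o) (hb2 : μ o + Fintype.card ι ≤ p) :
    (hw p m (gg (fun i => if i = o then (X : E[X]) else C (b i)) μ)).det ≠ 0 := by
  classical
  have hp2 : 2 ≤ p := (Fact.out : p.Prime).two_le
  have : CharP E[X] p := inferInstance
  have : CharP (FractionRing E[X]) p :=
    charP_of_injective_algebraMap (IsFractionRing.injective E[X] (FractionRing E[X])) p
  have hinj : Function.Injective (algebraMap E[X] (FractionRing E[X])) :=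
    IsFractionRing.injective E[X] (FractionRing E[X])
  -- the derivation
  let D : Derivation ℤ E[X] E[X] := (Polynomial.derivative' (R := E)).restrictScalars ℤ
  obtain ⟨δ, hδ'⟩ := MPadcLP.exists_derivation_fraction (K := FractionRing E[X]) D
  have hδ : ∀ P : E[X], δ (algebraMap E[X] (FractionRing E[X]) P) =
      algebraMap E[X] (FractionRing E[X]) (derivative P) := fun P => hδ' P
  -- the number m
  have hcardp : Fintype.card ι ≤ p := by omega
  have hsum : ∑ i, μ i ≤ Fintype.card ι * (p - 1) := by
    have h : ∑ i, μ i ≤ ∑ _i : ι, (p - 1) :=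
      Finset.sum_le_sum fun i _ => by have := hμp i; omega
    simpa using h
  have hmc : m ≤ Fintype.card ι := by
    rw [hm] at hsum
    exact Nat.le_of_mul_le_mul_right hsum (by omega)
  have hmp : m ≤ p := le_trans hmc hcardp
  set a : ι → FractionRing E[X] :=
    fun i => algebraMap E[X] (FractionRing E[X]) (if i = o then (X : E[X]) else C (b i)) with ha
  have hainj : Function.Injective a := by
    intro i j hij
    have hij' := hinj hij
    by_cases hi : i = o
    · by_cases hj : j = o
      · rw [hi, hj]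
      · rw [if_pos hi, if_neg hj] at hij'
        exact absurd hij' (Polynomial.X_ne_C _)
    · by_cases hj : j = o
      · rw [if_neg hi, if_pos hj] at hij'
        exact absurd hij'.symm (Polynomial.X_ne_C _)
      · rw [if_neg hi, if_neg hj] at hij'
        exact hb i j hi hj (Polynomial.C_injective hij')
  have h0 : δ (a o) = 1 := by
    simp only [ha, if_true]
    rw [hδ, derivative_X, map_one]
  have h1 : ∀ i, i ≠ o → δ (a i) = 0 := by
    intro i hi
    simp only [ha, if_neg hi]
    rw [hδ, derivative_C, map_zero]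
  have hI := inj_main δ o a hainj h0 h1 μ hμ hμp m hm hb1 hb2
  have hdeg : (gg a μ).natDegree ≤ m * (p - 1) := by
    rw [← hm, gg]
    refine (natDegree_prod_le _ _).trans (Finset.sum_le_sum fun i _ => ?_)
    refine (natDegree_pow_le).trans ?_
    rw [natDegree_X_sub_C, mul_one]
  have hdet := det_ne_zero_of_inj hmp (gg a μ) hdeg hI
  intro hz
  apply hdet
  have hmap := gg_map (algebraMap E[X] (FractionRing E[X]))
    (fun i => if i = o then (X : E[X]) else C (b i)) μ
  have : gg a μ = (gg (fun i => if i = o then (X : E[X]) else C (b i)) μ).map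
      (algebraMap E[X] (FractionRing E[X])) := hmap.symm
  rw [this, det_hw_map, hz, map_zero]

/-- The same with exponents zero allowed. PROOF. `gg_subtype` (the index set `{i // 0 < μ i}`, its cardinality is at most the one of `ι`; `∑` over the subtype: `Finset.sum_subtype` or
`Fintype.sum_subtype_add_sum_subtype`), `det_ne_zero`. -/
theorem det_ne_zero' {E : Type*} [Field E] {p : ℕ} [Fact p.Prime] [CharP E p] {ι : Type*}
    [Fintype ι] [DecidableEq ι] (o : ι) (b : ι → E)
    (hb : ∀ i j, i ≠ o → j ≠ o → b i = b j → i = j) (μ : ι → ℕ) (hμ : 0 < μ o)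
    (hμp : ∀ i, μ i + 1 < p) (m : ℕ) (hm : ∑ i, μ i = m * (p - 1))
    (hb1 : Fintype.card ι ≤ μ o) (hb2 : μ o + Fintype.card ι ≤ p) :
    (hw p m (gg (fun i => if i = o then (X : E[X]) else C (b i)) μ)).det ≠ 0 := by
  classical
  have hbase := det_ne_zero (E := E) (p := p) (ι := {i // 0 < μ i}) ⟨o, hμ⟩ (fun i => b i.1)
    (fun i j hi hj hij => Subtype.ext (hb i.1 j.1 (fun h => hi (Subtype.ext h))
      (fun h => hj (Subtype.ext h)) hij)) (fun i => μ i.1) (fun i => i.2) (fun i => hμp i.1) m
    (by
      rw [← hm]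
      rw [← Finset.sum_subtype (Finset.univ.filter fun i => 0 < μ i)
        (fun x => by simp) (fun i => μ i)]
      exact Finset.sum_filter_of_ne fun x _ hx => Nat.pos_of_ne_zero hx)
    (le_trans (Fintype.card_subtype_le _) hb1)
    (le_trans (Nat.add_le_add_left (Fintype.card_subtype_le _) _) hb2)
  have hgg := gg_subtype (fun i => if i = o then (X : E[X]) else C (b i)) μ
  rw [← hgg]
  have hfun : (fun i : {i // 0 < μ i} => if i.1 = o then (X : E[X]) else C (b i.1)) =
      fun i : {i // 0 < μ i} => if i = ⟨o, hμ⟩ then (X : E[X]) else C (b i.1) := by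
    funext i
    by_cases h : i.1 = o
    · rw [if_pos h, if_pos (Subtype.ext h)]
    · rw [if_neg h, if_neg (fun h' => h (congrArg Subtype.val h'))]
  rw [hfun]
  exact hbase

end MPadcCC
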