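import Mathlib

/-!
# Cyclic covers of the projective line with a moving branch point: definitions

`E` is a field, `L` a field extension of `E` and `x` an element of `L` such that `L` is finite over `E(x)`: the
function field of a smooth projective curve `X` with a map `x` to the projective line. The open sets
`x ≠ ∞`, `x ≠ 0` and `x ≠ 0, ∞` of `X` are affine; their rings of regular functions are the integral closures
of `E[x]`, `E[x⁻¹]` and `E[x, x⁻¹]` in `L`.
-/

set_option autoImplicit false

namespace MPadcCC

open Polynomial

universe u

/-- The elements of `L` which are integral over the ring `E[S]`. -/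
def reg (E : Type u) {L : Type u} [Field E] [Field L] [Algebra E L] (S : Set L) : Set L :=
  {f | IsIntegral (Algebra.adjoin E S) f}

/-- `L = E(x, y)` is the function field of the curve `y ^ e = F(x)`. -/
structure IsFunctionField {E L : Type u} [Field E] [Field L] [Algebra E L] (e : ℕ)
    (F : Polynomial E) (x y : L) : Prop where
  /-- `x` is a variable -/
  trans : Transcendental E x
  /-- the equation -/
  eq : y ^ e = aeval x F
  /-- `L` is generated by `x` and `y` -/
  gen : IntermediateField.adjoin E {x, y} = ⊤

/-- The curve with function field `L` is ordinary in the sense of Bloch and Kato: the sheaf `B = d O` of the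
exact differential forms has no cohomology (Čech cohomology of the covering by the two affine open sets
`x ≠ ∞` and `x ≠ 0`). -/
structure IsOrdinary (E : Type u) {L : Type u} [Field E] [Field L] [Algebra E L] (x : L) : Prop where
  /-- `H ^ 0 (X, B) = 0` -/
  H0 : ∀ f ∈ reg E {x}, ∀ g ∈ reg E {x⁻¹},
    KaehlerDifferential.D E L f = KaehlerDifferential.D E L g → KaehlerDifferential.D E L f = 0
  /-- `H ^ 1 (X, B) = 0` -/
  H1 : ∀ f ∈ reg E {x, x⁻¹}, ∃ g ∈ reg E {x}, ∃ h ∈ reg E {x⁻¹},
    KaehlerDifferential.D E L f = KaehlerDifferential.D E L g + KaehlerDifferential.D E L h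

/-- The data of the cyclic cover `y ^ e = (x - a 0) ^ (r 0) * … * (x - a n) ^ (r n)` of the projective line. -/
structure Cover (A : Type u) where
  /-- the degree -/
  e : ℕ
  /-- the number of the branch points is `n + 1` -/
  n : ℕ
  /-- the branch points -/
  a : Fin (n + 1) → A
  /-- the exponents -/
  r : Fin (n + 1) → ℕ

/-- The conditions: the branch points are different, the exponents are between `0` and `e`, the cover is totally
ramified over `a 0` and not ramified over infinity. -/
structure Cover.Ok {A : Type u} (c : Cover A) : Prop where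
  two : 2 ≤ c.e
  inj : Function.Injective c.a
  pos : ∀ i, 0 < c.r i
  lt : ∀ i, c.r i < c.e
  cop : Nat.Coprime (c.r 0) c.e
  dvd : c.e ∣ ∑ i, c.r i

/-- The polynomial `(x - a 0) ^ (r 0) * … * (x - a n) ^ (r n)`. -/
noncomputable def Cover.poly {A : Type u} [CommRing A] (c : Cover A) : Polynomial A :=
  ∏ i, (X - C (c.a i)) ^ c.r i

/-- Base change. -/
def Cover.map {A B : Type u} (φ : A → B) (c : Cover A) : Cover B where
  e := c.e
  n := c.n
  a := fun i => φ (c.a i)
  r := c.r

/-- The smooth projective curve `y ^ e = (x - a 0) ^ (r 0) * … * (x - a n) ^ (r n)` over the field `E` is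
ordinary. -/
def Cover.IsOrdinary {E : Type u} [Field E] (c : Cover E) : Prop :=
  (∃ (L : Type u) (_ : Field L) (_ : Algebra E L) (x y : L), IsFunctionField c.e c.poly x y) ∧
    ∀ (L : Type u) [Field L] [Algebra E L] (x y : L), IsFunctionField c.e c.poly x y →
      MPadcCC.IsOrdinary E x

/-- Dense ordinary reduction of finitely many cyclic covers: for every `b ≠ 0` in `A` and all large primes `p`
which are `1` modulo the degrees there is a closed point `s` of `Spec A` of residue characteristic `p` with
`b ≠ 0` at `s` such that at `s` all the covers have good reduction (the branch points stay different) and are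
ordinary in the sense of Bloch and Kato. -/
def DenseOrdinaryReduction {A : Type u} [CommRing A] {ι : Type} (c : ι → Cover A) : Prop :=
  ∀ b : A, b ≠ 0 → ∃ p₀ : ℕ, ∀ p : ℕ, p.Prime → p₀ < p → (∀ l, p ≡ 1 [MOD (c l).e]) →
    ∃ (E : Type u) (_ : Field E) (φ : A →+* E), Finite E ∧ CharP E p ∧ Function.Surjective φ ∧
      φ b ≠ 0 ∧ ∀ l, Function.Injective ((c l).map φ).a ∧ ((c l).map φ).IsOrdinary

end MPadcCC
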