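import Pool.Agent.Lib.MP_adc574_ag_CC.F0

/-!
# Leaf F1: the functions `yy_j`
-/

set_option autoImplicit false

namespace MPadcCC

open Polynomial

universe u

variable {E L : Type u} [Field E] [Field L] [Algebra E L] {c : Cover E} {x y : L}

/-- PROOF. `Transcendental`: `aeval x P ≠ 0` for `P ≠ 0`. -/
theorem aeval_ne_zero (hx : Transcendental E x) {P : E[X]} (hP : P ≠ 0) : aeval x P ≠ 0 :=
  fun h => hP ((transcendental_iff.1 hx) P h)

theorem x_ne_zero (hx : Transcendental E x) : x ≠ 0 := by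
  intro h
  have h1 := aeval_ne_zero hx (P := (X : E[X])) X_ne_zero
  rw [aeval_X] at h1
  exact h1 h

/-- PROOF. `monic_gg`. -/
theorem aeval_Qx_ne_zero (hx : Transcendental E x) (j : ℕ) : aeval x (Qx c j) ≠ 0 :=
  aeval_ne_zero hx (monic_gg _ _).ne_zero

theorem aeval_Fx_ne_zero (hx : Transcendental E x) (j : ℕ) : aeval x (Fx c j) ≠ 0 :=
  aeval_ne_zero hx (monic_gg _ _).ne_zero

theorem aeval_Rx_ne_zero (hx : Transcendental E x) (j : ℕ) : aeval x (Rx c j) ≠ 0 :=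
  aeval_ne_zero hx (monic_gg _ _).ne_zero

/-- PROOF. `y ^ e = aeval x c.poly ≠ 0` (`c.poly` is monic), `e ≠ 0`. -/
theorem y_ne_zero (hf : IsFunctionField c.e c.poly x y) (hc : c.Ok) : y ≠ 0 := by
  intro h
  have h1 := hf.eq
  have he : c.e ≠ 0 := by
    have := hc.two
    omega
  rw [h, zero_pow he] at h1
  have h2 := aeval_Fx_ne_zero (c := c) hf.trans 1
  have h3 := Qx_pow_mul_Fx c 1
  rw [pow_one] at h3
  have h4 := congrArg (aeval x) h3
  rw [map_mul, map_pow, ← h1] at h4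
  exact mul_ne_zero (pow_ne_zero _ (aeval_Qx_ne_zero hf.trans 1)) h2 h4

theorem yy_ne_zero (hf : IsFunctionField c.e c.poly x y) (hc : c.Ok) (j : ℕ) :
    yy c x y j ≠ 0 :=
  div_ne_zero (pow_ne_zero _ (y_ne_zero hf hc)) (aeval_Qx_ne_zero hf.trans j)

theorem yy_zero : yy c x y 0 = 1 := by
  rw [yy, Qx_zero, pow_zero, map_one, div_one]

/-- PROOF. `Q_e = c.poly` (`e r_i / e = r_i`). -/
theorem yy_e (hf : IsFunctionField c.e c.poly x y) (hc : c.Ok) : yy c x y c.e = 1 := by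
  have he : 0 < c.e := by
    have := hc.two
    omega
  have h1 := Qx_mul_Qx c hc 0 (Nat.zero_le _)
  rw [Qx_zero, Rx_zero, one_mul, mul_one, Nat.sub_zero] at h1
  rw [yy, h1, hf.eq]
  refine div_self ?_
  rw [← h1]
  exact aeval_Qx_ne_zero hf.trans _

/-- PROOF. `Qx_pow_mul_Fx`, `y ^ (j e) = (aeval x c.poly) ^ j`. -/
theorem yy_pow (hf : IsFunctionField c.e c.poly x y) (hc : c.Ok) (j : ℕ) :
    yy c x y j ^ c.e = aeval x (Fx c j) := by
  have h1 := congrArg (aeval x) (Qx_pow_mul_Fx c j)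
  rw [map_mul, map_pow, map_pow, ← hf.eq] at h1
  rw [yy, div_pow, div_eq_iff (pow_ne_zero _ (aeval_Qx_ne_zero hf.trans j)), ← pow_mul, mul_comm j, pow_mul, ← h1]
  ring

/-- PROOF. `Qx_mul_Qx`. -/
theorem yy_mul (hf : IsFunctionField c.e c.poly x y) (hc : c.Ok) (j : ℕ) (hj : j ≤ c.e) :
    yy c x y j * yy c x y (c.e - j) = aeval x (Rx c j) := by
  have h1 := congrArg (aeval x) (Qx_mul_Qx c hc j hj)
  rw [map_mul, map_mul, ← hf.eq] at h1
  have h2 : y ^ j * y ^ (c.e - j) = y ^ c.e := by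
    rw [← pow_add]
    congr 1
    omega
  rw [yy, yy, div_mul_div_comm, div_eq_iff (mul_ne_zero (aeval_Qx_ne_zero hf.trans j)
    (aeval_Qx_ne_zero hf.trans (c.e - j))), h2, ← h1]
  ring

/-- For `p = e M + 1`. PROOF. `yy_j ^ p = yy_j * (yy_j ^ e) ^ M`. -/
theorem yy_pow_p (hf : IsFunctionField c.e c.poly x y) (hc : c.Ok) (j M : ℕ) :
    yy c x y j ^ (c.e * M + 1) = aeval x (Fx c j ^ M) * yy c x y j := by
  rw [pow_succ, pow_mul, yy_pow hf hc, map_pow]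

/-- PROOF. `yy_j = R_j / yy_(e-j)` and `yy_(e-j) ^ p = F_(e-j) ^ M * yy_(e-j)`. -/
theorem yy_eq (hf : IsFunctionField c.e c.poly x y) (hc : c.Ok) (j M : ℕ) (hj : j ≤ c.e) :
    yy c x y j = (yy c x y (c.e - j) ^ (c.e * M + 1))⁻¹ *
      aeval x (Rx c j * Fx c (c.e - j) ^ M) := by
  have h1 := yy_ne_zero hf hc (c.e - j)
  rw [map_mul, ← yy_mul hf hc j hj, eq_inv_mul_iff_mul_eq₀ (pow_ne_zero _ h1), yy_pow_p hf hc]
  ring

end MPadcCC
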