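import Pool.Agent.Lib.MP_adc574_ag_CC.F0
import Pool.Agent.Lib.MP_adc574_ag_CC.P2

/-!
# Leaf F10: the polynomial part of `H ^ 0 = 0`
-/

set_option autoImplicit false

namespace MPadcCC

open Polynomial

private theorem F10_one {K : Type*} [Field K] (a : K) (r m : ℕ) (h : r = 0 → m = 0) :
    (X - C a) ^ m ∣ (X - C a) ^ (r + m) ∧ (X - C a) ^ m ∣ derivative ((X - C a) ^ (r + m)) := by
  refine ⟨pow_dvd_pow _ (by omega), ?_⟩
  rw [derivative_X_sub_C_pow]
  by_cases hr : r = 0
  · rw [h hr, pow_zero]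
    exact one_dvd _
  · exact Dvd.dvd.mul_left (pow_dvd_pow _ (by omega)) _

private theorem F10_prod {K ι : Type*} [Field K] (a : ι → K) (ρ μ : ι → ℕ)
    (h : ∀ i, ρ i = 0 → μ i = 0) (s : Finset ι) :
    (∏ i ∈ s, (X - C (a i)) ^ μ i ∣ ∏ i ∈ s, (X - C (a i)) ^ (ρ i + μ i)) ∧
      (∏ i ∈ s, (X - C (a i)) ^ μ i ∣ derivative (∏ i ∈ s, (X - C (a i)) ^ (ρ i + μ i))) := by
  classical
  induction s using Finset.induction_on with
  | empty => simp
  | insert i s hi ih =>
    rw [Finset.prod_insert hi, Finset.prod_insert hi, derivative_mul]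
    have h1 := F10_one (a i) (ρ i) (μ i) (h i)
    exact ⟨mul_dvd_mul h1.1 ih.1, dvd_add (mul_dvd_mul h1.2 ih.1) (mul_dvd_mul h1.1 ih.2)⟩

/-- PROOF. `A * gg a ρ * gg a μ = A * ∏ (X - C (a i)) ^ (ρ i + μ i)`, and `(X - C (a i)) ^ (ρ i + μ i)` and its derivative are both divisible by `(X - C (a i)) ^ μ i` (if `ρ i ≥ 1`: the derivative is `(ρ i + μ i) (X - C (a i)) ^ (ρ i + μ i - 1)`;
if `ρ i = 0` then `μ i = 0`). Induction over the product (`Finset.prod_induction` for the pair `(B, G)` with `G ∣ B` and `G ∣ derivative B`: closed under products), then the product rule with `A`. -/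
theorem exists_factor {K ι : Type*} [Field K] [Fintype ι] (a : ι → K) (ρ μ : ι → ℕ)
    (h : ∀ i, ρ i = 0 → μ i = 0) (A : K[X]) :
    ∃ f : K[X], derivative (A * gg a ρ * gg a μ) = f * gg a μ := by
  have h1 := F10_prod a ρ μ h Finset.univ
  have h2 : A * gg a ρ * gg a μ = A * ∏ i, (X - C (a i)) ^ (ρ i + μ i) := by
    rw [mul_assoc]
    unfold gg
    rw [← Finset.prod_mul_distrib]
    congr 1
    exact Finset.prod_congr rfl fun i _ => (pow_add _ _ _).symm
  have h3 : gg a μ ∣ derivative (A * gg a ρ * gg a μ) := by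
    rw [h2, derivative_mul]
    exact dvd_add (Dvd.dvd.mul_left h1.1 _) (Dvd.dvd.mul_left h1.2 _)
  obtain ⟨f, hf⟩ := h3
  exact ⟨f, by rw [hf, mul_comm]⟩

/-- PROOF. `B * gg a ρ * gg a μ` has degree `≤ p N + m' + m' (p - 1) = p (N + m')`, so its derivative has degree `< p (N + m') - 1` (`degree_derivative_lt`); so `derivative (A * gg a ρ * gg a μ)`, if it is not zero, has degree
`< p m' - 1` (in particular `m' ≥ 1`), and equals `f * gg a μ` (`exists_factor`), so `f.degree < p m' - 1 - m' (p - 1) = m' - 1`; `f = 0` by `hI`. -/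
theorem H0_core {K ι : Type*} [Field K] {p : ℕ} [Fact p.Prime] [CharP K p] [Fintype ι]
    (a : ι → K) (ρ μ : ι → ℕ) (h : ∀ i, ρ i = 0 → μ i = 0) (m' N : ℕ)
    (hμ : ∑ i, μ i = m' * (p - 1)) (hI : Inj m' (gg a μ)) (A B : K[X])
    (hB : B.natDegree + ∑ i, ρ i ≤ p * N + m')
    (hAB : X ^ (p * N) * derivative (A * gg a ρ * gg a μ) = derivative (B * gg a ρ * gg a μ)) :
    derivative (A * gg a ρ * gg a μ) = 0 := by
  obtain ⟨f, hf⟩ := exists_factor a ρ μ h A
  by_contra hD
  apply hD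
  have hp : p.Prime := Fact.out
  have hp1 : 1 ≤ p := hp.one_lt.le
  have hf0 : f ≠ 0 := by
    intro h0
    rw [h0, zero_mul] at hf
    exact hD hf
  have h1 : (B * gg a ρ * gg a μ).natDegree ≤ p * (N + m') := by
    have e1 : (B * gg a ρ * gg a μ).natDegree ≤ B.natDegree + ∑ i, ρ i + ∑ i, μ i := by
      refine natDegree_mul_le.trans ?_
      rw [natDegree_gg a μ]
      have e2 : (B * gg a ρ).natDegree ≤ B.natDegree + ∑ i, ρ i := by
        refine natDegree_mul_le.trans ?_
        rw [natDegree_gg a ρ]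
      omega
    have e3 : p * (N + m') = p * N + m' + m' * (p - 1) := by
      obtain ⟨q, rfl⟩ : ∃ q, p = q + 1 := ⟨p - 1, by omega⟩
      rw [Nat.add_sub_cancel]
      ring
    rw [e3]
    omega
  have h2 := degree_derivative_lt (p := p) (B * gg a ρ * gg a μ) (N + m') h1
  rw [← hAB] at h2
  have hne : X ^ (p * N) * derivative (A * gg a ρ * gg a μ) ≠ 0 :=
    mul_ne_zero (pow_ne_zero _ X_ne_zero) hD
  rw [degree_eq_natDegree hne, natDegree_mul (pow_ne_zero _ X_ne_zero) hD, natDegree_X_pow, hf,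
    natDegree_mul hf0 (monic_gg a μ).ne_zero, natDegree_gg a μ, hμ] at h2
  have h3 : p * N + (f.natDegree + m' * (p - 1)) < p * (N + m') - 1 := by
    exact_mod_cast h2
  have h4 : f.natDegree < m' - 1 := by
    obtain ⟨q, rfl⟩ : ∃ q, p = q + 1 := ⟨p - 1, by omega⟩
    rw [Nat.add_sub_cancel] at h3
    have e4 : (q + 1) * (N + m') = (q + 1) * N + m' * q + m' := by ring
    rw [e4] at h3
    omega
  have h5 : f = 0 := by
    apply hI f
    · rw [degree_eq_natDegree hf0]
      exact_mod_cast h4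
    · exact ⟨_, hf⟩
  exact absurd h5 hf0

/-- PROOF. `f.degree < 0` gives `f = 0`. -/
theorem inj_zero {K : Type*} [CommRing K] (G : K[X]) : Inj 0 G := by
  intro f hf _
  by_contra h0
  have h1 := zero_le_degree_iff.mpr h0
  exact absurd hf (not_lt.mpr (by simpa using h1))

end MPadcCC
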