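import Pool.Agent.Lib.MP_adc574_ag_CC.P6

/-!
# Leaf F11 (Mathlib only): the polynomial part of `H ^ 1 = 0`
-/

set_option autoImplicit false

namespace MPadcCC

open Polynomial

universe u

/-- The sums of a polynomial in `x` and of `x ^ (- m)` times a polynomial in `x⁻¹`. -/
private noncomputable def F11_W (E : Type u) {L : Type u} [Field E] [Field L] [Algebra E L] (x : L)
    (m : ℕ) : Submodule E L :=
  LinearMap.range (aeval x : E[X] →ₐ[E] L).toLinearMap ⊔
    LinearMap.range ((LinearMap.mulRight E ((x ^ m)⁻¹)).comp (aeval x⁻¹ : E[X] →ₐ[E] L).toLinearMap)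

private theorem F11_mem {E L : Type u} [Field E] [Field L] [Algebra E L] {x : L} {m : ℕ} {f : L} :
    f ∈ F11_W E x m ↔ ∃ A B : E[X], f = aeval x A + aeval x⁻¹ B * (x ^ m)⁻¹ := by
  rw [F11_W, Submodule.mem_sup]
  constructor
  · rintro ⟨_, ⟨A, rfl⟩, _, ⟨B, rfl⟩, rfl⟩
    exact ⟨A, B, rfl⟩
  · rintro ⟨A, B, rfl⟩
    exact ⟨_, ⟨A, rfl⟩, _, ⟨B, rfl⟩, rfl⟩

private theorem F11_pos {E L : Type u} [Field E] [Field L] [Algebra E L] {x : L} (m k : ℕ) :
    x ^ k ∈ F11_W E x m :=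
  F11_mem.2 ⟨X ^ k, 0, by simp⟩

private theorem F11_neg {E L : Type u} [Field E] [Field L] [Algebra E L] {x : L} {m k : ℕ}
    (h : m ≤ k) : (x⁻¹) ^ k ∈ F11_W E x m :=
  F11_mem.2 ⟨0, X ^ (k - m), by
    rw [map_zero, zero_add, map_pow, aeval_X, ← inv_pow x m, ← pow_add, Nat.sub_add_cancel h]⟩

private theorem F11_cancel {L : Type u} [Field L] {x : L} (hx : x ≠ 0) {n l : ℕ} (h : l ≤ n) :
    (x⁻¹) ^ n * x ^ l = (x⁻¹) ^ (n - l) := by
  obtain ⟨k, rfl⟩ := Nat.exists_eq_add_of_le h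
  rw [Nat.add_sub_cancel_left, pow_add, mul_right_comm, ← mul_pow, inv_mul_cancel₀ hx, one_pow, one_mul]

private theorem F11_cancel' {L : Type u} [Field L] {x : L} (hx : x ≠ 0) {n l : ℕ} (h : n ≤ l) :
    (x⁻¹) ^ n * x ^ l = x ^ (l - n) := by
  obtain ⟨k, rfl⟩ := Nat.exists_eq_add_of_le h
  rw [Nat.add_sub_cancel_left, pow_add, ← mul_assoc, ← mul_pow, inv_mul_cancel₀ hx, one_pow, one_mul]

private theorem F11_red {E L : Type u} [Field E] [Field L] [Algebra E L] {x : L} (hx : x ≠ 0)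
    {m n : ℕ} (hmn : m ≤ n) (hn : 1 ≤ n) (G : E[X]) :
    (x⁻¹) ^ n * aeval x G - ∑ β : Fin (m - 1), G.coeff (n - (β.1 + 1)) • (x⁻¹) ^ (β.1 + 1) ∈
      F11_W E x m := by
  induction G using Polynomial.induction_on' with
  | add P Q hP hQ =>
    have h := add_mem hP hQ
    have h2 : (x⁻¹) ^ n * aeval x (P + Q) -
        ∑ β : Fin (m - 1), (P + Q).coeff (n - (β.1 + 1)) • (x⁻¹) ^ (β.1 + 1) =
        ((x⁻¹) ^ n * aeval x P - ∑ β : Fin (m - 1), P.coeff (n - (β.1 + 1)) • (x⁻¹) ^ (β.1 + 1)) +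
        ((x⁻¹) ^ n * aeval x Q - ∑ β : Fin (m - 1), Q.coeff (n - (β.1 + 1)) • (x⁻¹) ^ (β.1 + 1)) := by
      have h3 : ∑ β : Fin (m - 1), (P + Q).coeff (n - (β.1 + 1)) • (x⁻¹) ^ (β.1 + 1) =
          ∑ β : Fin (m - 1), P.coeff (n - (β.1 + 1)) • (x⁻¹) ^ (β.1 + 1) +
          ∑ β : Fin (m - 1), Q.coeff (n - (β.1 + 1)) • (x⁻¹) ^ (β.1 + 1) := by
        rw [← Finset.sum_add_distrib]
        refine Finset.sum_congr rfl fun β _ => ?_
        rw [coeff_add, add_smul]
      rw [h3, map_add]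
      ring
    rw [h2]
    exact h
  | monomial l c =>
    rw [aeval_monomial, ← Algebra.smul_def, mul_smul_comm]
    by_cases h1 : n ≤ l
    · have h2 : ∑ β : Fin (m - 1), (monomial l c).coeff (n - (β.1 + 1)) • (x⁻¹) ^ (β.1 + 1) = 0 := by
        refine Finset.sum_eq_zero fun β _ => ?_
        rw [coeff_monomial, if_neg (by omega), zero_smul]
      rw [h2, sub_zero, F11_cancel' hx h1]
      exact Submodule.smul_mem _ _ (F11_pos _ _)
    · have h1' : l ≤ n := by omega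
      rw [F11_cancel hx h1']
      by_cases h3 : m ≤ n - l
      · have h2 : ∑ β : Fin (m - 1), (monomial l c).coeff (n - (β.1 + 1)) • (x⁻¹) ^ (β.1 + 1) = 0 := by
          refine Finset.sum_eq_zero fun β _ => ?_
          have hβ := β.2
          rw [coeff_monomial, if_neg (by omega), zero_smul]
        rw [h2, sub_zero]
        exact Submodule.smul_mem _ _ (F11_neg h3)
      · have hb : n - l - 1 < m - 1 := by omega
        have h2 : ∑ β : Fin (m - 1), (monomial l c).coeff (n - (β.1 + 1)) • (x⁻¹) ^ (β.1 + 1) =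
            c • (x⁻¹) ^ (n - l) := by
          rw [Finset.sum_eq_single (⟨n - l - 1, hb⟩ : Fin (m - 1))]
          · rw [coeff_monomial, if_pos (by simp only; omega)]
            have h4 : n - l - 1 + 1 = n - l := by omega
            simp only [h4]
          · intro β _ hβ
            have hβ2 := β.2
            have h5 : β.1 ≠ n - l - 1 := fun h => hβ (Fin.ext h)
            rw [coeff_monomial, if_neg (by omega), zero_smul]
          · intro h
            exact absurd (Finset.mem_univ _) h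
        rw [h2, sub_self]
        exact zero_mem _

/-- PROOF. The set of the elements of `L` of the form of the right side is closed under sums (`add_pow_char`: `(s₁)^p + (s₂)^p = (s₁ + s₂)^p`; `CharP L p` by `charP_of_injective_algebraMap`) and under multiplication with elements of `E`
(`hE`). So it is enough to treat `P = X ^ k`, that is `x ^ k * (x ^ N)⁻¹`. If `k ≥ N`: `A = X ^ (k - N)`. If `N - k ≥ m`: `B = X ^ (N - k - m)`. Otherwise `b = N - k`, `1 ≤ b ≤ m - 1`: choose `σ` with `∑_α σ_α hw(α, β) = 1` for `β = b - 1` and `0` for the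
other `β` (`Matrix.vecMul` with the inverse matrix), `s_α ^ p = σ_α`, `s = ∑_α s_α X ^ (α + 1)`. Then `(s(x⁻¹)) ^ p * G(x) = ∑_α ∑_l σ_α c_l x ^ (l - p (α + 1))` (`c_l` the coefficients of `G`); the terms with `l ≥ p (α + 1)` are polynomials in `x`, those with
`p (α + 1) - l ≥ m` are `x ^ (- m)` times polynomials in `x⁻¹`, and for `p (α + 1) - l = b'`, `1 ≤ b' ≤ m - 1` the coefficient of `x ^ (- b')` is `∑_α σ_α hw(α, b' - 1)`, which is `1` for `b' = b` and zero otherwise. -/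
theorem span_core {E L : Type u} [Field E] [Field L] [Algebra E L] {p : ℕ} [Fact p.Prime]
    [CharP E p] (hE : ∀ a : E, ∃ b : E, b ^ p = a) {x : L} (hx : x ≠ 0) (m : ℕ) (hm : m ≤ p)
    (G : E[X]) (hdet : (hw p m G).det ≠ 0) (P : E[X]) (N : ℕ) :
    ∃ A B s : E[X], aeval x P * (x ^ N)⁻¹ =
      aeval x A + aeval x⁻¹ B * (x ^ m)⁻¹ + (aeval x⁻¹ s) ^ p * aeval x G := by
  classical
  have : CharP L p := charP_of_injective_algebraMap (algebraMap E L).injective p
  have hp : p.Prime := Fact.out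
  -- the elements of the form of the right side
  have hadd : ∀ f g : L, (∃ s : E[X], f - (aeval x⁻¹ s) ^ p * aeval x G ∈ F11_W E x m) →
      (∃ s : E[X], g - (aeval x⁻¹ s) ^ p * aeval x G ∈ F11_W E x m) →
      ∃ s : E[X], f + g - (aeval x⁻¹ s) ^ p * aeval x G ∈ F11_W E x m := by
    rintro f g ⟨s, hs⟩ ⟨t, ht⟩
    refine ⟨s + t, ?_⟩
    have h := add_mem hs ht
    have h2 : f + g - (aeval x⁻¹ (s + t)) ^ p * aeval x G =
        (f - (aeval x⁻¹ s) ^ p * aeval x G) + (g - (aeval x⁻¹ t) ^ p * aeval x G) := by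
      rw [map_add, add_pow_char]
      ring
    rw [h2]
    exact h
  have hsmul : ∀ (a : E) (f : L), (∃ s : E[X], f - (aeval x⁻¹ s) ^ p * aeval x G ∈ F11_W E x m) →
      ∃ s : E[X], a • f - (aeval x⁻¹ s) ^ p * aeval x G ∈ F11_W E x m := by
    rintro a f ⟨s, hs⟩
    obtain ⟨b, hb⟩ := hE a
    refine ⟨b • s, ?_⟩
    have h2 : a • f - (aeval x⁻¹ (b • s)) ^ p * aeval x G =
        a • (f - (aeval x⁻¹ s) ^ p * aeval x G) := by
      rw [map_smul, _root_.smul_pow, hb, smul_sub, smul_mul_assoc]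
    rw [h2]
    exact Submodule.smul_mem _ _ hs
  have hW : ∀ f ∈ F11_W E x m, ∃ s : E[X], f - (aeval x⁻¹ s) ^ p * aeval x G ∈ F11_W E x m := by
    intro f hf
    refine ⟨0, ?_⟩
    rw [map_zero, zero_pow hp.ne_zero, zero_mul, sub_zero]
    exact hf
  have hmid : ∀ b : ℕ, 1 ≤ b → b ≤ m - 1 →
      ∃ s : E[X], (x⁻¹) ^ b - (aeval x⁻¹ s) ^ p * aeval x G ∈ F11_W E x m := by
    intro b hb1 hb2
    have hbl : b - 1 < m - 1 := by omega
    have hunit : IsUnit (hw p m G).det := isUnit_iff_ne_zero.2 hdet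
    obtain ⟨σ, hσ⟩ : ∃ σ : Fin (m - 1) → E,
        Matrix.vecMul σ (hw p m G) = Pi.single (⟨b - 1, hbl⟩ : Fin (m - 1)) 1 := by
      refine ⟨Matrix.vecMul (Pi.single (⟨b - 1, hbl⟩ : Fin (m - 1)) 1) (hw p m G)⁻¹, ?_⟩
      rw [Matrix.vecMul_vecMul, Matrix.nonsing_inv_mul _ hunit, Matrix.vecMul_one]
    choose τ hτ using fun α => hE (σ α)
    refine ⟨∑ α : Fin (m - 1), C (τ α) * X ^ (α.1 + 1), ?_⟩
    have h1 : (aeval x⁻¹ (∑ α : Fin (m - 1), C (τ α) * X ^ (α.1 + 1)) : L) ^ p =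
        ∑ α : Fin (m - 1), σ α • (x⁻¹) ^ (p * (α.1 + 1)) := by
      rw [map_sum, sum_pow_char]
      refine Finset.sum_congr rfl fun α _ => ?_
      rw [map_mul, map_pow, aeval_C, aeval_X, ← Algebra.smul_def, _root_.smul_pow, hτ, ← pow_mul,
        mul_comm (α.1 + 1) p]
    have h2 : ∀ α : Fin (m - 1), m ≤ p * (α.1 + 1) := fun α =>
      hm.trans (Nat.le_mul_of_pos_right p (Nat.succ_pos _))
    have h3 : ∑ α : Fin (m - 1), σ α • ((x⁻¹) ^ (p * (α.1 + 1)) * aeval x G -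
        ∑ β : Fin (m - 1), G.coeff (p * (α.1 + 1) - (β.1 + 1)) • (x⁻¹) ^ (β.1 + 1)) ∈
        F11_W E x m := by
      refine Submodule.sum_mem _ fun α _ => Submodule.smul_mem _ _ ?_
      exact F11_red hx (h2 α) (Nat.mul_pos hp.pos (Nat.succ_pos _)) G
    have h4 : ∑ α : Fin (m - 1), σ α • (∑ β : Fin (m - 1),
        G.coeff (p * (α.1 + 1) - (β.1 + 1)) • (x⁻¹) ^ (β.1 + 1)) = (x⁻¹) ^ b := by
      simp only [Finset.smul_sum, smul_smul]
      rw [Finset.sum_comm]
      simp only [← Finset.sum_smul]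
      have h5 : ∀ β : Fin (m - 1), ∑ α : Fin (m - 1), σ α * G.coeff (p * (α.1 + 1) - (β.1 + 1)) =
          (Pi.single (⟨b - 1, hbl⟩ : Fin (m - 1)) (1 : E) : Fin (m - 1) → E) β := by
        intro β
        rw [← hσ]
        rfl
      simp only [h5]
      rw [Finset.sum_eq_single (⟨b - 1, hbl⟩ : Fin (m - 1))]
      · rw [Pi.single_eq_same, one_smul]
        have h6 : b - 1 + 1 = b := by omega
        simp only [h6]
      · intro β _ hβ
        rw [Pi.single_eq_of_ne hβ, zero_smul]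
      · intro h
        exact absurd (Finset.mem_univ _) h
    have h7 : (x⁻¹) ^ b - (aeval x⁻¹ (∑ α : Fin (m - 1), C (τ α) * X ^ (α.1 + 1)) : L) ^ p *
        aeval x G = -(∑ α : Fin (m - 1), σ α • ((x⁻¹) ^ (p * (α.1 + 1)) * aeval x G -
        ∑ β : Fin (m - 1), G.coeff (p * (α.1 + 1) - (β.1 + 1)) • (x⁻¹) ^ (β.1 + 1))) := by
      rw [h1]
      simp only [smul_sub]
      rw [Finset.sum_sub_distrib, h4, Finset.sum_mul]
      simp only [smul_mul_assoc]
      ring
    rw [h7]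
    exact neg_mem h3
  have hall : ∀ b : ℕ, ∃ s : E[X], (x⁻¹) ^ b - (aeval x⁻¹ s) ^ p * aeval x G ∈ F11_W E x m := by
    intro b
    rcases Nat.eq_zero_or_pos b with h0 | h0
    · subst h0
      rw [pow_zero, ← pow_zero x]
      exact hW _ (F11_pos _ _)
    · by_cases h1 : m ≤ b
      · exact hW _ (F11_neg h1)
      · exact hmid b h0 (by omega)
  have hmain : ∃ s : E[X], aeval x P * (x ^ N)⁻¹ - (aeval x⁻¹ s) ^ p * aeval x G ∈ F11_W E x m := by
    induction P using Polynomial.induction_on' with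
    | add P Q hP hQ =>
      rw [map_add, add_mul]
      exact hadd _ _ hP hQ
    | monomial k c =>
      rw [aeval_monomial, ← Algebra.smul_def, smul_mul_assoc]
      refine hsmul c _ ?_
      rw [← inv_pow, mul_comm]
      by_cases h1 : N ≤ k
      · rw [F11_cancel' hx h1]
        exact hW _ (F11_pos _ _)
      · rw [F11_cancel hx (by omega)]
        exact hall _
  obtain ⟨s, hs⟩ := hmain
  obtain ⟨A, B, hAB⟩ := F11_mem.1 hs
  exact ⟨A, B, s, by rw [← hAB]; ring⟩

end MPadcCC
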