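import Pool.Agent.Lib.MP_adc574_ag_CC.F5

/-!
# Leaf F6: the coefficients of an integral element
-/

set_option autoImplicit false

namespace MPadcCC

open Polynomial

universe u

variable {E L : Type u} [Field E] [Field L] [Algebra E L] {c : Cover E} {x y : L}

/-- A quotient of two polynomials in lowest terms. -/
private theorem F6_repr {u : L} (hx : Transcendental E x)
    (hu : u ∈ IntermediateField.adjoin E {x}) :
    ∃ A B : E[X], IsCoprime A B ∧ B ≠ 0 ∧ u * aeval x B = aeval x A := by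
  classical
  obtain ⟨r, s, h⟩ := (IntermediateField.mem_adjoin_simple_iff E u).mp hu
  by_cases hs : s = 0
  · refine ⟨0, 1, isCoprime_zero_left.mpr isUnit_one, one_ne_zero, ?_⟩
    rw [h, hs]
    simp
  · have hg : EuclideanDomain.gcd r s ≠ 0 := fun h0 =>
      hs (EuclideanDomain.gcd_eq_zero_iff.mp h0).2
    obtain ⟨A, hA⟩ := EuclideanDomain.gcd_dvd_left r s
    obtain ⟨B, hB⟩ := EuclideanDomain.gcd_dvd_right r s
    have hab := EuclideanDomain.gcd_eq_gcd_ab r s
    generalize EuclideanDomain.gcd r s = g at hg hA hB hab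
    generalize EuclideanDomain.gcdA r s = s1 at hab
    generalize EuclideanDomain.gcdB r s = t1 at hab
    refine ⟨A, B, ?_, ?_, ?_⟩
    · refine ⟨s1, t1, ?_⟩
      refine mul_left_cancel₀ hg ?_
      calc g * (s1 * A + t1 * B)
          = (g * A) * s1 + (g * B) * t1 := by ring
        _ = r * s1 + s * t1 := by rw [← hA, ← hB]
        _ = g * 1 := by rw [← hab, mul_one]
    · intro h0
      rw [h0, mul_zero] at hB
      exact hs hB
    · have hs' : aeval x s ≠ 0 := aeval_ne_zero hx hs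
      have hg' : aeval x g ≠ 0 := aeval_ne_zero hx hg
      have e1 : u * aeval x s = aeval x r := by
        rw [h, div_mul_cancel₀ _ hs']
      rw [hA, hB, map_mul, map_mul] at e1
      refine mul_left_cancel₀ hg' ?_
      calc aeval x g * (u * aeval x B) = u * (aeval x g * aeval x B) := by ring
        _ = aeval x g * aeval x A := e1

private theorem F6_inj (hx : Transcendental E x) {P Q : E[X]} (h : aeval x P = aeval x Q) :
    P = Q := (transcendental_iff_injective.mp hx) h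

/-- Split off one factor of `gg`. -/
private theorem F6_gg {ι K : Type*} [Fintype ι] [Field K] (a : ι → K)
    (ha : Function.Injective a) (μ : ι → ℕ) (i : ι) :
    ∃ G : K[X], gg a μ = (X - C (a i)) ^ μ i * G ∧ G.eval (a i) ≠ 0 := by
  classical
  refine ⟨∏ k ∈ Finset.univ.erase i, (X - C (a k)) ^ μ k, ?_, ?_⟩
  · unfold gg
    rw [Finset.mul_prod_erase Finset.univ (fun k => (X - C (a k)) ^ μ k) (Finset.mem_univ i)]
  · rw [eval_prod]
    refine Finset.prod_ne_zero_iff.mpr fun k hk => ?_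
    rw [eval_pow, eval_sub, eval_X, eval_C]
    refine pow_ne_zero _ (sub_ne_zero.mpr fun h => ?_)
    exact (Finset.mem_erase.mp hk).1 (ha h).symm

private theorem F6_unit {ι K : Type*} [Fintype ι] [Field K] (a : ι → K)
    (ha : Function.Injective a) (μ : ι → ℕ) (e : ℕ) (he : e ≠ 0) (hμ : ∀ i, μ i < e) {B : K[X]}
    (hB : B ≠ 0) (h : B ^ e ∣ gg a μ) : IsUnit B := by
  by_contra hu
  obtain ⟨π, hπ, hd⟩ := WfDvdMonoid.exists_irreducible_factor hu hB
  have hp : Prime π := hπ.prime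
  have h1 : π ^ e ∣ gg a μ := (pow_dvd_pow_of_dvd hd e).trans h
  have h2 : π ∣ gg a μ := (dvd_pow_self π he).trans h1
  unfold gg at h2
  obtain ⟨i, -, hi⟩ := (Prime.dvd_finsetProd_iff hp _).mp h2
  have h3 : π ∣ X - C (a i) := hp.dvd_of_dvd_pow hi
  have h4 : Associated π (X - C (a i)) :=
    (hπ.dvd_irreducible_iff_associated (irreducible_X_sub_C (a i))).mp h3
  have h5 : (X - C (a i)) ^ e ∣ gg a μ := (h4.symm.pow_pow.dvd).trans h1
  obtain ⟨G, hG, hG0⟩ := F6_gg a ha μ i
  rw [hG] at h5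
  have h6 : (X - C (a i)) ^ μ i * (X - C (a i)) ^ (e - μ i) ∣ (X - C (a i)) ^ μ i * G := by
    rw [← pow_add, Nat.add_sub_cancel' (hμ i).le]
    exact h5
  have h7 : (X - C (a i)) ^ (e - μ i) ∣ G :=
    (mul_dvd_mul_iff_left (pow_ne_zero _ (X_sub_C_ne_zero (a i)))).mp h6
  have h8 : X - C (a i) ∣ G :=
    (dvd_pow_self _ (Nat.sub_ne_zero_of_lt (hμ i))).trans h7
  exact hG0 (dvd_iff_isRoot.mp h8)

private theorem F6_mem_adj (P : E[X]) : aeval x P ∈ IntermediateField.adjoin E {x} :=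
  IntermediateField.algebra_adjoin_le_adjoin E {x} (aeval_mem_adjoin_singleton E x)

private theorem F6_mono {S T : Set L} (hST : S ⊆ T) {f : L} (h : f ∈ reg E S) : f ∈ reg E T := by
  obtain ⟨p, hp, h0⟩ := h
  refine ⟨p.map (Subalgebra.inclusion (Algebra.adjoin_mono hST)).toRingHom, hp.map _, ?_⟩
  rw [eval₂_map]
  exact h0

/-- PROOF. `u = aeval x A / aeval x B` with `A, B` coprime (`IntermediateField.mem_adjoin_simple_iff`, divide by the gcd), so `A ^ e * F_j = P * B ^ e` (`x` is transcendental), so `B ^ e ∣ F_j` (`IsCoprime.dvd_of_dvd_mul_left`). If `B` is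
not a unit an irreducible `π` divides `B`, `π ^ e ∣ F_j = ∏ (X - C (a i)) ^ (j r_i mod e)`; `π` is associated to some `X - C (a i)`, but `(X - C (a i)) ^ e` does not divide `F_j` because the multiplicity of `a i` is
`j r_i mod e < e` (`a` is injective). So `B` is a unit, a constant. -/
theorem eq_poly_of_pow (hc : c.Ok) (hx : Transcendental E x) (j : ℕ) {u : L}
    (hu : u ∈ IntermediateField.adjoin E {x}) {P : E[X]}
    (h : u ^ c.e * aeval x (Fx c j) = aeval x P) : ∃ U : E[X], u = aeval x U := by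
  obtain ⟨A, B, hAB, hB, hu'⟩ := F6_repr hx hu
  have he : c.e ≠ 0 := by have := hc.two; omega
  have h1 : A ^ c.e * Fx c j = P * B ^ c.e := by
    refine F6_inj hx ?_
    rw [map_mul, map_mul, map_pow, map_pow, ← hu', ← h]
    ring
  have h2 : B ^ c.e ∣ A ^ c.e * Fx c j := ⟨P, by rw [h1, mul_comm]⟩
  have h3 : B ^ c.e ∣ Fx c j := (hAB.symm.pow).dvd_of_dvd_mul_left h2
  have h4 : IsUnit B := by
    refine F6_unit c.a hc.inj _ c.e he (fun i => ?_) hB h3
    exact Nat.mod_lt _ (Nat.pos_of_ne_zero he)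
  obtain ⟨b, hb, hbB⟩ := isUnit_iff.mp h4
  refine ⟨A * C b⁻¹, ?_⟩
  have hb0 : b ≠ 0 := hb.ne_zero
  rw [map_mul, ← hu', ← hbB, mul_assoc, ← map_mul, ← C_mul, mul_inv_cancel₀ hb0]
  simp

/-- PROOF. `(u * yy_j) ^ e = u ^ e * F_j(x)` (`yy_pow`) is in `E(x)` and integral (`IsIntegral.pow`): `mem_reg_x`, `eq_poly_of_pow`. -/
theorem comp_x (hf : IsFunctionField c.e c.poly x y) (hc : c.Ok) (j : ℕ) {u : L}
    (hu : u ∈ IntermediateField.adjoin E {x}) (h : u * yy c x y j ∈ reg E {x}) :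
    ∃ U : E[X], u = aeval x U := by
  have h1 : (u * yy c x y j) ^ c.e = u ^ c.e * aeval x (Fx c j) := by
    rw [mul_pow, yy_pow hf hc]
  have h2 : (u * yy c x y j) ^ c.e ∈ IntermediateField.adjoin E {x} := by
    rw [h1]
    exact mul_mem (pow_mem hu _) (F6_mem_adj _)
  have h3 : (u * yy c x y j) ^ c.e ∈ reg E {x} := IsIntegral.pow h _
  obtain ⟨P, hP⟩ := mem_reg_x hf.trans h2 h3
  exact eq_poly_of_pow hc hf.trans j hu (h1.symm.trans hP)

/-- PROOF. `u ^ e * F_j(x) * x ^ N = P(x)` by `mem_reg_both`; so `(u * x ^ N) ^ e * F_j(x) = (P * X ^ ((e - 1) N))(x)`; `eq_poly_of_pow`. -/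
theorem comp_both (hf : IsFunctionField c.e c.poly x y) (hc : c.Ok) (j : ℕ) {u : L}
    (hu : u ∈ IntermediateField.adjoin E {x}) (h : u * yy c x y j ∈ reg E {x, x⁻¹}) :
    ∃ (U : E[X]) (N : ℕ), u * x ^ N = aeval x U := by
  have h1 : (u * yy c x y j) ^ c.e = u ^ c.e * aeval x (Fx c j) := by
    rw [mul_pow, yy_pow hf hc]
  have h2 : (u * yy c x y j) ^ c.e ∈ IntermediateField.adjoin E {x} := by
    rw [h1]
    exact mul_mem (pow_mem hu _) (F6_mem_adj _)
  have h3 : (u * yy c x y j) ^ c.e ∈ reg E {x, x⁻¹} := IsIntegral.pow h _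
  obtain ⟨P, N, hP⟩ := mem_reg_both hf.trans h2 h3
  have hx : x ∈ IntermediateField.adjoin E {x} :=
    IntermediateField.subset_adjoin E {x} (Set.mem_singleton x)
  obtain ⟨U, hU⟩ := eq_poly_of_pow (P := P * X ^ ((c.e - 1) * N)) hc hf.trans j
    (mul_mem hu (pow_mem hx N)) (by
      have he : c.e = (c.e - 1) + 1 := by have := hc.two; omega
      have e1 : x ^ (N * c.e) = x ^ N * x ^ ((c.e - 1) * N) := by
        rw [← pow_add]
        refine congrArg (fun k => x ^ k) ?_
        conv_lhs => rw [he]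
        ring
      rw [map_mul, map_pow, aeval_X, ← hP, h1, mul_pow, ← pow_mul, e1]
      ring)
  exact ⟨U, N, hU⟩

/-- PROOF. `reg E {x⁻¹} ⊆ reg E {x, x⁻¹}`, so `u * x ^ N = U₀(x)` (`comp_both`). `u ^ e * F_j(x) = P(x⁻¹)` (`mem_reg_inv`). Multiply by `x ^ (e N + deg P)`: `U₀ ^ e * F_j * X ^ (deg P) = X ^ (e N) * P.reverse`-like polynomial of degree
`≤ e N + deg P`; with `natDegree_Fx`: `deg U₀ + mm j ≤ N` (if `U₀ ≠ 0`). So `u * x ^ (mm j) = ∑ (U₀)_k (x⁻¹) ^ (N - mm j - k)`. -/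
theorem comp_inv (hf : IsFunctionField c.e c.poly x y) (hc : c.Ok) (j : ℕ) {u : L}
    (hu : u ∈ IntermediateField.adjoin E {x}) (h : u * yy c x y j ∈ reg E {x⁻¹}) :
    ∃ U : E[X], u * x ^ mm c j = aeval x⁻¹ U := by
  have hx0 : x ≠ 0 := x_ne_zero hf.trans
  obtain ⟨U₀, N, hU⟩ := comp_both hf hc j hu
    (F6_mono (Set.subset_insert _ _) h)
  by_cases hU0 : U₀ = 0
  · refine ⟨0, ?_⟩
    rw [hU0, map_zero] at hU
    have : u = 0 := (mul_eq_zero.mp hU).resolve_right (pow_ne_zero _ hx0)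
    rw [this, zero_mul, map_zero]
  have h1 : (u * yy c x y j) ^ c.e = u ^ c.e * aeval x (Fx c j) := by
    rw [mul_pow, yy_pow hf hc]
  have h2 : (u * yy c x y j) ^ c.e ∈ IntermediateField.adjoin E {x} := by
    rw [h1]
    exact mul_mem (pow_mem hu _) (F6_mem_adj _)
  have h3 : (u * yy c x y j) ^ c.e ∈ reg E {x⁻¹} := IsIntegral.pow h _
  obtain ⟨P, hP⟩ := mem_reg_inv hf.trans h2 h3
  have he : 0 < c.e := by have := hc.two; omega
  let _ : Invertible x := invertibleOfNonzero hx0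
  let _ : Invertible x⁻¹ := invertibleOfNonzero (inv_ne_zero hx0)
  have hinv : ⅟(x⁻¹ : L) = x := by rw [invOf_eq_inv, inv_inv]
  have hrev : aeval x P.reverse * (x⁻¹) ^ P.natDegree = aeval x⁻¹ P := by
    have := eval₂_reverse_mul_pow (algebraMap E L) (x⁻¹) P
    rw [hinv] at this
    exact this
  have h4 : U₀ ^ c.e * Fx c j * X ^ P.natDegree = X ^ (c.e * N) * P.reverse := by
    refine F6_inj hf.trans ?_
    have e2 : aeval x P.reverse = u ^ c.e * aeval x (Fx c j) * x ^ P.natDegree := by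
      rw [← h1, hP, ← hrev, mul_assoc, ← mul_pow, inv_mul_cancel₀ hx0, one_pow, mul_one]
    rw [map_mul, map_mul, map_mul, map_pow, map_pow, map_pow, aeval_X, ← hU, e2, mul_pow,
      ← pow_mul, mul_comm N c.e]
    ring
  have hF : (Fx c j).Monic := monic_gg _ _
  have hdeg : U₀.natDegree + mm c j ≤ N := by
    have e3 : (U₀ ^ c.e * Fx c j * X ^ P.natDegree).natDegree
        = c.e * U₀.natDegree + c.e * mm c j + P.natDegree := by
      rw [natDegree_mul (mul_ne_zero (pow_ne_zero _ hU0) hF.ne_zero) (pow_ne_zero _ X_ne_zero),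
        natDegree_mul (pow_ne_zero _ hU0) hF.ne_zero, natDegree_pow, natDegree_Fx c hc,
        natDegree_X_pow]
    have e4 : (X ^ (c.e * N) * P.reverse).natDegree ≤ c.e * N + P.natDegree := by
      refine natDegree_mul_le.trans ?_
      rw [natDegree_X_pow]
      exact Nat.add_le_add_left (reverse_natDegree_le P) _
    rw [← h4, e3] at e4
    have e5 : c.e * (U₀.natDegree + mm c j) ≤ c.e * N := by
      rw [mul_add]
      omega
    exact Nat.le_of_mul_le_mul_left e5 he
  refine ⟨reflect (N - mm c j) U₀, ?_⟩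
  have h5 : aeval x⁻¹ (reflect (N - mm c j) U₀) * x ^ (N - mm c j) = aeval x U₀ := by
    have := eval₂_reflect_mul_pow (algebraMap E L) x (N - mm c j) U₀ (by omega)
    rw [invOf_eq_inv] at this
    exact this
  refine mul_right_cancel₀ (pow_ne_zero (N - mm c j) hx0) ?_
  rw [h5, ← hU, mul_assoc, ← pow_add]
  refine congrArg (fun k => u * x ^ k) ?_
  omega

end MPadcCC
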