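import Pool.Agent.Lib.MP_adc574_ag_CC.F4
import Pool.Agent.Lib.MP_adc574_ag_CC.F6

/-!
# Leaf F12: normal forms of the regular functions
-/

set_option autoImplicit false

namespace MPadcCC

open Polynomial

universe u

variable {E L : Type u} [Field E] [Field L] [Algebra E L] {c : Cover E} {x y : L}

/-- all the components of a regular function are regular -/
private theorem F12_comp (hf : IsFunctionField c.e c.poly x y) (hc : c.Ok) (he : (c.e : E) ≠ 0)
    {ζ : E} (hζ : IsPrimitiveRoot ζ c.e) (S : Set L)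
    (hS : ∀ s ∈ S, s ∈ IntermediateField.adjoin E {x}) {f : L} (h : f ∈ reg E S) :
    ∃ u : ℕ → L, (∀ j, u j ∈ IntermediateField.adjoin E {x}) ∧
      (f = ∑ j ∈ Finset.range c.e, u j * yy c x y j) ∧
      ∀ j < c.e, u j * yy c x y j ∈ reg E S := by
  obtain ⟨u, hu, hfu⟩ := yy_exists hf hc f
  refine ⟨u, hu, hfu, ?_⟩
  exact reg_component hf hc he hζ S hS u hu (hfu ▸ h)

/-- Normal forms. PROOF. `yy_exists`, `reg_component`, `comp_x`, `comp_inv` (multiply by `(x ^ mm)⁻¹`), `comp_both`; in the last one take the same `N` for all the `j < e`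
(`u_j * x ^ (N_j) = U_j(x)` implies `u_j * x ^ N = (U_j X ^ (N - N_j))(x)` for `N = ∑ N_j`). -/
theorem normal_x (hf : IsFunctionField c.e c.poly x y) (hc : c.Ok) (he : (c.e : E) ≠ 0) {ζ : E}
    (hζ : IsPrimitiveRoot ζ c.e) {f : L} (h : f ∈ reg E {x}) :
    ∃ U : ℕ → E[X], f = ∑ j ∈ Finset.range c.e, aeval x (U j) * yy c x y j := by
  classical
  obtain ⟨u, hu, hfu, hr⟩ := F12_comp hf hc he hζ {x} (by
    intro s hs
    rw [Set.mem_singleton_iff] at hs
    rw [hs]
    exact IntermediateField.mem_adjoin_simple_self E x) h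
  have h1 : ∀ j, ∃ U : E[X], j < c.e → u j = aeval x U := by
    intro j
    by_cases hj : j < c.e
    · obtain ⟨U, hU⟩ := comp_x hf hc j (hu j) (hr j hj)
      exact ⟨U, fun _ => hU⟩
    · exact ⟨0, fun h => absurd h hj⟩
  choose U hU using h1
  refine ⟨U, ?_⟩
  rw [hfu]
  refine Finset.sum_congr rfl fun j hj => ?_
  rw [hU j (Finset.mem_range.1 hj)]

theorem normal_inv (hf : IsFunctionField c.e c.poly x y) (hc : c.Ok) (he : (c.e : E) ≠ 0) {ζ : E}
    (hζ : IsPrimitiveRoot ζ c.e) {f : L} (h : f ∈ reg E {x⁻¹}) :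
    ∃ U : ℕ → E[X],
      f = ∑ j ∈ Finset.range c.e, aeval x⁻¹ (U j) * (x ^ mm c j)⁻¹ * yy c x y j := by
  classical
  have hx0 : x ≠ 0 := x_ne_zero hf.trans
  obtain ⟨u, hu, hfu, hr⟩ := F12_comp hf hc he hζ {x⁻¹} (by
    intro s hs
    rw [Set.mem_singleton_iff] at hs
    rw [hs]
    exact inv_mem (IntermediateField.mem_adjoin_simple_self E x)) h
  have h1 : ∀ j, ∃ U : E[X], j < c.e → u j = aeval x⁻¹ U * (x ^ mm c j)⁻¹ := by
    intro j
    by_cases hj : j < c.e
    · obtain ⟨U, hU⟩ := comp_inv hf hc j (hu j) (hr j hj)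
      exact ⟨U, fun _ => by rw [← hU, mul_inv_cancel_right₀ (pow_ne_zero _ hx0)]⟩
    · exact ⟨0, fun h => absurd h hj⟩
  choose U hU using h1
  refine ⟨U, ?_⟩
  rw [hfu]
  refine Finset.sum_congr rfl fun j hj => ?_
  rw [hU j (Finset.mem_range.1 hj)]

theorem normal_both (hf : IsFunctionField c.e c.poly x y) (hc : c.Ok) (he : (c.e : E) ≠ 0)
    {ζ : E} (hζ : IsPrimitiveRoot ζ c.e) {f : L} (h : f ∈ reg E {x, x⁻¹}) :
    ∃ (U : ℕ → E[X]) (N : ℕ),
      f = ∑ j ∈ Finset.range c.e, aeval x (U j) * (x ^ N)⁻¹ * yy c x y j := by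
  classical
  have hx0 : x ≠ 0 := x_ne_zero hf.trans
  obtain ⟨u, hu, hfu, hr⟩ := F12_comp hf hc he hζ {x, x⁻¹} (by
    intro s hs
    have hxm : x ∈ IntermediateField.adjoin E {x} := IntermediateField.mem_adjoin_simple_self E x
    rcases hs with rfl | hs
    · exact hxm
    · rw [Set.mem_singleton_iff] at hs
      rw [hs]
      exact inv_mem hxm) h
  have h1 : ∀ j, ∃ (U : E[X]) (N : ℕ), j < c.e → u j * x ^ N = aeval x U := by
    intro j
    by_cases hj : j < c.e
    · obtain ⟨U, N, hU⟩ := comp_both hf hc j (hu j) (hr j hj)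
      exact ⟨U, N, fun _ => hU⟩
    · exact ⟨0, 0, fun h => absurd h hj⟩
  choose U N hU using h1
  refine ⟨fun j => U j * X ^ ((∑ i ∈ Finset.range c.e, N i) - N j),
    ∑ i ∈ Finset.range c.e, N i, ?_⟩
  rw [hfu]
  refine Finset.sum_congr rfl fun j hj => ?_
  have hle : N j ≤ ∑ i ∈ Finset.range c.e, N i :=
    Finset.single_le_sum (f := N) (fun _ _ => Nat.zero_le _) hj
  congr 1
  rw [map_mul, map_pow, aeval_X, ← hU j (Finset.mem_range.1 hj), mul_assoc (u j), ← pow_add,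
    Nat.add_sub_cancel' hle, mul_inv_cancel_right₀ (pow_ne_zero _ hx0)]

end MPadcCC
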