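import Pool.Agent.Lib.MP_adc574_ag_CC.F3

/-!
# Leaf F9: the differential of `u(x) yy_j`
-/

set_option autoImplicit false

namespace MPadcCC

open Polynomial

universe u

variable {E L : Type u} [Field E] [Field L] [Algebra E L] {c : Cover E} {x y : L}

/-- PROOF. `Derivation.leibniz_pow`, `(p : L) = 0`. -/
theorem D_pow_p {p : ℕ} [Fact p.Prime] [CharP E p] (w : L) :
    KaehlerDifferential.D E L (w ^ p) = 0 := by
  have hc : CharP L p := charP_of_injective_algebraMap (algebraMap E L).injective p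
  rw [Derivation.leibniz_pow, ← Nat.cast_smul_eq_nsmul L, CharP.cast_eq_zero, zero_smul]

/-- PROOF. With `yy_eq`: `(x ^ (p N))⁻¹ * P(x) * yy_j = w ^ p * S(x)`, `w = (x ^ N * yy_(e-j))⁻¹`, `S = P * R_j * F_(e-j) ^ M`. `Derivation.leibniz`, `D_pow_p`, and `D (aeval x S) = aeval x (derivative S) • D x` (`Derivation.map_aeval`). -/
theorem D_term {p : ℕ} [Fact p.Prime] [CharP E p] (hf : IsFunctionField c.e c.poly x y)
    (hc : c.Ok) {M : ℕ} (hp : p = c.e * M + 1) (j : ℕ) (hj : j ≤ c.e) (P : E[X]) (N : ℕ) :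
    KaehlerDifferential.D E L ((x ^ (p * N))⁻¹ * aeval x P * yy c x y j) =
      ((x ^ (p * N))⁻¹ * ((yy c x y (c.e - j) ^ p)⁻¹ *
        aeval x (derivative (P * Rx c j * Fx c (c.e - j) ^ M)))) • KaehlerDifferential.D E L x := by
  have h1 : (x ^ (p * N))⁻¹ * aeval x P * yy c x y j =
      ((x ^ N * yy c x y (c.e - j))⁻¹) ^ p * aeval x (P * Rx c j * Fx c (c.e - j) ^ M) := by
    rw [yy_eq hf hc j M hj, ← hp, map_mul (aeval x) (P * Rx c j), map_mul (aeval x) P,
      map_mul (aeval x) (Rx c j), inv_pow, mul_pow, ← pow_mul, mul_comm N p, mul_inv]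
    ring
  rw [h1, Derivation.leibniz, D_pow_p, smul_zero, add_zero, Derivation.map_aeval, smul_smul]
  congr 1
  rw [inv_pow, mul_pow, ← pow_mul, mul_comm N p, mul_inv, mul_assoc]

/-- PROOF. `(yy_(e-j) ^ p)⁻¹ = yy_j ^ p / R_j(x) ^ p = F_j(x) ^ M / R_j(x) ^ p * yy_j` (`yy_mul`, `yy_pow_p`). So the sum is `∑ u_j yy_j` with `u_j = T_j(x) F_j(x) ^ M / R_j(x) ^ p ∈ E(x)`: `yy_unique`, `aeval_ne_zero`. -/
theorem indep_term (hf : IsFunctionField c.e c.poly x y) (hc : c.Ok) (M : ℕ) (T : ℕ → E[X])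
    (h : ∑ j ∈ Finset.range c.e, (yy c x y (c.e - j) ^ (c.e * M + 1))⁻¹ * aeval x (T j) = 0) :
    ∀ j < c.e, T j = 0 := by
  have hmem : ∀ P : E[X], aeval x P ∈ IntermediateField.adjoin E {x} := fun P =>
    IntermediateField.algebra_adjoin_le_adjoin E {x} (aeval_mem_adjoin_singleton E x)
  let u : ℕ → L := fun j => aeval x (T j) * (aeval x (Fx c j ^ M) *
    (aeval x (Rx c j) ^ (c.e * M + 1))⁻¹)
  have hu : ∀ j < c.e, u j ∈ IntermediateField.adjoin E {x} := fun j _ =>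
    mul_mem (hmem _) (mul_mem (hmem _) (inv_mem (pow_mem (hmem _) _)))
  have hsum : ∑ j ∈ Finset.range c.e, u j * yy c x y j = 0 := by
    rw [← h]
    refine Finset.sum_congr rfl fun j hj => ?_
    have hj' : j ≤ c.e := (Finset.mem_range.1 hj).le
    have h1 : yy c x y (c.e - j) ≠ 0 := yy_ne_zero hf hc _
    have h2 : yy c x y j ≠ 0 := yy_ne_zero hf hc j
    have h3 := yy_pow_p hf hc j M
    show aeval x (T j) * (aeval x (Fx c j ^ M) * (aeval x (Rx c j) ^ (c.e * M + 1))⁻¹) *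
      yy c x y j = _
    rw [← yy_mul hf hc j hj', mul_pow, mul_inv]
    have h4 : aeval x (T j) * (aeval x (Fx c j ^ M) * ((yy c x y j ^ (c.e * M + 1))⁻¹ *
        (yy c x y (c.e - j) ^ (c.e * M + 1))⁻¹)) * yy c x y j =
        (aeval x (Fx c j ^ M) * yy c x y j) * (yy c x y j ^ (c.e * M + 1))⁻¹ *
          ((yy c x y (c.e - j) ^ (c.e * M + 1))⁻¹ * aeval x (T j)) := by
      ring
    rw [h4, ← h3, mul_inv_cancel₀ (pow_ne_zero _ h2), one_mul]
  intro j hj
  have h5 := yy_unique hf hc u hu hsum j hj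
  by_contra hT
  refine mul_ne_zero (aeval_ne_zero hf.trans hT) (mul_ne_zero ?_ (inv_ne_zero (pow_ne_zero _ ?_))) h5
  · rw [map_pow]
    exact pow_ne_zero _ (aeval_Fx_ne_zero hf.trans j)
  · exact aeval_Rx_ne_zero hf.trans j

end MPadcCC
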