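import Pool.Agent.Lib.MP_adc574_ag_CC.F7
import Pool.Agent.Lib.MP_adc574_ag_CC.F9
import Pool.Agent.Lib.MP_adc574_ag_CC.F11
import Pool.Agent.Lib.MP_adc574_ag_CC.F12

/-!
# Leaf F13: `H ^ 1 (X, B) = 0`
-/

set_option autoImplicit false

namespace MPadcCC

open Polynomial

universe u

/-- PROOF. `f = ∑ P_j(x) (x ^ N)⁻¹ yy_j` (`normal_both`). For every `j < e`: `span_core` with `m = mm j`, `G = F_j ^ M` (for `j = 0`: `mm 0 = 0`, the determinant of an empty matrix is `1`): `P_j(x) (x ^ N)⁻¹ = A_j(x) + B_j(x⁻¹) (x ^ (mm j))⁻¹ + s_j(x⁻¹) ^ p F_j(x) ^ M`,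
and `s ^ p * F_j(x) ^ M * yy_j = (s * yy_j) ^ p` (`yy_pow_p`), whose differential is zero (`D_pow_p`). `g = ∑ A_j(x) yy_j ∈ reg E {x}`, `h = ∑ B_j(x⁻¹) (x ^ (mm j))⁻¹ yy_j ∈ reg E {x⁻¹}` (`reg_sum`, `mem_reg_x_of`, `mem_reg_inv_of`). -/
theorem H1_of {E L : Type u} [Field E] [Field L] [Algebra E L] {c : Cover E} {x y : L} {p : ℕ}
    [Fact p.Prime] [CharP E p] (hE : ∀ a : E, ∃ b : E, b ^ p = a)
    (hf : IsFunctionField c.e c.poly x y) (hc : c.Ok) {M : ℕ} (hp : p = c.e * M + 1)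
    (hm : ∀ j < c.e, mm c j ≤ p)
    (hd : ∀ j, 0 < j → j < c.e → (hw p (mm c j) (Fx c j ^ M)).det ≠ 0) {f : L}
    (h : f ∈ reg E {x, x⁻¹}) :
    ∃ g ∈ reg E {x}, ∃ h ∈ reg E {x⁻¹}, KaehlerDifferential.D E L f =
      KaehlerDifferential.D E L g + KaehlerDifferential.D E L h := by
  classical
  have hpp : p.Prime := Fact.out
  have he2 : 2 ≤ c.e := hc.two
  have hM : 0 < M := by
    rcases Nat.eq_zero_or_pos M with h0 | h0
    · subst h0
      rw [mul_zero, zero_add] at hp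
      exact absurd hp hpp.one_lt.ne'
    · exact h0
  have hep : c.e < p := by
    rw [hp]
    exact Nat.lt_succ_of_le (Nat.le_mul_of_pos_right _ hM)
  have he : (c.e : E) ≠ 0 := by
    intro h0
    have h1 : p ∣ c.e := (CharP.cast_eq_zero_iff E p c.e).1 h0
    exact absurd (Nat.le_of_dvd (by omega) h1) (by omega)
  obtain ⟨ζ, hζ⟩ : ∃ ζ : E, IsPrimitiveRoot ζ c.e := exists_primitive hp (by omega)
  obtain ⟨U, N, hU⟩ := normal_both hf hc he hζ h
  have hx : x ≠ 0 := x_ne_zero hf.trans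
  have key : ∀ j : ℕ, j < c.e → ∃ A B s : E[X], aeval x (U j) * (x ^ N)⁻¹ =
      aeval x A + aeval x⁻¹ B * (x ^ mm c j)⁻¹ + (aeval x⁻¹ s) ^ p * aeval x (Fx c j ^ M) := by
    intro j hj
    refine span_core hE hx (mm c j) (hm j hj) (Fx c j ^ M) ?_ (U j) N
    rcases Nat.eq_zero_or_pos j with h0 | h0
    · subst h0
      have : IsEmpty (Fin (mm c 0 - 1)) := by
        rw [mm_zero]
        exact Fin.isEmpty
      rw [Matrix.det_isEmpty]
      exact one_ne_zero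
    · exact hd j h0 hj
  choose! A B s hABs using key
  refine ⟨∑ j ∈ Finset.range c.e, aeval x (A j) * yy c x y j,
    reg_sum _ _ fun j _ => mem_reg_x_of hf hc j (A j),
    ∑ j ∈ Finset.range c.e, aeval x⁻¹ (B j) * (x ^ mm c j)⁻¹ * yy c x y j,
    reg_sum _ _ fun j _ => mem_reg_inv_of hf hc j (B j), ?_⟩
  have hsum : f = (∑ j ∈ Finset.range c.e, aeval x (A j) * yy c x y j) +
      (∑ j ∈ Finset.range c.e, aeval x⁻¹ (B j) * (x ^ mm c j)⁻¹ * yy c x y j) +
      ∑ j ∈ Finset.range c.e, (aeval x⁻¹ (s j) * yy c x y j) ^ p := by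
    rw [hU, ← Finset.sum_add_distrib, ← Finset.sum_add_distrib]
    refine Finset.sum_congr rfl fun j hj => ?_
    rw [hABs j (Finset.mem_range.1 hj)]
    have h1 : yy c x y j ^ p = aeval x (Fx c j ^ M) * yy c x y j := by
      have h2 := yy_pow_p hf hc j M
      rw [← hp] at h2
      exact h2
    rw [mul_pow, h1]
    ring
  rw [hsum, map_add, map_add]
  have hzero : KaehlerDifferential.D E L
      (∑ j ∈ Finset.range c.e, (aeval x⁻¹ (s j) * yy c x y j) ^ p) = 0 := by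
    rw [map_sum]
    exact Finset.sum_eq_zero fun j _ => D_pow_p _
  rw [hzero, add_zero]

end MPadcCC
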