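import Pool.Agent.Lib.MP_adc574_ag_CC.F2

/-!
# Leaf F3: the basis `yy_j` and the automorphisms
-/

set_option autoImplicit false

namespace MPadcCC

open Polynomial

universe u

variable {E L : Type u} [Field E] [Field L] [Algebra E L] {c : Cover E} {x y : L}

private theorem F3_mem (x : L) (P : E[X]) : aeval x P ∈ IntermediateField.adjoin E {x} := by
  have h1 : aeval x P ∈ Algebra.adjoin E {x} := Polynomial.aeval_mem_adjoin_singleton E x
  exact IntermediateField.algebra_adjoin_le_adjoin E {x} h1

private theorem F3_int (hf : IsFunctionField c.e c.poly x y) (hc : c.Ok) :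
    IsIntegral (IntermediateField.adjoin E {x}) y := by
  by_contra h
  have h1 := natDegree_minpoly_y hf hc
  rw [minpoly.eq_zero h, natDegree_zero] at h1
  have h2 := hc.two
  omega

private theorem F3_indep (hf : IsFunctionField c.e c.poly x y) (hc : c.Ok)
    (v : ℕ → IntermediateField.adjoin E {x})
    (h : ∑ j ∈ Finset.range c.e, (v j : L) * y ^ j = 0) : ∀ j < c.e, v j = 0 := by
  obtain ⟨p, hp⟩ : ∃ p : (IntermediateField.adjoin E {x})[X],
      p = ∑ j : Fin c.e, C (v j) * X ^ (j : ℕ) := ⟨_, rfl⟩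
  have hp0 : p = 0 := by
    by_contra hne
    have h1 : aeval y p = 0 := by
      rw [hp, map_sum, ← h, Finset.sum_range fun j => (v j : L) * y ^ j]
      refine Finset.sum_congr rfl fun j _ => ?_
      rw [map_mul, aeval_C, map_pow, aeval_X]
      rfl
    have h2 := minpoly.degree_le_of_ne_zero (IntermediateField.adjoin E {x}) y hne h1
    have h3 : p.degree < c.e := by
      rw [hp]
      exact degree_sum_fin_lt _
    rw [degree_eq_natDegree (minpoly.ne_zero (F3_int hf hc)), natDegree_minpoly_y hf hc] at h2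
    exact absurd h3 (not_lt.2 h2)
  intro j hj
  have h4 : p.coeff j = v j := by
    rw [hp, finsetSum_coeff, Finset.sum_eq_single (⟨j, hj⟩ : Fin c.e)]
    · rw [coeff_C_mul_X_pow, if_pos rfl]
    · intro i _ hi
      rw [coeff_C_mul_X_pow, if_neg fun h => hi (Fin.ext h.symm)]
    · intro h
      exact absurd (Finset.mem_univ _) h
  rw [← h4, hp0, coeff_zero]

private theorem F3_top (hf : IsFunctionField c.e c.poly x y) (hc : c.Ok) :
    Algebra.adjoin (IntermediateField.adjoin E {x}) {y} = ⊤ := by
  have h1 : IntermediateField.adjoin (IntermediateField.adjoin E {x}) {y} = ⊤ := by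
    have h2 := IntermediateField.adjoin_adjoin_left E {x} ({y} : Set L)
    have h3 : ({x} : Set L) ∪ {y} = {x, y} := rfl
    rw [h3, hf.gen] at h2
    rw [eq_top_iff]
    intro z _
    have h4 : z ∈ (⊤ : IntermediateField E L) := IntermediateField.mem_top
    rw [← h2] at h4
    exact h4
  have h5 := IntermediateField.adjoin_simple_toSubalgebra_of_isAlgebraic (F3_int hf hc).isAlgebraic
  rw [h1, IntermediateField.top_toSubalgebra] at h5
  exact h5.symm

/-- PROOF. `natDegree_minpoly_y`: `1, y, …, y ^ (e - 1)` are independent over `E(x)` (a relation of degree `< e` for `y` is divisible by the minimal polynomial: `minpoly.dvd`, or `PowerBasis`); `yy_j = y ^ j / Q_j(x)`. -/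
theorem yy_unique (hf : IsFunctionField c.e c.poly x y) (hc : c.Ok) (u : ℕ → L)
    (hu : ∀ j < c.e, u j ∈ IntermediateField.adjoin E {x})
    (h : ∑ j ∈ Finset.range c.e, u j * yy c x y j = 0) : ∀ j < c.e, u j = 0 := by
  classical
  have hQ : ∀ j, aeval x (Qx c j) ≠ 0 := aeval_Qx_ne_zero hf.trans
  intro j hj
  have h1 := F3_indep hf hc
    (fun j => if hj : j < c.e then ⟨u j / aeval x (Qx c j), div_mem (hu j hj) (F3_mem x _)⟩ else 0) (by
      rw [← h]
      refine Finset.sum_congr rfl fun j hj => ?_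
      rw [dif_pos (Finset.mem_range.1 hj)]
      show u j / aeval x (Qx c j) * y ^ j = u j * (y ^ j / aeval x (Qx c j))
      rw [div_mul_eq_mul_div, mul_div_assoc]) j hj
  rw [dif_pos hj] at h1
  have h2 : u j / aeval x (Qx c j) = 0 := congrArg Subtype.val h1
  exact (div_eq_zero_iff.1 h2).resolve_right (hQ j)

/-- PROOF. `L = E(x)(y)` (`hf.gen`, `IntermediateField.adjoin_adjoin_left`) and `y` is integral over `E(x)`: the power basis `IntermediateField.adjoin.powerBasis` of dimension `e` (`natDegree_minpoly_y`). -/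
theorem yy_exists (hf : IsFunctionField c.e c.poly x y) (hc : c.Ok) (f : L) :
    ∃ u : ℕ → L, (∀ j, u j ∈ IntermediateField.adjoin E {x}) ∧
      f = ∑ j ∈ Finset.range c.e, u j * yy c x y j := by
  have hQ : ∀ j, aeval x (Qx c j) ≠ 0 := aeval_Qx_ne_zero hf.trans
  have h1 : f ∈ Algebra.adjoin (IntermediateField.adjoin E {x}) {y} := by
    rw [F3_top hf hc]
    exact Algebra.mem_top
  rw [Algebra.adjoin_singleton_eq_range_aeval] at h1
  obtain ⟨P, hP⟩ := h1
  have hm := minpoly.monic (F3_int hf hc)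
  obtain ⟨r, hr⟩ : ∃ r, r = P %ₘ minpoly (IntermediateField.adjoin E {x}) y := ⟨_, rfl⟩
  have h2 : aeval y r = f := by
    rw [hr, aeval_modByMonic_eq_self_of_root (minpoly.aeval _ _)]
    exact hP
  have h3 : r.natDegree < c.e := by
    rw [hr, ← natDegree_minpoly_y hf hc]
    refine natDegree_modByMonic_lt _ hm ?_
    intro h4
    have h5 := natDegree_minpoly_y hf hc
    rw [h4, natDegree_one] at h5
    have h6 := hc.two
    omega
  refine ⟨fun j => (r.coeff j : L) * aeval x (Qx c j), fun j => mul_mem (r.coeff j).2 (F3_mem x _), ?_⟩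
  rw [← h2, aeval_eq_sum_range' h3]
  refine Finset.sum_congr rfl fun j _ => ?_
  rw [yy, mul_assoc, mul_div_cancel₀ _ (hQ j)]
  rfl

/-- PROOF. `ζ y` is also a root of the minimal polynomial `Y ^ e - c.poly(x)` of `y` over `E(x)` (it is monic of degree `e` and kills `y`, `natDegree_minpoly_y`): `PowerBasis.lift` or `IntermediateField.adjoinRootEquivAdjoin`. -/
theorem exists_aut (hf : IsFunctionField c.e c.poly x y) (hc : c.Ok) (ζ : E)
    (hζ : ζ ^ c.e = 1) :
    ∃ σ : L →ₐ[E] L, (∀ f ∈ IntermediateField.adjoin E {x}, σ f = f) ∧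
      σ y = algebraMap E L ζ * y := by
  obtain ⟨K, hK⟩ : ∃ K : IntermediateField E L, K = IntermediateField.adjoin E {x} := ⟨_, rfl⟩
  have hint := F3_int hf hc
  have htop := F3_top hf hc
  have hdeg := natDegree_minpoly_y hf hc
  have hmem := F3_mem x c.poly
  rw [← hK] at hint htop hdeg hmem ⊢
  have he : c.e ≠ 0 := by
    have := hc.two
    omega
  -- the minimal polynomial of `y`
  have hmp : X ^ c.e - C ⟨aeval x c.poly, hmem⟩ = minpoly K y := by
    refine minpoly.unique_of_degree_le_degree_minpoly K y (monic_X_pow_sub_C _ he) ?_ ?_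
    · rw [map_sub, map_pow, aeval_X, aeval_C, hf.eq]
      exact sub_self _
    · rw [degree_X_pow_sub_C (Nat.pos_of_ne_zero he), degree_eq_natDegree (minpoly.ne_zero hint), hdeg]
  obtain ⟨pb, hpb⟩ : ∃ pb : PowerBasis K L, pb.gen = y :=
    ⟨PowerBasis.ofAdjoinEqTop hint htop, PowerBasis.ofAdjoinEqTop_gen hint htop⟩
  have h1 : aeval (algebraMap E L ζ * y) (minpoly K pb.gen) = 0 := by
    rw [hpb, ← hmp, map_sub, map_pow, aeval_X, aeval_C, mul_pow, ← map_pow, hζ, map_one, one_mul, hf.eq]
    exact sub_self _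
  refine ⟨(pb.lift _ h1).restrictScalars E, fun f hf => ?_, ?_⟩
  · exact (pb.lift _ h1).commutes ⟨f, hf⟩
  · have h2 := pb.lift_gen _ h1
    rw [hpb] at h2
    exact h2

end MPadcCC
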