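import Pool.Agent.Lib.MP_adc574_ag_CC.F7
import Pool.Agent.Lib.MP_adc574_ag_CC.F8
import Pool.Agent.Lib.MP_adc574_ag_CC.F9
import Pool.Agent.Lib.MP_adc574_ag_CC.F10
import Pool.Agent.Lib.MP_adc574_ag_CC.F12

/-!
# Leaf F14: `H ^ 0 (X, B) = 0`
-/

set_option autoImplicit false

namespace MPadcCC

open Polynomial

universe u

variable {E L : Type u} [Field E] [Field L] [Algebra E L] {c : Cover E} {x y : L}

private theorem F14_deriv {p : ℕ} [Fact p.Prime] [CharP E p] (N : ℕ) (S : E[X]) :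
    derivative (X ^ (p * N) * S) = X ^ (p * N) * derivative S := by
  rw [derivative_mul, derivative_X_pow]
  have h : ((p * N : ℕ) : E) = 0 := by
    rw [Nat.cast_mul, CharP.cast_eq_zero, zero_mul]
  rw [h, C_0, zero_mul, zero_mul, zero_add]

private theorem F14_poly {p : ℕ} [Fact p.Prime] [CharP E p] (hc : c.Ok) {M : ℕ} (hp : p = c.e * M + 1)
    (hI : ∀ j, 0 < j → j < c.e → Inj (mm c j) (Fx c j ^ M)) (j : ℕ) (hj : j < c.e) (N : ℕ) (A B : E[X])
    (hB : B.natDegree + mm c j ≤ p * N)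
    (hAB : derivative (X ^ (p * N) * A * Rx c j * Fx c (c.e - j) ^ M) -
      derivative (B * Rx c j * Fx c (c.e - j) ^ M) = 0) :
    derivative (A * Rx c j * Fx c (c.e - j) ^ M) = 0 := by
  have he : 0 < c.e := by have := hc.two; omega
  have hF : Fx c (c.e - j) ^ M = gg c.a fun i => M * ((c.e - j) * c.r i % c.e) := by
    rw [Fx, gg_pow]
  have hR : Rx c j = gg c.a fun i => if j * c.r i % c.e = 0 then 0 else 1 := rfl
  have hI' : Inj (mm c (c.e - j)) (gg c.a fun i => M * ((c.e - j) * c.r i % c.e)) := by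
    rw [← hF]
    rcases Nat.eq_zero_or_pos j with h0 | h0
    · subst h0
      rw [Nat.sub_zero, mm_e]
      exact inj_zero _
    · exact hI _ (by omega) (by omega)
  have h1 : ∀ i, (fun i => if j * c.r i % c.e = 0 then 0 else 1 : Fin (c.n + 1) → ℕ) i = 0 →
      (fun i => M * ((c.e - j) * c.r i % c.e) : Fin (c.n + 1) → ℕ) i = 0 := by
    intro i hi
    have h2 := mod_compl c.e (c.r i) j he hj.le
    by_cases h3 : j * c.r i % c.e = 0
    · rw [if_pos h3] at h2
      have h4 : (c.e - j) * c.r i % c.e = 0 := by omega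
      simp only [h4, mul_zero]
    · simp only [h3, if_false, one_ne_zero] at hi
  have h2 : ∑ i, (fun i => M * ((c.e - j) * c.r i % c.e) : Fin (c.n + 1) → ℕ) i = mm c (c.e - j) * (p - 1) := by
    simp only []
    rw [← Finset.mul_sum, sum_mod c hc (c.e - j), hp, Nat.add_sub_cancel]
    ring
  have h3 : ∑ i, (fun i => if j * c.r i % c.e = 0 then 0 else 1 : Fin (c.n + 1) → ℕ) i = mm c j + mm c (c.e - j) := by
    rw [← natDegree_Rx c hc j hj.le, hR, natDegree_gg]
  have h4 := H0_core (p := p) c.a (fun i => if j * c.r i % c.e = 0 then 0 else 1)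
    (fun i => M * ((c.e - j) * c.r i % c.e)) h1 (mm c (c.e - j)) N h2 hI' A B (by rw [h3]; omega) (by
      rw [← hR, ← hF, ← F14_deriv N, ← sub_eq_zero, ← hAB]
      simp only [mul_assoc])
  rw [hR, hF]
  exact h4

/-- PROOF. `f = ∑ A_j(x) yy_j`, `g = ∑ B_j(x⁻¹) x ^ (- mm j) yy_j`. Choose `N` with `deg B_j + mm j ≤ p N` for all `j < e` and `B'_j` with `B'_j(x) = x ^ (p N) * (B_j(x⁻¹) * (x ^ (mm j))⁻¹)` (`exists_reflect`). With
`D_term` (for `P = X ^ (p N) * A_j` and `P = B'_j`) `D f - D g = 0` gives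
`(∑_j (x ^ (p N))⁻¹ * (yy_(e-j) ^ p)⁻¹ * T_j(x)) • D x = 0`, `T_j = derivative (X ^ (p N) * A_j * R_j * G_j) - derivative (B'_j * R_j * G_j)`, `G_j = F_(e-j) ^ M`; `D x ≠ 0` and the differentials are a vector space over `L`, so the sum is zero,
so all `T_j = 0` (`indep_term`). `derivative (X ^ (p N) * S) = X ^ (p N) * derivative S` as `p = 0`. `H0_core` with `ρ i = if j r_i % e = 0 then 0 else 1`, `μ i = M * ((e - j) * r_i % e)` (`R_j = gg a ρ`, `F_(e-j) ^ M = gg a μ`: `gg_pow`), `m' = mm (e - j)`,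
`∑ μ = M * e * m' = m' (p - 1)` (`sum_mod`), `∑ ρ = natDegree R_j = mm j + mm (e - j)` (`natDegree_gg`, `natDegree_Rx`), `Inj`: `hI` for `0 < j`, `inj_zero` for `j = 0` (`mm e = 0`): `derivative (A_j * R_j * G_j) = 0` for all `j < e`. So `D f = 0` by `D_term` with `N = 0`. -/
theorem H0_of {p : ℕ} [Fact p.Prime] [CharP E p] (hf : IsFunctionField c.e c.poly x y)
    (hc : c.Ok) {M : ℕ} (hp : p = c.e * M + 1)
    (hI : ∀ j, 0 < j → j < c.e → Inj (mm c j) (Fx c j ^ M)) {f g : L} (h1 : f ∈ reg E {x})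
    (h2 : g ∈ reg E {x⁻¹})
    (h : KaehlerDifferential.D E L f = KaehlerDifferential.D E L g) :
    KaehlerDifferential.D E L f = 0 := by
  classical
  have he0 : (c.e : E) ≠ 0 := by
    intro h0
    have h3 : ((p : ℕ) : E) = 0 := CharP.cast_eq_zero E p
    rw [hp, Nat.cast_add, Nat.cast_mul, h0, zero_mul, zero_add, Nat.cast_one] at h3
    exact one_ne_zero h3
  have he : 0 < c.e := by have := hc.two; omega
  obtain ⟨ζ, hζ⟩ := exists_primitive (E := E) hp he
  obtain ⟨A, hA⟩ := normal_x hf hc he0 hζ h1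
  obtain ⟨B, hB⟩ := normal_inv hf hc he0 hζ h2
  have hx : x ≠ 0 := x_ne_zero hf.trans
  set N : ℕ := ∑ j ∈ Finset.range c.e, ((B j).natDegree + mm c j) with hN
  have hp1 : 1 ≤ p := (Fact.out : p.Prime).one_lt.le
  have hNj : ∀ j, j < c.e → (B j).natDegree + mm c j ≤ p * N := fun j hj => by
    have h3 : (B j).natDegree + mm c j ≤ N :=
      Finset.single_le_sum (f := fun j => (B j).natDegree + mm c j) (fun _ _ => Nat.zero_le _)
        (Finset.mem_range.2 hj)
    nlinarith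
  have hB' : ∀ j, ∃ B' : E[X], j < c.e → B'.natDegree + mm c j ≤ p * N ∧
      aeval x B' = x ^ (p * N) * (aeval x⁻¹ (B j) * (x ^ mm c j)⁻¹) := fun j => by
    by_cases hj : j < c.e
    · obtain ⟨B', h3⟩ := exists_reflect hx (B j) (mm c j) (p * N) (hNj j hj)
      exact ⟨B', fun _ => h3⟩
    · exact ⟨0, fun h => absurd h hj⟩
  choose B' hB' using hB'
  have hxN : x ^ (p * N) ≠ 0 := pow_ne_zero _ hx
  have hf1 : KaehlerDifferential.D E L f = ∑ j ∈ Finset.range c.e,
      ((x ^ (p * N))⁻¹ * ((yy c x y (c.e - j) ^ p)⁻¹ *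
        aeval x (derivative (X ^ (p * N) * A j * Rx c j * Fx c (c.e - j) ^ M)))) •
          KaehlerDifferential.D E L x := by
    rw [hA, map_sum]
    refine Finset.sum_congr rfl fun j hj => ?_
    have h7 : (x ^ (p * N))⁻¹ * aeval x (X ^ (p * N) * A j) = aeval x (A j) := by
      rw [aeval_mul, aeval_X_pow, inv_mul_cancel_left₀ hxN]
    rw [← D_term hf hc hp j (Finset.mem_range.1 hj).le (X ^ (p * N) * A j) N, h7]
  have hg1 : KaehlerDifferential.D E L g = ∑ j ∈ Finset.range c.e,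
      ((x ^ (p * N))⁻¹ * ((yy c x y (c.e - j) ^ p)⁻¹ *
        aeval x (derivative (B' j * Rx c j * Fx c (c.e - j) ^ M)))) •
          KaehlerDifferential.D E L x := by
    rw [hB, map_sum]
    refine Finset.sum_congr rfl fun j hj => ?_
    rw [← D_term hf hc hp j (Finset.mem_range.1 hj).le (B' j) N, (hB' j (Finset.mem_range.1 hj)).2,
      inv_mul_cancel_left₀ hxN]
  have hsum : ((x ^ (p * N))⁻¹ * ∑ j ∈ Finset.range c.e, (yy c x y (c.e - j) ^ (c.e * M + 1))⁻¹ *
      aeval x (derivative (X ^ (p * N) * A j * Rx c j * Fx c (c.e - j) ^ M) -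
        derivative (B' j * Rx c j * Fx c (c.e - j) ^ M))) • KaehlerDifferential.D E L x = 0 := by
    rw [← hp, Finset.mul_sum, Finset.sum_smul, ← sub_eq_zero.2 h, hf1, hg1, ← Finset.sum_sub_distrib]
    refine Finset.sum_congr rfl fun j _ => ?_
    rw [← sub_smul, map_sub]
    ring_nf
  have hsum' := (smul_eq_zero.1 hsum).resolve_right (D_x_ne_zero hf hc he0)
  have hT := indep_term hf hc M (fun j => derivative (X ^ (p * N) * A j * Rx c j * Fx c (c.e - j) ^ M) -
        derivative (B' j * Rx c j * Fx c (c.e - j) ^ M))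
        ((mul_eq_zero.1 hsum').resolve_left (inv_ne_zero hxN))
  rw [hA, map_sum]
  refine Finset.sum_eq_zero fun j hj => ?_
  have hj' := Finset.mem_range.1 hj
  have h5 := F14_poly hc hp hI j hj' N (A j) (B' j) (hB' j hj').1 (hT j hj')
  have h6 := D_term hf hc hp j hj'.le (A j) 0
  rw [h5, map_zero, Nat.mul_zero, pow_zero, inv_one, one_mul, one_mul, mul_zero, zero_smul] at h6
  exact h6

end MPadcCC
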