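import Pool.Agent.Lib.MP_adc574_ag_CC.Defs

/-!
# Leaf F15 (Mathlib and Defs only): existence of the function field
-/

set_option autoImplicit false

namespace MPadcCC

open Polynomial

universe u

/-- PROOF. In the algebraic closure `Ω` of `RatFunc E` let `x` be the variable and `y` a root of `Y ^ e = F(x)` (`IsAlgClosed.exists_pow_nat_eq`); `L = IntermediateField.adjoin E {x, y}`, a subfield of `Ω`, with the elements
`⟨x, _⟩`, `⟨y, _⟩`; `gen`: `IntermediateField.adjoin_...` of the generators inside the intermediate field is `⊤` (`IntermediateField.lift` / `restrict`, or `IntermediateField.adjoin_univ`-style: map to `Ω` and use `IntermediateField.adjoin_map`). -/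
theorem exists_functionField {E : Type u} [Field E] (e : ℕ) (he : 0 < e) (F : E[X]) :
    ∃ (L : Type u) (_ : Field L) (_ : Algebra E L) (x y : L), IsFunctionField e F x y := by
  let Ω : Type u := AlgebraicClosure (RatFunc E)
  let x₀ : Ω := algebraMap (RatFunc E) Ω RatFunc.X
  have hx₀ : Transcendental E x₀ :=
    (transcendental_algebraMap_iff (algebraMap (RatFunc E) Ω).injective).2 RatFunc.transcendental_X
  obtain ⟨y₀, hy₀⟩ := IsAlgClosed.exists_pow_nat_eq (aeval x₀ F) he
  let L : IntermediateField E Ω := IntermediateField.adjoin E {x₀, y₀}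
  have hx : x₀ ∈ L := IntermediateField.subset_adjoin E _ (Set.mem_insert _ _)
  have hy : y₀ ∈ L := IntermediateField.subset_adjoin E _ (Set.mem_insert_of_mem _ (Set.mem_singleton _))
  refine ⟨L, inferInstance, inferInstance, ⟨x₀, hx⟩, ⟨y₀, hy⟩, ?_, ?_, ?_⟩
  · rintro ⟨q, hq0, hq⟩
    refine hx₀ ⟨q, hq0, ?_⟩
    have h1 := congrArg L.val hq
    rwa [← aeval_algHom_apply, map_zero] at h1
  · have h1 : L.val ((⟨y₀, hy⟩ : L) ^ e) = L.val (aeval (⟨x₀, hx⟩ : L) F) := by
      rw [map_pow, ← aeval_algHom_apply]
      exact hy₀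
    exact L.val.injective h1
  · apply IntermediateField.lift_injective L
    rw [IntermediateField.lift_adjoin, IntermediateField.lift_top, Set.image_pair]

end MPadcCC
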