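import Pool.Agent.Lib.MP_adc574_ag_CC.F13
import Pool.Agent.Lib.MP_adc574_ag_CC.F14
import Pool.Agent.Lib.MP_adc574_ag_CC.F15

/-!
# Leaf F16: the criterion
-/

set_option autoImplicit false

namespace MPadcCC

open Polynomial

universe u

/-- PROOF. `mm j ≤ n + 1 ≤ p` as `∑ (j r_i mod e) ≤ (n + 1) (e - 1)`. `inj_of_det`. `E` is finite so the Frobenius is surjective (`frobenius` is injective on a finite set). `H0_of`, `H1_of`, `exists_functionField`. -/
theorem isOrdinary_of_det {E : Type u} [Field E] [Finite E] {p : ℕ} [Fact p.Prime] [CharP E p]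
    (c : Cover E) (hc : c.Ok) {M : ℕ} (hp : p = c.e * M + 1) (hn : c.n + 1 ≤ p)
    (hd : ∀ j, 0 < j → j < c.e → (hw p (mm c j) (Fx c j ^ M)).det ≠ 0) : c.IsOrdinary := by
  have he : 0 < c.e := lt_of_lt_of_le (by norm_num) hc.two
  have hmm : ∀ j, mm c j ≤ p := by
    intro j
    refine le_trans ?_ hn
    unfold mm
    have h1 : ∑ i, j * c.r i % c.e ≤ (c.n + 1) * c.e := by
      calc ∑ i, j * c.r i % c.e ≤ ∑ _i : Fin (c.n + 1), c.e :=
            Finset.sum_le_sum fun i _ => (Nat.mod_lt _ he).le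
        _ = (c.n + 1) * c.e := by simp
    exact Nat.div_le_of_le_mul (by rw [mul_comm]; exact h1)
  have hE : ∀ a : E, ∃ b : E, b ^ p = a := by
    intro a
    have hinj : Function.Injective (frobenius E p) := RingHom.injective _
    have hsurj : Function.Surjective (frobenius E p) := Finite.surjective_of_injective hinj
    obtain ⟨b, hb⟩ := hsurj a
    exact ⟨b, by simpa [frobenius_def] using hb⟩
  refine ⟨exists_functionField c.e he c.poly, ?_⟩
  intro L _ _ x y hf
  refine ⟨?_, ?_⟩
  · intro f h1 g h2 h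
    exact H0_of hf hc hp (fun j hj hje => inj_of_det (hmm j) _ (hd j hj hje)) h1 h2 h
  · intro f h
    exact H1_of hE hf hc hp (fun j _ => hmm j) hd h

end MPadcCC
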