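import Pool.Agent.Lib.MP_adc574_ag_CC.F1

/-!
# Leaf F2: `1, y, …, y ^ (e - 1)` are linearly independent over `E(x)`
-/

set_option autoImplicit false

namespace MPadcCC

open Polynomial

universe u

variable {E L : Type u} [Field E] [Field L] [Algebra E L]

private theorem F2_irr (e : ℕ) (he : 0 < e) (a : E) (G : E[X]) (hG : G.eval a ≠ 0) :
    Irreducible ((X : E[X][X]) ^ e - C ((X - C a) * G)) := by
  have hm : ((X : E[X][X]) ^ e - C ((X - C a) * G)).Monic := monic_X_pow_sub_C _ he.ne'
  have hd : ((X : E[X][X]) ^ e - C ((X - C a) * G)).degree = (e : WithBot ℕ) := degree_X_pow_sub_C he _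
  have hp : (Ideal.span {(X - C a : E[X])}).IsPrime :=
    (Ideal.span_singleton_prime (X_sub_C_ne_zero a)).2 (prime_X_sub_C a)
  refine irreducible_of_eisenstein_criterion hp ?_ ?_ ?_ ?_ hm.isPrimitive
  · rw [hm.leadingCoeff]
    exact fun h => hp.ne_top ((Ideal.eq_top_iff_one _).2 h)
  · intro n hn
    rw [hd] at hn
    have hn' : n < e := by exact_mod_cast hn
    rw [coeff_sub, coeff_X_pow, if_neg hn'.ne, zero_sub, coeff_C]
    split_ifs
    · exact neg_mem (Ideal.mem_span_singleton.2 (dvd_mul_right _ _))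
    · rw [neg_zero]
      exact zero_mem _
  · rw [hd]
    exact_mod_cast he
  · rw [coeff_sub, coeff_X_pow, if_neg he.ne, zero_sub, coeff_C_zero, Ideal.span_singleton_pow,
      Ideal.mem_span_singleton, dvd_neg, pow_two]
    intro h
    have h1 := (mul_dvd_mul_iff_left (X_sub_C_ne_zero a)).1 h
    exact hG (dvd_iff_isRoot.1 h1)

private theorem F2_map (x : L) (g : E[X]) :
    algebraMap (IntermediateField.adjoin E {x}) L (aeval (IntermediateField.AdjoinSimple.gen E x) g) =
      aeval x g := by
  rw [← aeval_algebraMap_apply, IntermediateField.AdjoinSimple.algebraMap_gen]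

/-- The minimal polynomial of `z` with `z ^ e = (x - a) G(x)`, `G(a) ≠ 0`, over `E(x)` has degree `e`.
PROOF. `Z ^ e - (X - C a) * G` over `E[X]` is monic and Eisenstein at the prime ideal generated by `X - C a` (`(X - C a) ^ 2` does not divide `(X - C a) * G`), so irreducible
(`Polynomial.IsEisensteinAt.irreducible`), so irreducible over `FractionRing E[X] = RatFunc E` (`Polynomial.Monic.irreducible_iff_irreducible_map_fraction_map`), transport to
`IntermediateField.adjoin E {x}` with `RatFunc.algEquivOfTranscendental` (Mathlib/FieldTheory/RatFunc/AsPolynomial.lean; or show that `adjoin E {x}` is a fraction ring of `E[X]`); `minpoly.eq_of_irreducible_of_monic`. -/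
theorem natDegree_minpoly {x z : L} (hx : Transcendental E x) (e : ℕ) (he : 0 < e) (a : E)
    (G : E[X]) (hG : G.eval a ≠ 0) (hz : z ^ e = aeval x ((X - C a) * G)) :
    (minpoly (IntermediateField.adjoin E {x}) z).natDegree = e := by
  have h1 := F2_irr e he a G hG
  have hm : ((X : E[X][X]) ^ e - C ((X - C a) * G)).Monic := monic_X_pow_sub_C _ he.ne'
  have h2 : Irreducible (((X : E[X][X]) ^ e - C ((X - C a) * G)).map (algebraMap E[X] (RatFunc E))) :=
    (hm.irreducible_iff_irreducible_map_fraction_map).1 h1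
  have h3 := (MulEquiv.irreducible_iff (Polynomial.mapEquiv
    (RatFunc.algEquivOfTranscendental x hx).toRingEquiv)).2 h2
  have h4 : Polynomial.mapEquiv (RatFunc.algEquivOfTranscendental x hx).toRingEquiv
      (((X : E[X][X]) ^ e - C ((X - C a) * G)).map (algebraMap E[X] (RatFunc E))) =
      X ^ e - C (aeval (IntermediateField.AdjoinSimple.gen E x) ((X - C a) * G)) := by
    rw [Polynomial.mapEquiv_apply, Polynomial.map_sub, Polynomial.map_sub, Polynomial.map_pow,
      Polynomial.map_pow, Polynomial.map_X, Polynomial.map_X, Polynomial.map_C, Polynomial.map_C]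
    congr 2
    exact RatFunc.algEquivOfTranscendental_algebraMap x hx _
  rw [h4] at h3
  have h5 := minpoly.eq_of_irreducible_of_monic h3 (x := z) (by
    rw [map_sub, map_pow, aeval_X, aeval_C, F2_map, hz, sub_self]) (monic_X_pow_sub_C _ he.ne')
  rw [← h5, natDegree_X_pow_sub_C]

/-- The minimal polynomial of `y` over `E(x)` has degree `e`. PROOF. Choose `s r_0 = 1 + v e` with `s > 0` (`r_0` is coprime to `e`: `Nat.exists_mul_emod_eq_one_of_coprime`),
`z = y ^ s / (x - a_0) ^ v`, `z ^ e = (x - a_0) * (∏_(i > 0) (x - a_i) ^ r_i) ^ s`; `natDegree_minpoly`. `z ∈ E(x)(y)` so `e ≤ [E(x)(y) : E(x)]` = the degree of the minimal polynomial of `y`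
(`IntermediateField.adjoin.finrank`, `finrank` of a subspace), which is at most `e` because `Y ^ e - c.poly(x)` kills `y`. -/
theorem natDegree_minpoly_y {c : Cover E} {x y : L} (hf : IsFunctionField c.e c.poly x y)
    (hc : c.Ok) : (minpoly (IntermediateField.adjoin E {x}) y).natDegree = c.e := by
  have he : 0 < c.e := by
    have := hc.two
    omega
  have hx := hf.trans
  -- the polynomial without its first factor
  obtain ⟨Q, hQ⟩ : ∃ Q : E[X], Q = ∏ i : Fin c.n, (X - C (c.a i.succ)) ^ c.r i.succ := ⟨_, rfl⟩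
  have hpoly : c.poly = (X - C (c.a 0)) ^ c.r 0 * Q := by
    rw [Cover.poly, Fin.prod_univ_succ, hQ]
  have hQa : Q.eval (c.a 0) ≠ 0 := by
    rw [hQ, eval_prod]
    refine Finset.prod_ne_zero_iff.2 fun i _ => ?_
    rw [eval_pow, eval_sub, eval_X, eval_C]
    refine pow_ne_zero _ (sub_ne_zero.2 fun h => ?_)
    exact (Fin.succ_ne_zero i) (hc.inj h).symm
  -- the exponents
  obtain ⟨s, -, hs⟩ := Nat.exists_mul_mod_eq_one_of_coprime hc.cop hc.two
  have hv : c.r 0 * s = c.e * (c.r 0 * s / c.e) + 1 := by
    have := Nat.div_add_mod (c.r 0 * s) c.e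
    omega
  generalize c.r 0 * s / c.e = v at hv
  obtain ⟨t, ht⟩ : ∃ t : L, t = aeval x (X - C (c.a 0)) := ⟨_, rfl⟩
  have ht0 : t ≠ 0 := by
    rw [ht]
    exact aeval_ne_zero hx (X_sub_C_ne_zero _)
  have hz : (y ^ s / t ^ v) ^ c.e = aeval x ((X - C (c.a 0)) * Q ^ s) := by
    rw [div_pow, ← pow_mul, mul_comm s, pow_mul, hf.eq, hpoly, map_mul, map_pow, mul_pow, ← pow_mul,
      ← ht, map_mul, ← ht, map_pow, div_eq_iff (pow_ne_zero _ (pow_ne_zero _ ht0)), hv, pow_succ,
      ← pow_mul, mul_comm v]
    ring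
  have h1 := natDegree_minpoly hx c.e he (c.a 0) (Q ^ s) (by
    rw [eval_pow]
    exact pow_ne_zero _ hQa) hz
  -- the upper bound
  have hroot : aeval y (X ^ c.e - C (aeval (IntermediateField.AdjoinSimple.gen E x) c.poly)) = 0 := by
    rw [map_sub, map_pow, aeval_X, aeval_C, F2_map, hf.eq, sub_self]
  have hmon : (X ^ c.e - C (aeval (IntermediateField.AdjoinSimple.gen E x) c.poly)).Monic :=
    monic_X_pow_sub_C _ he.ne'
  have hint : IsIntegral (IntermediateField.adjoin E {x}) y := ⟨_, hmon, hroot⟩
  have hup : (minpoly (IntermediateField.adjoin E {x}) y).natDegree ≤ c.e := by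
    have h2 := natDegree_le_natDegree (minpoly.min (IntermediateField.adjoin E {x}) y hmon hroot)
    rwa [natDegree_X_pow_sub_C] at h2
  refine le_antisymm hup ?_
  -- the lower bound
  have hfin : FiniteDimensional (IntermediateField.adjoin E {x})
      (IntermediateField.adjoin (IntermediateField.adjoin E {x}) {y}) :=
    IntermediateField.adjoin.finiteDimensional hint
  have hy : y ∈ IntermediateField.adjoin (IntermediateField.adjoin E {x}) {y} :=
    IntermediateField.mem_adjoin_simple_self _ y
  have htm : t ∈ IntermediateField.adjoin (IntermediateField.adjoin E {x}) {y} := by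
    rw [ht, ← F2_map]
    exact IntermediateField.algebraMap_mem _ _
  have hzm : y ^ s / t ^ v ∈ IntermediateField.adjoin (IntermediateField.adjoin E {x}) {y} :=
    div_mem (pow_mem hy _) (pow_mem htm _)
  have h3 := minpoly.natDegree_le (A := IntermediateField.adjoin E {x})
    (⟨y ^ s / t ^ v, hzm⟩ : IntermediateField.adjoin (IntermediateField.adjoin E {x}) {y})
  rw [IntermediateField.adjoin.finrank hint] at h3
  have h4 : minpoly (IntermediateField.adjoin E {x}) (⟨y ^ s / t ^ v, hzm⟩ :
      IntermediateField.adjoin (IntermediateField.adjoin E {x}) {y}) =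
      minpoly (IntermediateField.adjoin E {x}) (y ^ s / t ^ v) :=
    (minpoly.algebraMap_eq (algebraMap (IntermediateField.adjoin (IntermediateField.adjoin E {x}) {y})
      L).injective _).symm
  rw [h4, h1] at h3
  exact h3

end MPadcCC
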