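import Pool.Agent.Lib.MP_adc574_ag_CC.F3

/-!
# Leaf F4: the components of an integral element are integral
-/

set_option autoImplicit false

namespace MPadcCC

open Polynomial

universe u

variable {E L : Type u} [Field E] [Field L] [Algebra E L] {c : Cover E} {x y : L}

/-- PROOF. The elements of a finite field are `e`-th power residues: `E`\`{0}` is cyclic of order divisible by `p - 1` and `e` divides `p - 1`. For instance `ZMod p` has a primitive root of unity of order `p - 1`
(`ZMod` units are cyclic: `IsCyclic.exists_generator`, `IsPrimitiveRoot`), take a power and map it to `E` (`ZMod.castHom`, injective). -/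
theorem exists_primitive {p : ℕ} [Fact p.Prime] [CharP E p] {e M : ℕ} (hp : p = e * M + 1)
    (he : 0 < e) : ∃ ζ : E, IsPrimitiveRoot ζ e := by
  obtain ⟨g, hg⟩ := IsCyclic.exists_generator (α := (ZMod p)ˣ)
  have h1 : orderOf g = e * M := by
    rw [orderOf_eq_card_of_forall_mem_zpowers hg, Nat.card_eq_fintype_card, ZMod.card_units, hp]
    rfl
  have hM : 0 < e * M := by
    have := (Fact.out : p.Prime).one_lt
    omega
  have h2 : IsPrimitiveRoot g (M * e) := by
    have h3 := IsPrimitiveRoot.orderOf g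
    rw [h1, Nat.mul_comm] at h3
    exact h3
  have h4 : IsPrimitiveRoot (g ^ M) e := h2.pow (by rw [Nat.mul_comm]; exact hM) rfl
  have h5 : IsPrimitiveRoot ((g ^ M : (ZMod p)ˣ) : ZMod p) e := IsPrimitiveRoot.coe_units_iff.2 h4
  exact ⟨_, h5.map_of_injective (ZMod.castHom (dvd_refl p) E).injective⟩

private theorem F4_sigma (hc : c.Ok) (σ : L →ₐ[E] L) (ζ : E)
    (h1 : ∀ f ∈ IntermediateField.adjoin E {x}, σ f = f) (h2 : σ y = algebraMap E L ζ * y) (j : ℕ) :
    σ (yy c x y j) = algebraMap E L (ζ ^ j) * yy c x y j := by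
  have hx : σ x = x := h1 x (IntermediateField.mem_adjoin_simple_self E x)
  have hQ : σ (aeval x (Qx c j)) = aeval x (Qx c j) := by
    rw [← Polynomial.aeval_algHom_apply, hx]
  unfold yy
  rw [map_div₀, map_pow, h2, hQ, mul_pow, map_pow]
  ring

private theorem F4_int (S : Set L) (hS : ∀ s ∈ S, s ∈ IntermediateField.adjoin E {x}) (σ : L →ₐ[E] L)
    (h1 : ∀ f ∈ IntermediateField.adjoin E {x}, σ f = f) {f : L} (hf : f ∈ reg E S) : σ f ∈ reg E S := by
  unfold reg at hf ⊢
  change IsIntegral _ _ at hf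
  show IsIntegral _ _
  have hle : Algebra.adjoin E S ≤ (IntermediateField.adjoin E {x}).toSubalgebra :=
    Algebra.adjoin_le fun s hs => hS s hs
  refine IsIntegral.map_of_comp_eq (RingHom.id (Algebra.adjoin E S)) (σ : L →+* L) ?_ hf
  refine RingHom.ext fun a => ?_
  show (a : L) = σ (a : L)
  exact (h1 _ (hle a.2)).symm

private theorem F4_geom {ζ : E} {e : ℕ} (he : 0 < e) (hζ : IsPrimitiveRoot ζ e) (j j' : ℕ) (hj : j < e) (hj' : j' < e) :
    ∑ i ∈ Finset.range e, (ζ ^ (e - j + j')) ^ i = if j' = j then (e : E) else 0 := by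
  split_ifs with h
  · subst h
    have h1 : e - j' + j' = e := by omega
    rw [h1, hζ.pow_eq_one]
    simp
  · have h1 : ζ ^ (e - j + j') ≠ 1 := by
      intro h2
      have h3 := hζ.dvd_of_pow_eq_one _ h2
      obtain ⟨k, hk⟩ := h3
      rcases Nat.eq_zero_or_pos k with h4 | h4
      · subst h4
        omega
      · rcases Nat.lt_or_ge 1 k with h5 | h5
        · have h6 : e * 2 ≤ e * k := Nat.mul_le_mul_left _ h5
          omega
        · have h6 : k = 1 := by omega
          subst h6
          omega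
    have h2 := geom_sum_mul (ζ ^ (e - j + j')) e
    rw [← pow_mul, Nat.mul_comm, pow_mul, hζ.pow_eq_one, one_pow, sub_self] at h2
    rcases mul_eq_zero.1 h2 with h3 | h3
    · exact h3
    · exact absurd (sub_eq_zero.1 h3) h1

/-- PROOF. `reg E S` is closed under sums, products with elements of `E`, and the algebra homomorphisms which fix `S`: `IsIntegral.add`, `IsIntegral.mul`, `IsIntegral.map`. For `i < e` let
`σ_i` be the homomorphism of `exists_aut` for `ζ ^ i`; `σ_i f = ∑_j ζ ^ (i j) u_j yy_j` (`σ yy_j = ζ ^ (i j) yy_j` because `Q_j(x)` is fixed), so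
`∑_i ζ ^ (- i j) σ_i f = e u_j yy_j` (orthogonality: `IsPrimitiveRoot.geom_sum_eq_zero` for `ζ ^ (j' - j)`), and `e ≠ 0` in `E` (there is a primitive root: `IsPrimitiveRoot.neZero'`, or use `he`). -/
theorem reg_component (hf : IsFunctionField c.e c.poly x y) (hc : c.Ok) (he : (c.e : E) ≠ 0)
    {ζ : E} (hζ : IsPrimitiveRoot ζ c.e) (S : Set L)
    (hS : ∀ s ∈ S, s ∈ IntermediateField.adjoin E {x}) (u : ℕ → L)
    (hu : ∀ j, u j ∈ IntermediateField.adjoin E {x})
    (h : ∑ j ∈ Finset.range c.e, u j * yy c x y j ∈ reg E S) :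
    ∀ j < c.e, u j * yy c x y j ∈ reg E S := by
  intro j hj
  have he0 : 0 < c.e := by omega
  have hex : ∀ i : ℕ, ∃ σ : L →ₐ[E] L, (∀ f ∈ IntermediateField.adjoin E {x}, σ f = f) ∧
      σ y = algebraMap E L (ζ ^ i) * y := by
    intro i
    refine exists_aut hf hc (ζ ^ i) ?_
    rw [← pow_mul, Nat.mul_comm, pow_mul, hζ.pow_eq_one, one_pow]
  choose σ hσ1 hσ2 using hex
  obtain ⟨f, hfd⟩ : ∃ f : L, f = ∑ j ∈ Finset.range c.e, u j * yy c x y j := ⟨_, rfl⟩
  rw [← hfd] at h
  have hσf : ∀ i, σ i f = ∑ j' ∈ Finset.range c.e, algebraMap E L ((ζ ^ i) ^ j') * (u j' * yy c x y j') := by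
    intro i
    rw [hfd, map_sum]
    refine Finset.sum_congr rfl fun j' _ => ?_
    rw [map_mul, hσ1 i _ (hu j'), F4_sigma hc (σ i) (ζ ^ i) (hσ1 i) (hσ2 i) j']
    ring
  have hsum : ∑ i ∈ Finset.range c.e, algebraMap E L ((ζ ^ (c.e - j)) ^ i) * σ i f =
      algebraMap E L (c.e : E) * (u j * yy c x y j) := by
    have h1 : ∀ i ∈ Finset.range c.e, algebraMap E L ((ζ ^ (c.e - j)) ^ i) * σ i f =
        ∑ j' ∈ Finset.range c.e, algebraMap E L ((ζ ^ (c.e - j + j')) ^ i) * (u j' * yy c x y j') := by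
      intro i _
      rw [hσf, Finset.mul_sum]
      refine Finset.sum_congr rfl fun j' _ => ?_
      rw [← mul_assoc, ← map_mul]
      congr 2
      rw [pow_add, mul_pow, ← pow_mul ζ i j', ← pow_mul ζ j' i, Nat.mul_comm i j']
    rw [Finset.sum_congr rfl h1, Finset.sum_comm]
    have h2 : ∀ j' ∈ Finset.range c.e, ∑ i ∈ Finset.range c.e, algebraMap E L ((ζ ^ (c.e - j + j')) ^ i) * (u j' * yy c x y j') =
        if j' = j then algebraMap E L (c.e : E) * (u j * yy c x y j) else 0 := by
      intro j' hj'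
      rw [← Finset.sum_mul, ← map_sum, F4_geom he0 hζ j j' hj (Finset.mem_range.1 hj')]
      split_ifs with h3
      · rw [h3]
      · rw [map_zero, zero_mul]
    rw [Finset.sum_congr rfl h2, Finset.sum_ite_eq', if_pos (Finset.mem_range.2 hj)]
  have hE : ∀ a : E, IsIntegral (Algebra.adjoin E S) (algebraMap E L a) := by
    intro a
    have h1 : algebraMap E L a = algebraMap (Algebra.adjoin E S) L (algebraMap E (Algebra.adjoin E S) a) := rfl
    rw [h1]
    exact isIntegral_algebraMap
  have hint : IsIntegral (Algebra.adjoin E S) (algebraMap E L (c.e : E) * (u j * yy c x y j)) := by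
    rw [← hsum]
    refine IsIntegral.sum _ fun i _ => ?_
    exact (hE _).mul (F4_int S hS (σ i) (hσ1 i) h)
  have h2 := (hE (c.e : E)⁻¹).mul hint
  rw [← mul_assoc, ← map_mul, inv_mul_cancel₀ he, map_one, one_mul] at h2
  exact h2

end MPadcCC
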