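import Pool.Agent.Lib.MP_adc574_ag_CC.F1

/-!
# Leaf F5: integrally closed rings in `E(x)`
-/

set_option autoImplicit false

namespace MPadcCC

open Polynomial

universe u

variable {E L : Type u} [Field E] [Field L] [Algebra E L] {x : L}

open scoped IntermediateField.algebraAdjoinAdjoin in
private theorem F5_mem (hx : Transcendental E x) {f : L} (hf : f ∈ IntermediateField.adjoin E {x})
    (h : IsIntegral (Algebra.adjoin E {x}) f) : f ∈ Algebra.adjoin E {x} := by
  have : IsIntegrallyClosed (Algebra.adjoin E {x}) :=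
    IsIntegrallyClosed.of_equiv (Polynomial.algEquivOfTranscendental E x hx).toRingEquiv
  have h1 : IsIntegral (Algebra.adjoin E {x}) (⟨f, hf⟩ : IntermediateField.adjoin E {x}) := by
    refine (isIntegral_algebraMap_iff (A := IntermediateField.adjoin E {x}) (B := L)
      (algebraMap (IntermediateField.adjoin E {x}) L).injective).1 ?_
    exact h
  obtain ⟨y, hy⟩ := IsIntegrallyClosed.algebraMap_eq_of_integral h1
  have h2 : (y : L) = f := congrArg Subtype.val hy
  rw [← h2]
  exact y.2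

private theorem F5_key (hx0 : x ≠ 0) {r : L} (hr : r ∈ Algebra.adjoin E {x, x⁻¹}) :
    ∃ N : ℕ, ∀ M, N ≤ M → r * x ^ M ∈ Algebra.adjoin E {x} := by
  have hx1 : x ∈ Algebra.adjoin E {x} := Algebra.self_mem_adjoin_singleton E x
  have hxm : ∀ M : ℕ, x ^ M ∈ Algebra.adjoin E {x} := fun M => Subalgebra.pow_mem _ hx1 M
  induction hr using Algebra.adjoin_induction with
  | mem r hr =>
    rw [Set.mem_insert_iff, Set.mem_singleton_iff] at hr
    rcases hr with hr | hr
    · refine ⟨0, fun M _ => ?_⟩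
      rw [hr]
      exact Subalgebra.mul_mem _ hx1 (hxm M)
    · refine ⟨1, fun M hM => ?_⟩
      obtain ⟨k, rfl⟩ : ∃ k, M = k + 1 := ⟨M - 1, by omega⟩
      rw [hr, pow_succ', ← mul_assoc, inv_mul_cancel₀ hx0, one_mul]
      exact hxm k
  | algebraMap r => exact ⟨0, fun M _ => Subalgebra.mul_mem _ (Subalgebra.algebraMap_mem _ r) (hxm M)⟩
  | add a b _ _ ha hb =>
    obtain ⟨N1, h1⟩ := ha
    obtain ⟨N2, h2⟩ := hb
    refine ⟨max N1 N2, fun M hM => ?_⟩
    rw [add_mul]
    exact Subalgebra.add_mem _ (h1 M ((le_max_left _ _).trans hM)) (h2 M ((le_max_right _ _).trans hM))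
  | mul a b _ _ ha hb =>
    obtain ⟨N1, h1⟩ := ha
    obtain ⟨N2, h2⟩ := hb
    refine ⟨N1 + N2, fun M hM => ?_⟩
    obtain ⟨k, rfl⟩ : ∃ k, M = N1 + (N2 + k) := ⟨M - N1 - N2, by omega⟩
    have e1 : a * b * x ^ (N1 + (N2 + k)) = (a * x ^ N1) * (b * x ^ (N2 + k)) := by ring
    rw [e1]
    exact Subalgebra.mul_mem _ (h1 N1 le_rfl) (h2 _ (by omega))

private theorem F5_scale (hx0 : x ≠ 0) {f : L} (h : IsIntegral (Algebra.adjoin E {x, x⁻¹}) f) :
    ∃ N : ℕ, IsIntegral (Algebra.adjoin E {x}) (f * x ^ N) := by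
  obtain ⟨p, hp, hp0⟩ := h
  set n := p.natDegree with hn
  choose N hN using fun i : ℕ => F5_key (E := E) hx0 (p.coeff i).2
  set N0 := (Finset.range n).sup N with hN0
  have hb : ∀ i : ℕ, (if i < n then ((p.coeff i : Algebra.adjoin E {x, x⁻¹}) : L) *
      x ^ (N0 * (n - i)) else 0) ∈ Algebra.adjoin E {x} := by
    intro i
    split_ifs with hi
    · refine hN i _ ?_
      have h1 : N i ≤ N0 := Finset.le_sup (f := N) (Finset.mem_range.2 hi)
      have h2 : 1 ≤ n - i := by omega
      calc N i ≤ N0 * 1 := by omega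
        _ ≤ N0 * (n - i) := Nat.mul_le_mul_left _ h2
    · exact Subalgebra.zero_mem _
  refine ⟨N0, X ^ n + ∑ i ∈ Finset.range n, C (⟨_, hb i⟩ : Algebra.adjoin E {x}) * X ^ i, ?_, ?_⟩
  · refine monic_X_pow_add ((degree_sum_le _ _).trans_lt ?_)
    refine (Finset.sup_lt_iff (WithBot.bot_lt_coe n)).2 fun i hi => ?_
    refine (degree_C_mul_X_pow_le _ _).trans_lt ?_
    exact WithBot.coe_lt_coe.2 (Finset.mem_range.1 hi)
  · rw [eval₂_eq_sum_range, Finset.sum_range_succ, ← hn] at hp0
    have hlead : p.coeff n = 1 := hp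
    rw [hlead, map_one, one_mul] at hp0
    rw [eval₂_add, eval₂_pow, eval₂_X, eval₂_finsetSum]
    have h3 : ∀ i ∈ Finset.range n, eval₂ (algebraMap (Algebra.adjoin E {x}) L) (f * x ^ N0)
        (C (⟨_, hb i⟩ : Algebra.adjoin E {x}) * X ^ i) =
        x ^ (N0 * n) * (algebraMap (Algebra.adjoin E {x, x⁻¹}) L (p.coeff i) * f ^ i) := by
      intro i hi
      have hi' := Finset.mem_range.1 hi
      rw [eval₂_mul, eval₂_C, eval₂_pow, eval₂_X]
      have e2 : algebraMap (Algebra.adjoin E {x}) L ⟨_, hb i⟩ =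
          algebraMap (Algebra.adjoin E {x, x⁻¹}) L (p.coeff i) * x ^ (N0 * (n - i)) := by
        show (if i < n then ((p.coeff i : Algebra.adjoin E {x, x⁻¹}) : L) *
          x ^ (N0 * (n - i)) else 0) = _
        rw [if_pos hi']
        rfl
      rw [e2]
      have e3 : N0 * n = N0 * (n - i) + N0 * i := by
        rw [← mul_add]
        congr 1
        omega
      rw [e3, pow_add, mul_pow, ← pow_mul]
      ring
    rw [Finset.sum_congr rfl h3, ← Finset.mul_sum, mul_pow, ← pow_mul]
    have h4 : f ^ n * x ^ (N0 * n) + x ^ (N0 * n) *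
        ∑ i ∈ Finset.range n, algebraMap (Algebra.adjoin E {x, x⁻¹}) L (p.coeff i) * f ^ i =
        x ^ (N0 * n) * (∑ i ∈ Finset.range n,
          algebraMap (Algebra.adjoin E {x, x⁻¹}) L (p.coeff i) * f ^ i + f ^ n) := by ring
    rw [h4, hp0, mul_zero]

/-- PROOF. `E[x]` is isomorphic to the polynomial ring (`x` is transcendental), which is integrally closed (UFD), and `E(x)` is its fraction field. Directly: `f = aeval x P / aeval x Q` with `P, Q` coprime
(`IntermediateField.mem_adjoin_simple_iff`), an integral equation with coefficients in `E[x]` (`Algebra.adjoin_singleton_eq_range_aeval`) multiplied by `Q ^ n` shows that `Q` divides `P ^ n`, so `Q` is a unit. -/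
theorem mem_reg_x (hx : Transcendental E x) {f : L} (hf : f ∈ IntermediateField.adjoin E {x})
    (h : f ∈ reg E {x}) : ∃ P : E[X], f = aeval x P := by
  have h1 := F5_mem hx hf h
  rw [Algebra.adjoin_singleton_eq_range_aeval] at h1
  obtain ⟨P, hP⟩ := h1
  exact ⟨P, hP.symm⟩

/-- PROOF. `mem_reg_x` for `x⁻¹`, which is also transcendental, with `E(x⁻¹) = E(x)`. -/
theorem mem_reg_inv (hx : Transcendental E x) {f : L} (hf : f ∈ IntermediateField.adjoin E {x})
    (h : f ∈ reg E {x⁻¹}) : ∃ P : E[X], f = aeval x⁻¹ P := by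
  have hx' : Transcendental E x⁻¹ := fun h1 => hx (by simpa using h1.inv)
  refine mem_reg_x hx' ?_ h
  refine (IntermediateField.adjoin_simple_le_iff.2 ?_ : IntermediateField.adjoin E {x} ≤
    IntermediateField.adjoin E {x⁻¹}) hf
  have h1 := IntermediateField.inv_mem _ (IntermediateField.mem_adjoin_simple_self E x⁻¹)
  rwa [inv_inv] at h1

/-- PROOF. If `f` is integral over `E[x, x⁻¹]` of degree `n`, then for large `N` the element `f * x ^ N` is integral over `E[x]` (every element of `E[x, x⁻¹]` is `aeval x P / x ^ N`; scale the integral equation), `mem_reg_x`. -/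
theorem mem_reg_both (hx : Transcendental E x) {f : L}
    (hf : f ∈ IntermediateField.adjoin E {x}) (h : f ∈ reg E {x, x⁻¹}) :
    ∃ (P : E[X]) (N : ℕ), f * x ^ N = aeval x P := by
  have hx0 : x ≠ 0 := by
    rintro rfl
    exact hx (isAlgebraic_zero)
  obtain ⟨N, hN⟩ := F5_scale (E := E) hx0 h
  obtain ⟨P, hP⟩ := mem_reg_x (f := f * x ^ N) hx (IntermediateField.mul_mem _ hf
    (pow_mem (IntermediateField.mem_adjoin_simple_self E x) N)) hN
  exact ⟨P, N, hP⟩

end MPadcCC
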