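import Pool.Agent.Lib.MP_adc574_ag_CC.F1

/-!
# Leaf F7: elements of the rings of regular functions
-/

set_option autoImplicit false

namespace MPadcCC

open Polynomial

universe u

variable {E L : Type u} [Field E] [Field L] [Algebra E L] {c : Cover E} {x y : L}

private theorem F7_reflect (hx : x ≠ 0) (B : E[X]) (m N : ℕ) (h : B.natDegree + m ≤ N) :
    ∃ B' : E[X], B'.natDegree + m ≤ N ∧
      aeval x B' = x ^ N * (aeval x⁻¹ B * (x ^ m)⁻¹) := by
  refine ⟨∑ k ∈ Finset.range (B.natDegree + 1), C (B.coeff k) * X ^ (N - m - k), ?_, ?_⟩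
  · have h1 : (∑ k ∈ Finset.range (B.natDegree + 1), C (B.coeff k) * X ^ (N - m - k)).natDegree ≤
        N - m := by
      refine natDegree_sum_le_of_forall_le _ _ fun k _ => ?_
      exact (natDegree_C_mul_X_pow_le _ _).trans (Nat.sub_le _ _)
    omega
  · rw [map_sum, aeval_eq_sum_range, Finset.sum_mul, Finset.mul_sum]
    refine Finset.sum_congr rfl fun k hk => ?_
    have hk' : k ≤ B.natDegree := Nat.lt_succ_iff.1 (Finset.mem_range.1 hk)
    have e1 : x ^ N = x ^ (N - m - k) * x ^ k * x ^ m := by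
      rw [← pow_add, ← pow_add]
      congr 1
      omega
    have hk0 : x ^ k ≠ 0 := pow_ne_zero _ hx
    have hm0 : x ^ m ≠ 0 := pow_ne_zero _ hx
    rw [map_mul, aeval_C, map_pow, aeval_X, e1, Algebra.smul_def, inv_pow]
    field_simp

theorem reg_add {S : Set L} {f g : L} (hf : f ∈ reg E S) (hg : g ∈ reg E S) :
    f + g ∈ reg E S := IsIntegral.add hf hg

theorem reg_sum {S : Set L} (n : ℕ) (f : ℕ → L) (hf : ∀ j < n, f j ∈ reg E S) :
    ∑ j ∈ Finset.range n, f j ∈ reg E S :=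
  IsIntegral.sum f fun j hj => hf j (Finset.mem_range.1 hj)

/-- PROOF. `E[S] ⊆ E[T]`; an integral equation over the first ring is one over the second (`isIntegral_of_...`, `IsIntegral.tower_top` with `Subalgebra.inclusion`, or map the polynomial). -/
theorem reg_mono {S T : Set L} (h : S ⊆ T) {f : L} (hf : f ∈ reg E S) : f ∈ reg E T := by
  obtain ⟨P, hP, h0⟩ := (show IsIntegral (Algebra.adjoin E S) f from hf)
  refine ⟨P.map (Subalgebra.inclusion (Algebra.adjoin_mono h)).toRingHom, hP.map _, ?_⟩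
  rw [eval₂_map]
  exact h0

/-- PROOF. `aeval x P ∈ Algebra.adjoin E {x}` (`Polynomial.aeval_mem_adjoin_singleton`), `yy_j ^ e = F_j(x)` (`yy_pow`, `IsIntegral.of_pow`), `IsIntegral.mul`. -/
theorem mem_reg_x_of (hf : IsFunctionField c.e c.poly x y) (hc : c.Ok) (j : ℕ) (P : E[X]) :
    aeval x P * yy c x y j ∈ reg E {x} := by
  have h1 : ∀ Q : E[X], IsIntegral (Algebra.adjoin E {x}) (aeval x Q) := fun Q =>
    isIntegral_algebraMap (x := (⟨aeval x Q, aeval_mem_adjoin_singleton E x⟩ : Algebra.adjoin E {x}))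
  have he : 0 < c.e := lt_of_lt_of_le two_pos hc.two
  have h2 : IsIntegral (Algebra.adjoin E {x}) (yy c x y j) := by
    refine IsIntegral.of_pow he ?_
    rw [yy_pow hf hc]
    exact h1 _
  exact (h1 P).mul h2

/-- PROOF. `((x ^ m)⁻¹ * yy_j) ^ e = F_j(x) / x ^ (e m)` is a polynomial in `x⁻¹`, because `F_j` has degree `e m` (`natDegree_Fx`): `aeval_eq_sum_range`, or `Polynomial.reverse`. -/
theorem mem_reg_inv_of (hf : IsFunctionField c.e c.poly x y) (hc : c.Ok) (j : ℕ) (P : E[X]) :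
    aeval x⁻¹ P * (x ^ mm c j)⁻¹ * yy c x y j ∈ reg E {x⁻¹} := by
  have h1 : ∀ Q : E[X], IsIntegral (Algebra.adjoin E {x⁻¹}) (aeval x⁻¹ Q) := fun Q =>
    isIntegral_algebraMap
      (x := (⟨aeval x⁻¹ Q, aeval_mem_adjoin_singleton E x⁻¹⟩ : Algebra.adjoin E {x⁻¹}))
  have he : 0 < c.e := lt_of_lt_of_le two_pos hc.two
  have hx : x ≠ 0 := x_ne_zero hf.trans
  obtain ⟨B, _, hB⟩ := F7_reflect (inv_ne_zero hx) (Fx c j) 0 (c.e * mm c j)
    (by rw [natDegree_Fx c hc j, add_zero])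
  rw [inv_inv, pow_zero, inv_one, mul_one] at hB
  have h2 : IsIntegral (Algebra.adjoin E {x⁻¹}) ((x ^ mm c j)⁻¹ * yy c x y j) := by
    refine IsIntegral.of_pow he ?_
    have h3 : ((x ^ mm c j)⁻¹ * yy c x y j) ^ c.e = aeval x⁻¹ B := by
      rw [hB, mul_pow, yy_pow hf hc, inv_pow, inv_pow, ← pow_mul, mul_comm (mm c j)]
    rw [h3]
    exact h1 _
  rw [mul_assoc]
  exact (h1 P).mul h2

/-- PROOF. `B' = ∑_k C (B.coeff k) * X ^ (N - m - k)`. -/
theorem exists_reflect (hx : x ≠ 0) (B : E[X]) (m N : ℕ) (h : B.natDegree + m ≤ N) :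
    ∃ B' : E[X], B'.natDegree + m ≤ N ∧
      aeval x B' = x ^ N * (aeval x⁻¹ B * (x ^ m)⁻¹) := F7_reflect hx B m N h

end MPadcCC
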