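import Mathlib

/-!
# Cyclic covers, characteristic p: definitions and the derivation of the coefficients

`K` is a commutative ring, `a i` points, `μ i` exponents; `gg a μ = ∏ (X - a i) ^ μ i`.
-/

set_option autoImplicit false

namespace MPadcCC

open Polynomial

/-- `∏ (X - a i) ^ μ i` -/
noncomputable def gg {ι K : Type*} [Fintype ι] [CommRing K] (a : ι → K) (μ : ι → ℕ) : K[X] :=
  ∏ i, (X - C (a i)) ^ μ i

/-- The Hasse-Witt matrix `(c (p (α + 1) - (β + 1)))` of a polynomial with the coefficients `c`, of size `m - 1`. -/
noncomputable def hw {K : Type*} [CommRing K] (p m : ℕ) (G : K[X]) :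
    Matrix (Fin (m - 1)) (Fin (m - 1)) K :=
  fun α β => G.coeff (p * (α.1 + 1) - (β.1 + 1))

/-- The only polynomial `f` of degree at most `m - 2` such that `f * G` is a derivative is zero. -/
def Inj {K : Type*} [CommRing K] (m : ℕ) (G : K[X]) : Prop :=
  ∀ f : K[X], f.degree < ((m - 1 : ℕ) : WithBot ℕ) → (∃ H : K[X], derivative H = f * G) → f = 0

/-- The derivation of the polynomials which is `δ` on the coefficients and zero at the variable. -/
noncomputable def dc {K : Type*} [CommRing K] (δ : Derivation ℤ K K) (P : K[X]) : K[X] :=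
  ∑ i ∈ P.support, monomial i (δ (P.coeff i))

/-- The coefficient of degree `deg Q - 1` of the remainder modulo the monic polynomial `Q`. -/
noncomputable def lam {K : Type*} [CommRing K] (Q M : K[X]) : K := (M %ₘ Q).coeff (Q.natDegree - 1)

end MPadcCC
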