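import Pool.Agent.Lib.MP_adc574_ag_CC.Defs
import Pool.Agent.Lib.MP_adc574_ag_CC.PDefs

/-!
# Block F: definitions

`c` is a cover over `E`, `y ^ e = c.poly(x)`. For `j ≤ e`: `y ^ j = Q_j(x) * yy_j`, `yy_j ^ e = F_j(x)`, `yy_j * yy_(e-j) = R_j(x)`, `F_j` has degree `e * mm j`.
-/

set_option autoImplicit false

namespace MPadcCC

open Polynomial

universe u

variable {A : Type u} [CommRing A]

/-- `Q_j = ∏ (X - a i) ^ (j r_i / e)` -/
noncomputable def Qx (c : Cover A) (j : ℕ) : A[X] := gg c.a fun i => j * c.r i / c.e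

/-- `F_j = ∏ (X - a i) ^ (j r_i mod e)` -/
noncomputable def Fx (c : Cover A) (j : ℕ) : A[X] := gg c.a fun i => j * c.r i % c.e

/-- `R_j` = the product of the `X - a i` such that `e` does not divide `j r_i` -/
noncomputable def Rx (c : Cover A) (j : ℕ) : A[X] :=
  gg c.a fun i => if j * c.r i % c.e = 0 then 0 else 1

/-- `m_j = (∑ (j r_i mod e)) / e` -/
def mm {A : Type u} (c : Cover A) (j : ℕ) : ℕ := (∑ i, j * c.r i % c.e) / c.e

/-- `yy_j = y ^ j / Q_j(x)` -/
noncomputable def yy {E L : Type u} [Field E] [Field L] [Algebra E L] (c : Cover E) (x y : L)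
    (j : ℕ) : L := y ^ j / aeval x (Qx c j)

end MPadcCC
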