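import Pool.Agent.Lib.MP_adc574_ag_CC.PDefs

/-!
# Leaf P3 (Mathlib only): the functional `lam Q M = coeff (M %ₘ Q) (deg Q - 1)` (the sum of the residues of `M / Q`)
-/

set_option autoImplicit false

namespace MPadcCC

open Polynomial

variable {K : Type*} [Field K]

/-- PROOF. `Polynomial.add_modByMonic`. -/
theorem lam_add (Q M M' : K[X]) : lam Q (M + M') = lam Q M + lam Q M' := by
  rw [lam, lam, lam, add_modByMonic, coeff_add]

/-- PROOF. `Polynomial.mul_self_modByMonic` or `modByMonic_eq_zero_iff_dvd`. -/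
theorem lam_mul {Q : K[X]} (hQ : Q.Monic) (M : K[X]) : lam Q (Q * M) = 0 := by
  rw [lam, (modByMonic_eq_zero_iff_dvd hQ).2 (dvd_mul_right Q M), coeff_zero]

/-- PROOF. `modByMonic_eq_self_iff` (`M.degree < Q.degree`), `coeff_eq_zero_of_natDegree_lt`. -/
theorem lam_of_lt {Q : K[X]} (hQ : Q.Monic) {M : K[X]} (h : M.natDegree + 1 < Q.natDegree) :
    lam Q M = 0 := by
  have h1 : M.degree < Q.degree := degree_lt_degree (by omega)
  rw [lam, (modByMonic_eq_self_iff hQ).2 h1]
  exact coeff_eq_zero_of_natDegree_lt (by omega)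

/-- PROOF. `H = H₀ + Q * V` with `H₀ = H %ₘ Q` (`modByMonic_add_div`); `derivative H = derivative H₀ + Q * derivative V`; `lam` of the second is zero
(`lam_mul`), the first has degree at most `deg Q - 2` (if `deg Q ≥ 1` and `H₀ ≠ 0`: `natDegree_derivative_lt` and `natDegree H₀ < natDegree Q`; if `H₀` is constant
its derivative is zero). Cases `deg Q = 0`: `Q = 1`, everything is zero modulo `Q`. -/
theorem lam_derivative {Q : K[X]} (hQ : Q.Monic) (hQ' : derivative Q = 0) (H : K[X]) :
    lam Q (derivative H) = 0 := by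
  have h1 : derivative H = derivative (H %ₘ Q) + Q * derivative (H /ₘ Q) := by
    have h2 := congrArg derivative (modByMonic_add_div H Q)
    rw [derivative_add, derivative_mul, hQ', zero_mul, zero_add] at h2
    exact h2.symm
  rw [h1, lam_add, lam_mul hQ, add_zero]
  by_cases h0 : (H %ₘ Q).natDegree = 0
  · rw [eq_C_of_natDegree_eq_zero h0, derivative_C]
    have := lam_mul hQ (0 : K[X])
    rwa [mul_zero] at this
  · have h3 : (derivative (H %ₘ Q)).natDegree < (H %ₘ Q).natDegree := natDegree_derivative_lt h0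
    have h4 : (H %ₘ Q).natDegree < Q.natDegree := by
      refine natDegree_modByMonic_lt H hQ ?_
      rintro rfl
      rw [modByMonic_one, natDegree_zero] at h0
      exact h0 rfl
    exact lam_of_lt hQ (by omega)

/-- PROOF. `M = C (M.eval a) + (X - C a) * M₁`, so `M * Q₁ = C (M.eval a) * Q₁ + ((X - C a) * Q₁) * M₁`; `C (M.eval a) * Q₁` is its own remainder, its
coefficient of degree `deg Q₁ = deg ((X - C a) * Q₁) - 1` is `M.eval a` (`Q₁` is monic). -/
theorem lam_eval {Q₁ : K[X]} (hQ : Q₁.Monic) (a : K) (M : K[X]) :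
    lam ((X - C a) * Q₁) (M * Q₁) = M.eval a := by
  have hm : ((X - C a) * Q₁).Monic := (monic_X_sub_C a).mul hQ
  obtain ⟨M₁, hM⟩ : X - C a ∣ M - C (M.eval a) := dvd_iff_isRoot.2 (by
    rw [IsRoot, eval_sub, eval_C, sub_self])
  have h1 : M * Q₁ = C (M.eval a) * Q₁ + ((X - C a) * Q₁) * M₁ := by
    linear_combination Q₁ * hM
  have hd : ((X - C a) * Q₁).natDegree = Q₁.natDegree + 1 := by
    rw [(monic_X_sub_C a).natDegree_mul hQ, natDegree_X_sub_C, add_comm]
  have h2 : (C (M.eval a) * Q₁).degree < ((X - C a) * Q₁).degree := by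
    refine degree_lt_degree ?_
    rw [hd]
    exact Nat.lt_succ_of_le (natDegree_C_mul_le _ _)
  rw [h1, lam_add, lam_mul hm, add_zero, lam, (modByMonic_eq_self_iff hm).2 h2, hd, Nat.add_sub_cancel, coeff_C_mul,
    hQ.coeff_natDegree, mul_one]

/-- PROOF. `expand K p γ * X ^ (p * α - 1)` has degree `p * γ.natDegree + p * α - 1 = p * N - 1 < Q.natDegree` (`natDegree_expand`), so it is its own remainder
(if `γ = 0` both sides are zero) and the coefficient of degree `p * N - 1` is the leading coefficient of `expand K p γ`, which is the one of `γ`. -/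
theorem lam_expand {p N α : ℕ} (hp : 0 < p) {Q : K[X]} (hQ : Q.Monic) (hd : Q.natDegree = p * N)
    (γ : K[X]) (hα : 1 ≤ α) (h : γ.natDegree + α = N) :
    lam Q (expand K p γ * X ^ (p * α - 1)) = γ.leadingCoeff := by
  have hpa : 1 ≤ p * α := Nat.mul_pos hp hα
  have hN : p * N = γ.natDegree * p + (p * α - 1) + 1 := by
    rw [← h, Nat.mul_add, mul_comm p γ.natDegree]
    omega
  have h1 : (expand K p γ * X ^ (p * α - 1)).natDegree ≤ γ.natDegree * p + (p * α - 1) := by
    refine natDegree_mul_le.trans ?_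
    rw [natDegree_expand, natDegree_X_pow]
  have h2 : (expand K p γ * X ^ (p * α - 1)).degree < Q.degree := by
    refine degree_lt_degree ?_
    rw [hd, hN]
    omega
  rw [lam, (modByMonic_eq_self_iff hQ).2 h2, hd, hN, Nat.add_sub_cancel, coeff_mul_X_pow, coeff_expand_mul hp]
  rfl

end MPadcCC
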