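import Pool.Agent.Lib.MP_adc574_ag_CC.P1
import Pool.Agent.Lib.MP_adc574_ag_CC.P2

/-!
# Leaf P5: two identities for the Kodaira-Spencer argument
-/

set_option autoImplicit false

namespace MPadcCC

open Polynomial

variable {K : Type*} [Field K] {p : ℕ} [Fact p.Prime] [CharP K p]

/-- `R ^ p / (X - a o)` for `R = ∏ (X - a i)`. -/
noncomputable def qq {ι : Type*} [Fintype ι] [DecidableEq ι] (p : ℕ) (o : ι) (a : ι → K) : K[X] :=
  (X - C (a o)) ^ (p - 1) * ∏ i ∈ Finset.univ.erase o, (X - C (a i)) ^ p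

/-- PROOF. `monic_X_sub_C`, `Monic.pow`, `monic_prod_of_monic`, `Monic.mul`. -/
theorem monic_qq {ι : Type*} [Fintype ι] [DecidableEq ι] (o : ι) (a : ι → K) :
    (qq p o a).Monic := by
  unfold qq
  exact ((monic_X_sub_C _).pow _).mul (monic_prod_of_monic _ _ fun i _ => (monic_X_sub_C _).pow _)

/-- PROOF. `Finset.mul_prod_erase`, `Finset.prod_pow`. -/
theorem mul_qq {ι : Type*} [Fintype ι] [DecidableEq ι] (o : ι) (a : ι → K) :
    (X - C (a o)) * qq p o a = (∏ i, (X - C (a i))) ^ p := by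
  unfold qq
  rw [← mul_assoc, ← pow_succ', Nat.sub_add_cancel (Fact.out : p.Prime).one_le, ← Finset.prod_pow]
  exact Finset.mul_prod_erase Finset.univ (fun i => (X - C (a i)) ^ p) (Finset.mem_univ o)

/-- PROOF. `∏ i (X - C (a i)) ^ p` has derivative zero (`derivative_pow`, `(p : K) = 0`). -/
theorem derivative_prod_pow {ι : Type*} [Fintype ι] (a : ι → K) :
    derivative ((∏ i, (X - C (a i))) ^ p) = 0 := by
  rw [derivative_pow, CharP.cast_eq_zero K p, C_0, zero_mul, zero_mul]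

private theorem P5_dc_prod {ι : Type*} [DecidableEq ι] (δ : Derivation ℤ K K) (a : ι → K)
    (ν : ι → ℕ) (s : Finset ι) (h : ∀ i ∈ s, δ (a i) = 0) :
    dc δ (∏ i ∈ s, (X - C (a i)) ^ ν i) = 0 := by
  induction s using Finset.induction_on with
  | empty =>
    rw [Finset.prod_empty, ← C_1, dc_C, Derivation.map_one_eq_zero, C_0]
  | insert i s hi ih =>
    rw [Finset.prod_insert hi, dc_mul, dc_pow, h i (Finset.mem_insert_self i s),
      ih fun j hj => h j (Finset.mem_insert_of_mem hj), mul_zero, mul_zero, C_0, zero_mul, neg_zero,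
      zero_mul, add_zero]

/-- The derivative of the dual form with respect to the moving point. PROOF. `gg a ν = (X - C (a o)) ^ ν o * B`, `B = ∏ i ∈ univ.erase o, (X - C (a i)) ^ ν i`, `dc δ B = 0` (`dc_mul`,
`dc_pow`, `δ (a i) = 0`; induction over the product), `dc δ ((X - C (a o)) ^ ν o) = - ν o (X - C (a o)) ^ (ν o - 1)`. Multiply by
`∏ i (X - C (a i)) ^ (μ i + 1)` and use `μ i + 1 + ν i = p` for `i ≠ o` and `μ o + 1 + (ν o - 1) = p - 1`, `(X - C (a o)) * (X - C (a o)) ^ (p - 1)`. -/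
theorem prod_mul_dc {ι : Type*} [Fintype ι] [DecidableEq ι] (δ : Derivation ℤ K K) (o : ι)
    (a : ι → K) (h0 : δ (a o) = 1) (h1 : ∀ i, i ≠ o → δ (a i) = 0) (μ ν : ι → ℕ)
    (hμν : ∀ i, μ i + ν i = p - 1) (hν : 0 < ν o) (g : K[X]) :
    (∏ i, (X - C (a i)) ^ (μ i + 1)) * dc δ (g * gg a ν) =
      ((X - C (a o)) * dc δ g - C ((ν o : ℕ) : K) * g) * qq p o a := by
  have hp : 1 ≤ p := (Fact.out : p.Prime).one_le
  have hB : dc δ (∏ i ∈ Finset.univ.erase o, (X - C (a i)) ^ ν i) = 0 :=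
    P5_dc_prod δ a ν _ fun i hi => h1 i (Finset.ne_of_mem_erase hi)
  have hG : gg a ν = (X - C (a o)) ^ ν o * ∏ i ∈ Finset.univ.erase o, (X - C (a i)) ^ ν i :=
    (Finset.mul_prod_erase Finset.univ (fun i => (X - C (a i)) ^ ν i) (Finset.mem_univ o)).symm
  have hA : ∏ i, (X - C (a i)) ^ (μ i + 1) =
      (X - C (a o)) ^ (μ o + 1) * ∏ i ∈ Finset.univ.erase o, (X - C (a i)) ^ (μ i + 1) :=
    (Finset.mul_prod_erase Finset.univ (fun i => (X - C (a i)) ^ (μ i + 1)) (Finset.mem_univ o)).symm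
  have hAB : (∏ i ∈ Finset.univ.erase o, (X - C (a i)) ^ (μ i + 1)) *
      ∏ i ∈ Finset.univ.erase o, (X - C (a i)) ^ ν i =
      ∏ i ∈ Finset.univ.erase o, (X - C (a i)) ^ p := by
    rw [← Finset.prod_mul_distrib]
    refine Finset.prod_congr rfl fun i _ => ?_
    rw [← pow_add]
    have := hμν i
    congr 1
    omega
  have hY1 : (X - C (a o)) ^ (μ o + 1) * (X - C (a o)) ^ ν o =
      (X - C (a o)) * (X - C (a o)) ^ (p - 1) := by
    rw [← pow_add, ← pow_succ']
    have := hμν o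
    congr 1
    omega
  have hY2 : (X - C (a o)) ^ (μ o + 1) * (X - C (a o)) ^ (ν o - 1) = (X - C (a o)) ^ (p - 1) := by
    rw [← pow_add]
    have := hμν o
    congr 1
    omega
  unfold qq
  rw [hG, dc_mul, dc_mul, hB, dc_pow, h0, hA, ← hAB, mul_one, mul_zero, add_zero]
  linear_combination
    ((∏ i ∈ Finset.univ.erase o, (X - C (a i)) ^ (μ i + 1)) *
      (∏ i ∈ Finset.univ.erase o, (X - C (a i)) ^ ν i) * dc δ g) * hY1 -
    (C ((ν o : ℕ) : K) * g * ((∏ i ∈ Finset.univ.erase o, (X - C (a i)) ^ (μ i + 1)) *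
      (∏ i ∈ Finset.univ.erase o, (X - C (a i)) ^ ν i))) * hY2

/-- PROOF. Write `∏ i (X - C (a i)) ^ (μ i + 1) = (X - C (a o)) ^ (μ o + 1) * T`, `gg a μ = (X - C (a o)) ^ μ o * G₁`. The derivative of `expand K p γ + S * (X - C (a o)) ^ (μ o + 1) * T` is
`(X - C (a o)) ^ μ o * ((μ o + 1) S T + (X - C (a o)) (...))` (`derivative_expand_eq_zero`). Cancel `(X - C (a o)) ^ μ o` and evaluate at `a o`:
`(μ o + 1) S(a o) T(a o) = f(a o) G₁(a o)`, and `G₁(a o) ≠ 0` because `a` is injective. -/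
theorem eval_eq_zero_of {ι : Type*} [Fintype ι] [DecidableEq ι] (o : ι) (a : ι → K)
    (ha : Function.Injective a) (μ : ι → ℕ) (f H S γ : K[X])
    (hH : derivative H = f * gg a μ)
    (hS : H - expand K p γ = (∏ i, (X - C (a i)) ^ (μ i + 1)) * S) (h : S.eval (a o) = 0) :
    f.eval (a o) = 0 := by
  have hG : gg a μ = (X - C (a o)) ^ μ o * ∏ i ∈ Finset.univ.erase o, (X - C (a i)) ^ μ i :=
    (Finset.mul_prod_erase Finset.univ (fun i => (X - C (a i)) ^ μ i) (Finset.mem_univ o)).symm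
  have hA : ∏ i, (X - C (a i)) ^ (μ i + 1) =
      (X - C (a o)) ^ (μ o + 1) * ∏ i ∈ Finset.univ.erase o, (X - C (a i)) ^ (μ i + 1) :=
    (Finset.mul_prod_erase Finset.univ (fun i => (X - C (a i)) ^ (μ i + 1)) (Finset.mem_univ o)).symm
  have hH2 : H = expand K p γ + (X - C (a o)) ^ (μ o + 1) *
      ((∏ i ∈ Finset.univ.erase o, (X - C (a i)) ^ (μ i + 1)) * S) := by
    rw [← mul_assoc, ← hA, ← hS]
    ring
  have hd : f * gg a μ = (X - C (a o)) ^ μ o *
      (C ((μ o : K) + 1) * ((∏ i ∈ Finset.univ.erase o, (X - C (a i)) ^ (μ i + 1)) * S) +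
        (X - C (a o)) *
          derivative ((∏ i ∈ Finset.univ.erase o, (X - C (a i)) ^ (μ i + 1)) * S)) := by
    rw [← hH, hH2, derivative_add, derivative_expand_eq_zero, derivative_mul,
      derivative_X_sub_C_pow, Nat.add_sub_cancel, Nat.cast_add, Nat.cast_one, C_add, C_1, map_natCast]
    ring
  have hne : (X - C (a o)) ^ μ o ≠ 0 := pow_ne_zero _ (X_sub_C_ne_zero _)
  have he : f * ∏ i ∈ Finset.univ.erase o, (X - C (a i)) ^ μ i =
      C ((μ o : K) + 1) * ((∏ i ∈ Finset.univ.erase o, (X - C (a i)) ^ (μ i + 1)) * S) +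
        (X - C (a o)) *
          derivative ((∏ i ∈ Finset.univ.erase o, (X - C (a i)) ^ (μ i + 1)) * S) := by
    refine mul_left_cancel₀ hne ?_
    rw [← hd, hG]
    ring
  have h2 := congrArg (eval (a o)) he
  simp only [eval_mul, eval_add, eval_sub, eval_X, eval_C, h, sub_self, mul_zero, zero_mul,
    add_zero] at h2
  rcases mul_eq_zero.1 h2 with h3 | h3
  · exact h3
  · exfalso
    rw [eval_prod, Finset.prod_eq_zero_iff] at h3
    obtain ⟨i, hi, h4⟩ := h3
    rw [eval_pow, eval_sub, eval_X, eval_C] at h4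
    exact Finset.ne_of_mem_erase hi (ha (sub_eq_zero.1 (eq_zero_of_pow_eq_zero h4))).symm

end MPadcCC
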