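import Pool.Agent.Lib.MP_adc574_ag_CC.P3
import Pool.Agent.Lib.MP_adc574_ag_CC.P4
import Pool.Agent.Lib.MP_adc574_ag_CC.P5

/-!
# Leaf P7: the Kodaira-Spencer map has rank one
-/

set_option autoImplicit false

namespace MPadcCC

open Polynomial

variable {K : Type*} [Field K] {p : ℕ} [Fact p.Prime] [CharP K p]

private theorem P7_natDegree_gg {ι : Type*} [Fintype ι] (a : ι → K) (μ : ι → ℕ) :
    (gg a μ).natDegree = ∑ i, μ i := by
  unfold gg
  rw [natDegree_prod_of_monic _ _ fun i _ => (monic_X_sub_C (a i)).pow (μ i)]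
  refine Finset.sum_congr rfl fun i _ => ?_
  rw [(monic_X_sub_C (a i)).natDegree_pow, natDegree_X_sub_C, mul_one]

private theorem P7_prim {ι : Type*} [Fintype ι] (a : ι → K) (μ : ι → ℕ) (m : ℕ)
    (hm : ∑ i, μ i = m * (p - 1)) (f H : K[X]) (hf0 : f ≠ 0)
    (hf : f.degree < ((m - 1 : ℕ) : WithBot ℕ)) (hH : derivative H = f * gg a μ) :
    2 ≤ m ∧ ∃ H : K[X], derivative H = f * gg a μ ∧ H.natDegree ≤ m * p - 1 := by
  have hp : 2 ≤ p := (Fact.out : p.Prime).two_le
  have h1 : f.natDegree < m - 1 := by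
    rwa [degree_eq_natDegree hf0, Nat.cast_lt] at hf
  obtain ⟨H', h2, h3⟩ := exists_deriv_natDegree (f * gg a μ) ⟨H, hH⟩
  refine ⟨by omega, H', h2, h3.trans ?_⟩
  have h4 : (f * gg a μ).natDegree ≤ f.natDegree + m * (p - 1) := by
    have := natDegree_mul_le (p := f) (q := gg a μ)
    rwa [P7_natDegree_gg, hm] at this
  have h5 : m * (p - 1) + m = m * p := by
    obtain ⟨q, rfl⟩ : ∃ q, p = q + 1 := ⟨p - 1, by omega⟩
    rw [Nat.add_sub_cancel]
    ring
  omega

/-- PROOF. Let `N = card ι`; `m + m' = N` (`∑ (μ i + ν i) = N (p - 1)`). If `f = 0` or `g = 0` clear; otherwise `m ≥ 2`, `m' ≥ 2`. By `exists_deriv_natDegree` we may assume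
`H.natDegree ≤ (f * gg a μ).natDegree + 1 ≤ m p - 1` and `J.natDegree ≤ m' p - 1` (`gg a μ` is monic of degree `m (p - 1)`).
`Q = (∏ i (X - C (a i))) ^ p`, monic of degree `N p`, `derivative Q = 0`. Let `W = H * derivative (dc δ J)`.
(1) `W.natDegree + 1 < Q.natDegree` (`natDegree_dc_le`, `natDegree (derivative _) ≤ m' p - 2`), so `lam Q W = 0` (`lam_of_lt`).
(2) `exists_interp` for `H`, `s = μ` (`(X - C (a i)) ^ μ i` divides `gg a μ`): `H = expand K p γ + (∏ i (X - C (a i)) ^ (μ i + 1)) * S`. So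
`W = derivative (expand K p γ * dc δ J) + S * ((∏ ..) * derivative (dc δ J))` (`derivative_expand_eq_zero`); `derivative (dc δ J) = dc δ (derivative J) = dc δ (g * gg a ν)`
(`dc_derivative`), so with `prod_mul_dc` and `mul_qq`: `lam Q W = 0 + (S * ((X - C (a o)) * dc δ g - C (ν o) * g)).eval (a o) = - S(a o) ν(o) g(a o)` (`lam_add`, `lam_derivative`, `lam_eval`
with `Q₁ = qq p o a`). (3) `(ν o : K) ≠ 0` as `0 < ν o < p`. So `S(a o) = 0` or `g(a o) = 0`; in the first case `f(a o) = 0` by `eval_eq_zero_of`. -/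
theorem ks {ι : Type*} [Fintype ι] [DecidableEq ι] (δ : Derivation ℤ K K) (o : ι) (a : ι → K)
    (ha : Function.Injective a) (h0 : δ (a o) = 1) (h1 : ∀ i, i ≠ o → δ (a i) = 0)
    (μ ν : ι → ℕ) (hμν : ∀ i, μ i + ν i = p - 1) (hμ : ∀ i, 0 < μ i) (hν : ∀ i, 0 < ν i)
    (m m' : ℕ) (hm : ∑ i, μ i = m * (p - 1)) (hm' : ∑ i, ν i = m' * (p - 1)) (f g H J : K[X])
    (hf : f.degree < ((m - 1 : ℕ) : WithBot ℕ)) (hg : g.degree < ((m' - 1 : ℕ) : WithBot ℕ))
    (hH : derivative H = f * gg a μ) (hJ : derivative J = g * gg a ν) :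
    f.eval (a o) * g.eval (a o) = 0 := by
  by_cases hf0 : f = 0
  · rw [hf0, eval_zero, zero_mul]
  by_cases hg0 : g = 0
  · rw [hg0, eval_zero, mul_zero]
  have hp : 2 ≤ p := (Fact.out : p.Prime).two_le
  obtain ⟨hm2, H, hH, hHd⟩ := P7_prim a μ m hm f H hf0 hf hH
  obtain ⟨hm2', J, hJ, hJd⟩ := P7_prim a ν m' hm' g J hg0 hg hJ
  have hN : m + m' = Fintype.card ι := by
    have h2 : ∑ i, (μ i + ν i) = Fintype.card ι * (p - 1) := by
      rw [Finset.sum_congr rfl fun i _ => hμν i, Finset.sum_const, Finset.card_univ, smul_eq_mul]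
    rw [Finset.sum_add_distrib, hm, hm', ← add_mul] at h2
    exact Nat.eq_of_mul_eq_mul_right (by omega) h2
  have hR : (∏ i, (X - C (a i))).Monic := monic_prod_of_monic _ _ fun i _ => monic_X_sub_C (a i)
  have hQ : ((∏ i, (X - C (a i))) ^ p).Monic := hR.pow p
  have hQd : ((∏ i, (X - C (a i))) ^ p).natDegree = (m + m') * p := by
    rw [hR.natDegree_pow, natDegree_prod_of_monic _ _ fun i _ => monic_X_sub_C (a i)]
    rw [Finset.sum_congr rfl fun i _ => natDegree_X_sub_C (a i), Finset.sum_const, Finset.card_univ,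
      smul_eq_mul, mul_one, ← hN, mul_comm]
  have hW : lam ((∏ i, (X - C (a i))) ^ p) (H * derivative (dc δ J)) = 0 := by
    apply lam_of_lt hQ
    rw [hQd]
    have h2 : (H * derivative (dc δ J)).natDegree ≤ H.natDegree + (derivative (dc δ J)).natDegree :=
      natDegree_mul_le
    have h3 : (derivative (dc δ J)).natDegree ≤ (dc δ J).natDegree - 1 := natDegree_derivative_le _
    have h4 : (dc δ J).natDegree ≤ J.natDegree := natDegree_dc_le δ J
    have h5 : (m + m') * p = m * p + m' * p := add_mul _ _ _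
    have h6 : 2 * 2 ≤ m * p := Nat.mul_le_mul hm2 hp
    have h7 : 2 * 2 ≤ m' * p := Nat.mul_le_mul hm2' hp
    omega
  obtain ⟨γ, -, S, hS⟩ := exists_interp (p := p) a ha μ (fun i => by
    have := hμν i
    have := hν i
    omega) H (fun i => by
    rw [hH]
    exact Dvd.dvd.mul_left (Finset.dvd_prod_of_mem (fun i => (X - C (a i)) ^ μ i)
      (Finset.mem_univ i)) f)
  have hder : derivative (dc δ J) = dc δ (g * gg a ν) := by
    rw [← dc_derivative, hJ]
  have hWeq : H * derivative (dc δ J) = derivative (expand K p γ * dc δ J)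
      + S * ((X - C (a o)) * dc δ g - C ((ν o : ℕ) : K) * g) * qq p o a := by
    have h2 : H = expand K p γ + (∏ i, (X - C (a i)) ^ (μ i + 1)) * S := by
      rw [← hS]
      ring
    have h3 := prod_mul_dc (p := p) δ o a h0 h1 μ ν hμν (hν o) g
    rw [derivative_mul, derivative_expand_eq_zero, zero_mul, zero_add]
    calc H * derivative (dc δ J)
        = (expand K p γ + (∏ i, (X - C (a i)) ^ (μ i + 1)) * S) * derivative (dc δ J) := by
          rw [← h2]
      _ = expand K p γ * derivative (dc δ J)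
          + S * ((∏ i, (X - C (a i)) ^ (μ i + 1)) * dc δ (g * gg a ν)) := by
          rw [hder]
          ring
      _ = _ := by
          rw [h3]
          ring
  have h8 : (S * ((X - C (a o)) * dc δ g - C ((ν o : ℕ) : K) * g)).eval (a o) = 0 := by
    rw [hWeq, lam_add, lam_derivative hQ (derivative_prod_pow a), zero_add, ← mul_qq (p := p) o a,
      lam_eval (monic_qq o a)] at hW
    exact hW
  have hν0 : ((ν o : ℕ) : K) ≠ 0 := by
    rw [Ne, CharP.cast_eq_zero_iff K p]
    intro hdvd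
    have h9 := Nat.le_of_dvd (hν o) hdvd
    have := hμν o
    omega
  rw [eval_mul, eval_sub, eval_mul, eval_mul, eval_sub, eval_X, eval_C, eval_C, sub_self, zero_mul,
    zero_sub] at h8
  rcases mul_eq_zero.1 h8 with h9 | h9
  · rw [eval_eq_zero_of (p := p) o a ha μ f H S γ hH hS h9, zero_mul]
  · rw [neg_eq_zero] at h9
    rcases mul_eq_zero.1 h9 with h10 | h10
    · exact absurd h10 hν0
    · rw [h10, mul_zero]

end MPadcCC
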