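import Pool.Agent.Lib.MP_adc574_ag_LP.Primes

/-!
# Leaf S1: closed points
-/

set_option autoImplicit false

namespace MPadcCC

open Polynomial

universe u

private theorem S1_jac : IsJacobsonRing ℤ := by
  rw [isJacobsonRing_iff_prime_eq]
  intro P hP
  by_cases h : P = ⊥
  · subst h
    rw [eq_bot_iff]
    intro x hx
    rw [Ideal.mem_bot]
    by_contra hx0
    obtain ⟨p, hpx, hp⟩ := Nat.exists_infinite_primes (x.natAbs + 1)
    have hmax : (Ideal.span {(p : ℤ)}).IsMaximal := by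
      apply PrincipalIdealRing.isMaximal_of_irreducible
      exact (Nat.prime_iff_prime_int.1 hp).irreducible
    rw [Ideal.jacobson, Ideal.mem_sInf] at hx
    have h1 := hx ⟨bot_le, hmax⟩
    rw [Ideal.mem_span_singleton] at h1
    have h2 := Nat.le_of_dvd (Int.natAbs_pos.2 hx0) (Int.natCast_dvd.1 h1)
    omega
  · have hmax : P.IsMaximal := hP.isMaximal h
    exact Ideal.jacobson_eq_self_of_isMaximal

private theorem S1_finite {A : Type*} [CommRing A] [Algebra.FiniteType ℤ A] (m : Ideal A)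
    [hm : m.IsMaximal] {p : ℕ} (hp : p.Prime) (hpm : (p : A) ∈ m) : Finite (A ⧸ m) := by
  let _ := Ideal.Quotient.field m
  have h1 : Algebra.FiniteType ℤ (A ⧸ m) :=
    Algebra.FiniteType.of_surjective (Ideal.Quotient.mkₐ ℤ m) (Ideal.Quotient.mkₐ_surjective ℤ m)
  have hj := S1_jac
  have h2 : Module.Finite ℤ (A ⧸ m) := finite_of_finite_type_of_isJacobsonRing ℤ (A ⧸ m)
  refine Module.finite_of_fg_torsion (A ⧸ m) ?_
  intro x
  refine ⟨⟨(p : ℤ), mem_nonZeroDivisors_of_ne_zero (by exact_mod_cast hp.ne_zero)⟩, ?_⟩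
  show (p : ℤ) • x = 0
  have h3 : ((p : ℤ) : A ⧸ m) = 0 := by
    rw [Int.cast_natCast, ← map_natCast (Ideal.Quotient.mk m), Ideal.Quotient.eq_zero_iff_mem]
    exact hpm
  rw [zsmul_eq_mul, h3, zero_mul]

/-- PROOF. Copy the end of the proof of `pencils2` in Pool/Agent/Lib/MP_adc574_ag_BK/FinG2.lean (store file MP_adc574_agCC_FinG2.lean): `A` is a Jacobson ring (`isJacobsonRing_of_finiteType` over `ℤ`; `ℤ` is a Jacobson ring: private lemma `Primes_jac` in MP_adc574_ag_LP/Primes.lean, copy it),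
so there is a maximal ideal `m ≥ Q` with `c ∉ m` (`Q` is the intersection of the maximal ideals which contain it), and `A ⧸ m` is finite (private lemma `fing2_finite`). -/
theorem exists_closed {A : Type u} [CommRing A] [Algebra.FiniteType ℤ A] (Q : Ideal A)
    (hQ : Q.IsPrime) {p : ℕ} (hp : p.Prime) (hpQ : (p : A) ∈ Q) (c : A) (hc : c ∉ Q) :
    ∃ (E : Type u) (_ : Field E) (φ : A →+* E), Finite E ∧ CharP E p ∧ Function.Surjective φ ∧
      φ c ≠ 0 := by
  have hjac := S1_jac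
  have hjacA : IsJacobsonRing A := isJacobsonRing_of_finiteType (A := ℤ)
  have hjac2 : Q.jacobson = Q := hjacA.out hQ.isRadical
  rw [← hjac2, Ideal.jacobson, Ideal.mem_sInf] at hc
  push Not at hc
  obtain ⟨m, ⟨hQm, hm⟩, hcm⟩ := hc
  have hfin : Finite (A ⧸ m) := S1_finite m hp (hQm hpQ)
  let : Field (A ⧸ m) := Ideal.Quotient.field m
  have hchar : CharP (A ⧸ m) p := by
    have h0 : ((p : ℕ) : A ⧸ m) = 0 := by
      rw [← map_natCast (Ideal.Quotient.mk m), Ideal.Quotient.eq_zero_iff_mem]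
      exact hQm hpQ
    obtain ⟨q, hq⟩ := CharP.exists (A ⧸ m)
    have h1 : q ∣ p := (CharP.cast_eq_zero_iff (A ⧸ m) q p).1 h0
    rcases (Nat.dvd_prime hp).1 h1 with h2 | h2
    · exact absurd h2 (CharP.char_ne_one (A ⧸ m) q)
    · rwa [h2] at hq
  refine ⟨A ⧸ m, this, Ideal.Quotient.mk m, hfin, hchar, Ideal.Quotient.mk_surjective, fun h1 => ?_⟩
  exact hcm (Ideal.Quotient.eq_zero_iff_mem.1 h1)

end MPadcCC
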