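import Pool.Agent.Lib.MP_adc574_ag_LP.Primes

/-!
# Leaf S2: generic points of the fibres
-/

set_option autoImplicit false

namespace MPadcCC

open Polynomial

universe u

/-- PROOF. As in the proof of `pencils2` in Pool/Agent/Lib/MP_adc574_ag_BK/FinG2.lean (store file MP_adc574_agCC_FinG2.lean). `θ : R[X] →+* A`, `θ d = eval₂ (algebraMap R A) t d`, is injective because `t` is transcendental over `κ` and the elements of `R` are in `κ`, and of finite type
(`RingHom.FiniteType.of_comp_finiteType`). `R` is noetherian (finitely generated over `ℤ`). `MPadcLP.exists_prime_lift θ c`: `h ≠ 0` in `R[X]` such that the primes `q` with `h ∉ q` lift to primes `Q` of `A` with `c ∉ Q` and `Q.comap θ = q`.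
Let `d₀ ≠ 0` be a coefficient of `h`; `MPadcLP.exists_bound d₀` (for `R`, which has characteristic zero): for large `p` a prime `𝔭` of `R` with `d₀ ∉ 𝔭`, `p ∈ 𝔭`. `E = FractionRing (R ⧸ 𝔭)`, `ψ` the natural homomorphism, `q = ker (R[X] → E[X]) = ker (mapRingHom ψ)`, prime,
`h ∉ q`. -/
theorem exists_fibre {k : Type u} [Field k] [CharZero k] (κ : Subfield k) (A : Subalgebra ℤ k)
    (hA : A.FG) (t : A) (ht : Transcendental κ (t : k)) (R : Subalgebra ℤ A) (hR : R.FG)
    (hRκ : ∀ z ∈ R, ((z : A) : k) ∈ κ) (c : A) (hc : c ≠ 0) :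
    ∃ p₀ : ℕ, ∀ p : ℕ, p.Prime → p₀ < p →
      ∃ (E : Type u) (_ : Field E) (_ : CharP E p) (ψ : R →+* E) (Q : Ideal A),
        Q.IsPrime ∧ c ∉ Q ∧ (p : A) ∈ Q ∧
          ∀ d : Polynomial R, eval₂ (algebraMap R A) t d ∈ Q ↔ d.map ψ = 0 := by
  let ιA : A →+* k := A.val.toRingHom
  have hιA : Function.Injective ιA := Subtype.val_injective
  let ιR : R →+* k := ιA.comp (algebraMap R A)
  have hιR : Function.Injective ιR := hιA.comp Subtype.val_injective
  let ρ : R →+* κ := ιR.codRestrict κ fun z => hRκ z z.2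
  have hρ : Function.Injective ρ := fun x y hxy => hιR (congrArg (fun z : κ => (z : k)) hxy)
  let θ : Polynomial R →+* A := eval₂RingHom (algebraMap R A) t
  have hθk : ∀ P : Polynomial R, ιA (θ P) = aeval (t : k) (P.map ρ) := by
    intro P
    have h1 : ιA (θ P) = ιA (eval₂ (algebraMap R A) t P) := rfl
    rw [h1, hom_eval₂, aeval_def, eval₂_map]
    rfl
  have hθ : Function.Injective θ := by
    rw [injective_iff_map_eq_zero]
    intro P hP
    have h1 := hθk P
    rw [hP, map_zero] at h1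
    have h2 : P.map ρ = 0 := by
      by_contra h3
      exact ht ⟨_, h3, h1.symm⟩
    exact (Polynomial.map_eq_zero_iff hρ).1 h2
  have hftR : Algebra.FiniteType ℤ R := R.fg_iff_finiteType.1 hR
  have hftA : Algebra.FiniteType ℤ A := A.fg_iff_finiteType.1 hA
  have hθft : @RingHom.FiniteType (Polynomial R) A _ _ θ := by
    refine RingHom.FiniteType.of_comp_finiteType (f := algebraMap ℤ (Polynomial R)) ?_
    have h1 : θ.comp (algebraMap ℤ (Polynomial R)) = algebraMap ℤ A := Subsingleton.elim _ _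
    rw [h1, RingHom.finiteType_algebraMap]
    exact hftA
  have hnoeth : IsNoetherianRing R := Algebra.FiniteType.isNoetherianRing ℤ R
  have hczR : CharZero R := ιR.charZero
  obtain ⟨h, hh0, hlift⟩ := MPadcLP.exists_prime_lift (B := Polynomial R) (A := A) θ hθ hθft c hc
  obtain ⟨p₀, hp₀⟩ := MPadcLP.exists_bound h.leadingCoeff (leadingCoeff_ne_zero.2 hh0)
  refine ⟨p₀, fun p hp hpp => ?_⟩
  obtain ⟨P, hP, hdP, hpP⟩ := hp₀ p hp hpp
  have hdomP : IsDomain (R ⧸ P) := Ideal.Quotient.isDomain P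
  let ψ : R →+* FractionRing (R ⧸ P) :=
    (algebraMap (R ⧸ P) (FractionRing (R ⧸ P))).comp (Ideal.Quotient.mk P)
  have hψ : ∀ x, ψ x = 0 ↔ x ∈ P := by
    intro x
    have h1 : ψ x = algebraMap (R ⧸ P) (FractionRing (R ⧸ P)) (Ideal.Quotient.mk P x) := rfl
    rw [h1, map_eq_zero_iff _ (IsFractionRing.injective (R ⧸ P) (FractionRing (R ⧸ P))),
      Ideal.Quotient.eq_zero_iff_mem]
  have hch : CharP (FractionRing (R ⧸ P)) p := by
    rw [CharP.charP_iff_prime_eq_zero hp, ← map_natCast ψ, hψ]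
    exact hpP
  have hker : (RingHom.ker (mapRingHom ψ)).IsPrime := RingHom.ker_isPrime _
  have hhker : h ∉ RingHom.ker (mapRingHom ψ) := by
    intro h1
    rw [RingHom.mem_ker, coe_mapRingHom] at h1
    have h2 : ψ h.leadingCoeff = 0 := by
      have h3 := congrArg (fun z => coeff z h.natDegree) h1
      rw [coeff_map, coeff_zero] at h3
      exact h3
    exact hdP ((hψ _).1 h2)
  obtain ⟨Q, hQ, hcQ, hQq⟩ := hlift _ hker hhker
  have hQmem : ∀ x, θ x ∈ Q ↔ x.map ψ = 0 := by
    intro x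
    rw [← Ideal.mem_comap, hQq, RingHom.mem_ker, coe_mapRingHom]
  refine ⟨FractionRing (R ⧸ P), inferInstance, hch, ψ, Q, hQ, hcQ, ?_, hQmem⟩
  have h1 : ((p : ℕ) : A) = θ (p : Polynomial R) := (map_natCast θ p).symm
  rw [h1, hQmem, Polynomial.map_natCast]
  have h2 : ((p : ℕ) : FractionRing (R ⧸ P)) = 0 := CharP.cast_eq_zero _ p
  rw [← C_eq_natCast, h2, C_0]

end MPadcCC
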