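import Pool.Agent.Lib.MP_adc574_ag_CC.P11

/-!
# Leaf S3: the Hasse-Witt determinants are not zero at the generic points of the fibres
-/

set_option autoImplicit false

namespace MPadcCC

open Polynomial

universe u

/-- PROOF. Let `a' : Fin (n + 1) → R[X]`, `a' 0 = X`, `a' i = C ⟨a i, _⟩` for `i ≠ 0`; `θ = eval₂RingHom (algebraMap R A) t` maps `a' i` to `a i`. So `θ (det over R[X]) = det over A` (`det_hw_map`, `gg_map`), so it is in `Q` iff its image under `mapRingHom ψ : R[X] → E[X]` is zero (`hQ`), and this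
image is the determinant for the points `if i = 0 then X else C (ψ a_i)` (`det_hw_map`, `gg_map`), not zero by `det_ne_zero'` (`o = 0`, `b i = ψ ⟨a i, _⟩`). `ψ a_i ≠ ψ a_j` for `i ≠ j` different from `0`: `a i - a j = θ (C (..)) ∉ Q` by `hinj`. -/
theorem det_notMem {A : Type u} [CommRing A] (t : A) (R : Subalgebra ℤ A) {E : Type u} [Field E]
    {p : ℕ} [Fact p.Prime] [CharP E p] (ψ : R →+* E) (Q : Ideal A)
    (hQ : ∀ d : Polynomial R, eval₂ (algebraMap R A) t d ∈ Q ↔ d.map ψ = 0) {n : ℕ}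
    (a : Fin (n + 1) → A) (h0 : a 0 = t) (h1 : ∀ i, i ≠ 0 → a i ∈ R)
    (hinj : ∀ i j, i ≠ j → a i - a j ∉ Q) (μ : Fin (n + 1) → ℕ) (hμ : 0 < μ 0)
    (hμp : ∀ i, μ i + 1 < p) (m : ℕ) (hm : ∑ i, μ i = m * (p - 1)) (hb1 : n + 1 ≤ μ 0)
    (hb2 : μ 0 + (n + 1) ≤ p) : (hw p m (gg a μ)).det ∉ Q := by
  classical
  intro hmem
  let a' : Fin (n + 1) → Polynomial R := fun i => if h : i = 0 then X else C ⟨a i, h1 i h⟩
  let θ : Polynomial R →+* A := eval₂RingHom (algebraMap R A) t
  have ha' : ∀ i, θ (a' i) = a i := by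
    intro i
    by_cases h : i = 0
    · subst h
      show eval₂RingHom (algebraMap R A) t (if h : (0 : Fin (n + 1)) = 0 then X else C ⟨a 0, h1 0 h⟩) = a 0
      rw [dif_pos rfl, coe_eval₂RingHom, eval₂_X, h0]
    · show eval₂RingHom (algebraMap R A) t (if h : i = 0 then X else C ⟨a i, h1 i h⟩) = a i
      rw [dif_neg h, coe_eval₂RingHom, eval₂_C]
      rfl
  let b : Fin (n + 1) → E := fun i => if h : i = 0 then 0 else ψ ⟨a i, h1 i h⟩
  have hb : ∀ i, (a' i).map ψ = if i = 0 then (X : E[X]) else C (b i) := by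
    intro i
    by_cases h : i = 0
    · show Polynomial.map ψ (if h : i = 0 then X else C ⟨a i, h1 i h⟩) = _
      rw [dif_pos h, if_pos h, Polynomial.map_X]
    · show Polynomial.map ψ (if h : i = 0 then X else C ⟨a i, h1 i h⟩) =
        if i = 0 then (X : E[X]) else C (if h : i = 0 then 0 else ψ ⟨a i, h1 i h⟩)
      rw [dif_neg h, if_neg h, dif_neg h, Polynomial.map_C]
  have hd1 : θ (hw p m (gg a' μ)).det = (hw p m (gg a μ)).det := by
    rw [← det_hw_map, gg_map]
    have : (fun i => θ (a' i)) = a := funext ha'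
    rw [this]
  have hd2 : Polynomial.mapRingHom ψ (hw p m (gg a' μ)).det =
      (hw p m (gg (fun i => if i = 0 then (X : E[X]) else C (b i)) μ)).det := by
    rw [← det_hw_map, gg_map]
    have : (fun i => Polynomial.mapRingHom ψ (a' i)) = fun i => if i = 0 then (X : E[X]) else C (b i) :=
      funext fun i => by
        rw [coe_mapRingHom]
        exact hb i
    rw [this]
  rw [← hd1] at hmem
  have h3 := (hQ _).1 hmem
  rw [← coe_mapRingHom, hd2] at h3
  refine det_ne_zero' 0 b ?_ μ hμ hμp m hm ?_ ?_ h3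
  · intro i j hi hj hij
    by_contra hne
    refine hinj i j hne ?_
    have h4 : eval₂ (algebraMap R A) t (C (⟨a i, h1 i hi⟩ - ⟨a j, h1 j hj⟩ : R)) = a i - a j := by
      rw [eval₂_C]
      rfl
    rw [← h4, hQ, Polynomial.map_C, map_sub]
    have h5 : b i = ψ ⟨a i, h1 i hi⟩ := dif_neg hi
    have h6 : b j = ψ ⟨a j, h1 j hj⟩ := dif_neg hj
    rw [← h5, ← h6, hij, sub_self, C_0]
  · rw [Fintype.card_fin]
    exact hb1
  · rw [Fintype.card_fin]
    exact hb2

end MPadcCC
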