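import Pool.Agent.Lib.MP_adc574_ag_CC.F16
import Pool.Agent.Lib.MP_adc574_ag_CC.S1
import Pool.Agent.Lib.MP_adc574_ag_CC.S2
import Pool.Agent.Lib.MP_adc574_ag_CC.S3

/-!
# Leaf S4: dense ordinary reduction
-/

set_option autoImplicit false

namespace MPadcCC

open Polynomial

universe u

/-- PROOF. Let `R` be the subring of `A` generated by the `(c l).a i`, `i ≠ 0` (`Algebra.adjoin ℤ` of a finite set; its elements are in `κ`). `cc = b * ∏_l ∏_(i ≠ j) ((c l).a i - (c l).a j) ≠ 0`. `exists_fibre` gives `p₀`; take `p` larger than `p₀` and than all `e_l * (n_l + 3)`,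
`p = e_l M_l + 1`, so `M_l ≥ n_l + 2`. Get `E₀, ψ, Q`. For every `l` and `0 < j < e_l`: `D_(l,j) = det hw p (mm j) (Fx (c l) j ^ M_l) ∉ Q` by `det_notMem` with `μ i = M_l * (j r_i mod e_l)` (`Fx ^ M = gg a μ`: `gg_pow`; `∑ μ = M e mm j = mm j (p - 1)`: `sum_mod`;
`μ 0 ≥ M_l ≥ n + 1` because `j r_0 mod e ≠ 0` (`r_0` is coprime to `e`), `μ i ≤ M_l (e - 1) = p - 1 - M_l`). `exists_closed` for `cc * ∏ D_(l,j)` (a finite product): `φ : A → E`. `φ (a i) ≠ φ (a j)`; the determinants for `(c l).map φ` are `φ D_(l,j) ≠ 0`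
(`det_hw_map`, `gg_map`; `mm` does not depend on the points). `((c l).map φ).Ok`; `isOrdinary_of_det`. -/
theorem dense_ordinary {k : Type u} [Field k] [CharZero k] (κ : Subfield k) (A : Subalgebra ℤ k)
    (hA : A.FG) (t : A) (ht : Transcendental κ (t : k)) {ι : Type} [Finite ι] (c : ι → Cover A)
    (hc : ∀ l, (c l).Ok) (h0 : ∀ l, (c l).a 0 = t)
    (h1 : ∀ l i, i ≠ 0 → (((c l).a i : A) : k) ∈ κ) : DenseOrdinaryReduction c := by
  classical
  intro b hb
  have hfin : Fintype ι := Fintype.ofFinite ι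
  have hft : Algebra.FiniteType ℤ A := (Subalgebra.fg_iff_finiteType A).1 hA
  let S : Set A := Set.range fun q : {q : (l : ι) × Fin ((c l).n + 1) // q.2 ≠ 0} => (c q.1.1).a q.1.2
  let R : Subalgebra ℤ A := Algebra.adjoin ℤ S
  have hS : S.Finite := Set.finite_range _
  have hR : R.FG := Subalgebra.fg_def.2 ⟨S, hS, rfl⟩
  have haR : ∀ l i, i ≠ 0 → (c l).a i ∈ R := fun l i hi => Algebra.subset_adjoin ⟨⟨⟨l, i⟩, hi⟩, rfl⟩
  have hRκ : ∀ z ∈ R, ((z : A) : k) ∈ κ := by
    intro z hz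
    induction hz using Algebra.adjoin_induction with
    | mem x hx =>
      obtain ⟨q, rfl⟩ := hx
      exact h1 q.1.1 q.1.2 q.2
    | algebraMap r =>
      have e : (((algebraMap ℤ A r : A)) : k) = ((r : ℤ) : k) := by
        rw [eq_intCast]
        exact map_intCast A.val r
      rw [e]
      exact intCast_mem κ r
    | add x y _ _ hx hy => exact κ.add_mem hx hy
    | mul x y _ _ hx hy => exact κ.mul_mem hx hy
  let cc : A := b * ∏ l, ∏ i, ∏ j, if i = j then (1 : A) else (c l).a i - (c l).a j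
  have hcc : cc ≠ 0 := by
    refine mul_ne_zero hb ?_
    refine Finset.prod_ne_zero_iff.2 fun l _ => Finset.prod_ne_zero_iff.2 fun i _ =>
      Finset.prod_ne_zero_iff.2 fun j _ => ?_
    by_cases hij : i = j
    · rw [if_pos hij]
      exact one_ne_zero
    · rw [if_neg hij]
      exact sub_ne_zero.2 fun e => hij ((hc l).inj e)
  have hdvd : ∀ l i j, i ≠ j → (c l).a i - (c l).a j ∣ cc := by
    intro l i j hij
    refine Dvd.dvd.mul_left ?_ b
    refine dvd_trans ?_ (Finset.dvd_prod_of_mem _ (Finset.mem_univ l))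
    refine dvd_trans ?_ (Finset.dvd_prod_of_mem _ (Finset.mem_univ i))
    refine dvd_trans ?_ (Finset.dvd_prod_of_mem _ (Finset.mem_univ j))
    rw [if_neg hij]
  have hdvb : b ∣ cc := Dvd.intro _ rfl
  obtain ⟨p₀, hp₀⟩ := exists_fibre κ A hA t ht R hR hRκ cc hcc
  refine ⟨p₀ + ∑ l, (c l).e * ((c l).n + 3), fun p hp hlt hmod => ?_⟩
  have hF : Fact p.Prime := ⟨hp⟩
  obtain ⟨E₀, _, _, ψ, Q, hQ, hcQ, hpQ, hd⟩ := hp₀ p hp (by omega)
  have hM : ∀ l, ∃ M, p = (c l).e * M + 1 ∧ (c l).n + 3 ≤ M := by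
    intro l
    obtain ⟨M, hM⟩ := (Nat.modEq_iff_dvd' hp.one_lt.le).1 (hmod l).symm
    have h2 : (c l).e * ((c l).n + 3) ≤ ∑ l, (c l).e * ((c l).n + 3) :=
      Finset.single_le_sum (f := fun l => (c l).e * ((c l).n + 3)) (fun _ _ => Nat.zero_le _) (Finset.mem_univ l)
    have hp1 := hp.one_lt
    refine ⟨M, by omega, ?_⟩
    have h3 : (c l).e * ((c l).n + 3) ≤ (c l).e * M := by omega
    have he : 0 < (c l).e := by
      have := (hc l).two
      omega
    exact Nat.le_of_mul_le_mul_left h3 he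
  choose M hpM hnM using hM
  have hsub : ∀ l i j, i ≠ j → (c l).a i - (c l).a j ∉ Q := fun l i j hij h =>
    hcQ (Ideal.mem_of_dvd Q (hdvd l i j hij) h)
  have hD : ∀ l j, 0 < j → j < (c l).e → (hw p (mm (c l) j) (Fx (c l) j ^ M l)).det ∉ Q := by
    intro l j hj hje
    have h3 := (hc l).two
    have hMl := hnM l
    have hM0 : 0 < M l := by omega
    have hlt' : ∀ i, j * (c l).r i % (c l).e + 1 ≤ (c l).e := fun i => Nat.mod_lt _ (by omega)
    have h0' : 0 < j * (c l).r 0 % (c l).e := by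
      refine Nat.pos_of_ne_zero fun h => ?_
      have h4 : (c l).e ∣ j * (c l).r 0 := Nat.dvd_of_mod_eq_zero h
      have h5 : (c l).e ∣ j := Nat.Coprime.dvd_of_dvd_mul_right (hc l).cop.symm h4
      have h6 := Nat.le_of_dvd hj h5
      omega
    have hmul : ∀ i, M l * (j * (c l).r i % (c l).e) + M l ≤ (c l).e * M l := by
      intro i
      calc M l * (j * (c l).r i % (c l).e) + M l = M l * (j * (c l).r i % (c l).e + 1) := by ring
        _ ≤ M l * (c l).e := Nat.mul_le_mul_left _ (hlt' i)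
        _ = (c l).e * M l := mul_comm _ _
    have hp2 := hpM l
    have h0M : M l * 1 ≤ M l * (j * (c l).r 0 % (c l).e) := Nat.mul_le_mul_left _ h0'
    unfold Fx
    rw [gg_pow]
    refine det_notMem t R ψ Q hd (c l).a (h0 l) (haR l) (hsub l) _ ?_ ?_ _ ?_ ?_ ?_
    · exact Nat.mul_pos hM0 h0'
    · intro i
      have := hmul i
      omega
    · have h7 : p - 1 = (c l).e * M l := by omega
      rw [← Finset.mul_sum, sum_mod (c l) (hc l) j, h7]
      ring
    · omega
    · have := hmul 0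
      omega
  let dd : A := ∏ l, ∏ j ∈ Finset.range (c l).e,
    if 0 < j then (hw p (mm (c l) j) (Fx (c l) j ^ M l)).det else 1
  have hddQ : cc * dd ∉ Q := by
    intro h
    rcases hQ.mem_or_mem h with h | h
    · exact hcQ h
    · obtain ⟨l, _, h⟩ := Ideal.IsPrime.prod_mem_iff.1 h
      obtain ⟨j, hj, h⟩ := Ideal.IsPrime.prod_mem_iff.1 h
      by_cases h0j : 0 < j
      · rw [if_pos h0j] at h
        exact hD l j h0j (Finset.mem_range.1 hj) h
      · rw [if_neg h0j] at h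
        exact hQ.ne_top ((Ideal.eq_top_iff_one Q).2 h)
  obtain ⟨E, _, φ, hE, hchar, hsurj, hφ⟩ := exists_closed Q hQ hp hpQ (cc * dd) hddQ
  rw [map_mul] at hφ
  have hφcc : φ cc ≠ 0 := left_ne_zero_of_mul hφ
  have hφdd : φ dd ≠ 0 := right_ne_zero_of_mul hφ
  have hnz : ∀ z : A, z ∣ cc → φ z ≠ 0 := by
    rintro z ⟨w, hw'⟩ hz
    apply hφcc
    rw [hw', map_mul, hz, zero_mul]
  have hinj : ∀ l, Function.Injective ((c l).map φ).a := by
    intro l i j hij
    by_contra hne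
    refine hnz _ (hdvd l i j hne) ?_
    rw [map_sub]
    exact sub_eq_zero.2 hij
  refine ⟨E, inferInstance, φ, hE, hchar, hsurj, hnz b hdvb, fun l => ⟨hinj l, ?_⟩⟩
  have hok : ((c l).map φ).Ok := ⟨(hc l).two, hinj l, (hc l).pos, (hc l).lt, (hc l).cop, (hc l).dvd⟩
  have hn : ((c l).map φ).n + 1 ≤ p := by
    have h3 := (hc l).two
    have h4 := hnM l
    have h5 := hpM l
    have h6 : 2 * M l ≤ (c l).e * M l := Nat.mul_le_mul_right _ h3
    change (c l).n + 1 ≤ p
    omega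
  refine isOrdinary_of_det ((c l).map φ) hok (M := M l) (hpM l) hn fun j hj hje => ?_
  have e1 : Fx ((c l).map φ) j ^ M l = (Fx (c l) j ^ M l).map φ := by
    rw [Polynomial.map_pow]
    unfold Fx
    rw [gg_map]
    rfl
  have e2 : mm ((c l).map φ) j = mm (c l) j := rfl
  rw [e1, e2, det_hw_map]
  have hje' : j < (c l).e := hje
  intro hz
  apply hφdd
  have hdiv : (hw p (mm (c l) j) (Fx (c l) j ^ M l)).det ∣ dd := by
    refine dvd_trans ?_ (Finset.dvd_prod_of_mem _ (Finset.mem_univ l))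
    refine dvd_trans ?_ (Finset.dvd_prod_of_mem _ (Finset.mem_range.2 hje'))
    rw [if_pos hj]
  obtain ⟨w, hw'⟩ := hdiv
  rw [hw', map_mul, hz, zero_mul]

end MPadcCC
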